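import Pool.Agent.Helper52.MEI.DensW

/-!
# Density bounds by loads, and the chamber inside of the contact cone with nonnegative columns

A load `(L, m; M₁, M₂, M₃)` of the partner `q` is a valid inequality `L + m w ≤ 2 Σ M_k y_k(q)`.
-/

set_option autoImplicit false

namespace Pool.Agent.Helper52.MEI

open Set Helper80.CW Helper14.CW Helper93.MEI
open scoped RealInnerProductSpace

variable {a : Fin 4 → E3} {K : Set E3}

/-- the valid inequality of a load at the partner `q` (vertex `0`) -/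
def Load (a : Fin 4 → E3) (q : E3) (L m : ℝ) (M : Fin 3 → ℝ) : Prop :=
  L + m * ‖a 0 - q‖ ^ 2 ≤ 2 * (M 0 * yv a 0 1 q + M 1 * yv a 0 2 q + M 2 * yv a 0 3 q)

/-- coordinates `b_1, b_2, b_3` -/
noncomputable def b3 (a : Fin 4 → E3) (x : E3) : Fin 3 → ℝ := ![bar a 1 x, bar a 2 x, bar a 3 x]

theorem b3_sum (h : Gram4 (al a)) (x : E3) : b3 a x 0 + b3 a x 1 + b3 a x 2 = 1 - bar a 0 x := by
  have := bar_sum h x
  show bar a 1 x + bar a 2 x + bar a 3 x = 1 - bar a 0 x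
  linarith

/-- a point of the body gives a load; the columns may be enlarged -/
theorem Load.pt (h : Gram4 (al a)) {z q : E3} (hzq : ‖z - q‖ ≤ 1) (hq : Pl a q) {M : Fin 3 → ℝ}
    (hM : ∀ k, b3 a z k ≤ M k) : Load a q (Qv a 0 z) 1 M := by
  have e := face_coupling h hzq
  have y1 := yv_nonneg hq (i := 0) (j := 1) (by decide)
  have y2 := yv_nonneg hq (i := 0) (j := 2) (by decide)
  have y3 := yv_nonneg hq (i := 0) (j := 3) (by decide)
  have h1 : bar a 1 z ≤ M 0 := hM 0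
  have h2 : bar a 2 z ≤ M 1 := hM 1
  have h3 : bar a 3 z ≤ M 2 := hM 2
  have k1 := mul_le_mul_of_nonneg_right h1 y1
  have k2 := mul_le_mul_of_nonneg_right h2 y2
  have k3 := mul_le_mul_of_nonneg_right h3 y3
  unfold Load
  rw [one_mul]
  linarith

theorem Load.smul {q : E3} {L m c : ℝ} {M : Fin 3 → ℝ} (hc : 0 ≤ c) (h : Load a q L m M) :
    Load a q (c * L) (c * m) (fun k => c * M k) := by
  unfold Load at h ⊢
  have := mul_le_mul_of_nonneg_left h hc
  beta_reduce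
  linarith

theorem Load.add {q : E3} {L m L' m' : ℝ} {M M' : Fin 3 → ℝ} (h : Load a q L m M)
    (h' : Load a q L' m' M') : Load a q (L + L') (m + m') (fun k => M k + M' k) := by
  unfold Load at h h' ⊢
  beta_reduce
  linarith

theorem Load.zero {q : E3} : Load a q 0 0 (fun _ => 0) := by
  unfold Load
  simp

theorem Load.sum {ι : Type*} (S : Finset ι) {q : E3} {L m : ι → ℝ} {M : ι → Fin 3 → ℝ}
    (h : ∀ i ∈ S, Load a q (L i) (m i) (M i)) :
    Load a q (∑ i ∈ S, L i) (∑ i ∈ S, m i) (fun k => ∑ i ∈ S, M i k) := by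
  classical
  induction S using Finset.induction_on with
  | empty => simpa using Load.zero
  | insert i S hi ih =>
    have h1 := (h i (Finset.mem_insert_self i S)).add
      (ih fun j hj => h j (Finset.mem_insert_of_mem hj))
    simpa only [Finset.sum_insert hi] using h1

/-- **density bound by a load** -/
theorem Load.dens (h : Gram4 (al a)) {p q : E3} {A κ L m : ℝ} {M : Fin 3 → ℝ} (hA : 0 ≤ A)
    (hpq : ‖p - q‖ = 1) (hL : Load a q L m M) (hM : ∀ k, M k ≤ b3 a p k) :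
    A * (L - ((b3 a p 0 - M 0) * pp (Qv a 1 q) + (b3 a p 1 - M 1) * pp (Qv a 2 q)
        + (b3 a p 2 - M 2) * pp (Qv a 3 q)))
      - max 0 (κ - A * (- bar a 0 p - (M 0 + M 1 + M 2 - m))) * ‖a 0 - q‖ ^ 2
      ≤ A * Qv a 0 p - κ * ‖a 0 - q‖ ^ 2 := by
  have e0 := face_id h p q
  rw [hpq] at e0
  have hb := bar_sum h p
  have g1 := Qv_yv h (k := 1) (by decide) q
  have g2 := Qv_yv h (k := 2) (by decide) q
  have g3 := Qv_yv h (k := 3) (by decide) q
  have m1 : M 0 ≤ bar a 1 p := hM 0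
  have m2 : M 1 ≤ bar a 2 p := hM 1
  have m3 : M 2 ≤ bar a 3 p := hM 2
  have k1 := mul_le_mul_of_nonneg_left (le_pp (Qv a 1 q)) (sub_nonneg.2 m1)
  have k2 := mul_le_mul_of_nonneg_left (le_pp (Qv a 2 q)) (sub_nonneg.2 m2)
  have k3 := mul_le_mul_of_nonneg_left (le_pp (Qv a 3 q)) (sub_nonneg.2 m3)
  show A * (L - ((bar a 1 p - M 0) * pp (Qv a 1 q) + (bar a 2 p - M 1) * pp (Qv a 2 q)
        + (bar a 3 p - M 2) * pp (Qv a 3 q)))
      - max 0 (κ - A * (- bar a 0 p - (M 0 + M 1 + M 2 - m))) * ‖a 0 - q‖ ^ 2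
      ≤ A * Qv a 0 p - κ * ‖a 0 - q‖ ^ 2
  unfold Load at hL
  have hδ : 0 ≤ ‖a 0 - q‖ ^ 2 := by positivity
  set w := ‖a 0 - q‖ ^ 2
  set B := - bar a 0 p - (M 0 + M 1 + M 2 - m) with hB
  have key : L - ((bar a 1 p - M 0) * pp (Qv a 1 q) + (bar a 2 p - M 1) * pp (Qv a 2 q)
        + (bar a 3 p - M 2) * pp (Qv a 3 q)) ≤ Qv a 0 p - B * w := by
    have e1 : bar a 1 p * yv a 0 1 q = M 0 * yv a 0 1 q +
        (bar a 1 p - M 0) * yv a 0 1 q := by ring
    have e2 : bar a 2 p * yv a 0 2 q = M 1 * yv a 0 2 q +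
        (bar a 2 p - M 1) * yv a 0 2 q := by ring
    have e3 : bar a 3 p * yv a 0 3 q = M 2 * yv a 0 3 q +
        (bar a 3 p - M 2) * yv a 0 3 q := by ring
    have f1 : 2 * ((bar a 1 p - M 0) * yv a 0 1 q) = (bar a 1 p - M 0) * w -
        (bar a 1 p - M 0) * Qv a 1 q := by rw [g1]; ring
    have f2 : 2 * ((bar a 2 p - M 1) * yv a 0 2 q) = (bar a 2 p - M 1) * w -
        (bar a 2 p - M 1) * Qv a 2 q := by rw [g2]; ring
    have f3 : 2 * ((bar a 3 p - M 2) * yv a 0 3 q) = (bar a 3 p - M 2) * w -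
        (bar a 3 p - M 2) * Qv a 3 q := by rw [g3]; ring
    have f4 : B * w = - bar a 0 p * w - (M 0 + M 1 + M 2) * w + m * w := by rw [hB]; ring
    have f5 : bar a 0 p * w + bar a 1 p * w + bar a 2 p * w + bar a 3 p * w = w := by
      rw [← add_mul, ← add_mul, ← add_mul, hb, one_mul]
    linarith
  have e2 := mul_le_mul_of_nonneg_left key hA
  have e3 := mul_le_mul_of_nonneg_right (le_max_right 0 (κ - A * B)) hδ
  linarith

/-- the cap of face `1` at the vertex `0` as a load: node `a_1` with value `-s` -/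
theorem Load.cap1 (h : Gram4 (al a)) {q : E3} {s : ℝ} (hs : Qv a 1 q ≤ s) :
    Load a q (-s) 1 ![1, 0, 0] := by
  have g := Qv_yv h (k := 1) (by decide) q
  show -s + 1 * ‖a 0 - q‖ ^ 2 ≤ 2 * (1 * yv a 0 1 q + 0 * yv a 0 2 q + 0 * yv a 0 3 q)
  linarith

/-- node `a_2` with value `-s` -/
theorem Load.cap2 (h : Gram4 (al a)) {q : E3} {s : ℝ} (hs : Qv a 2 q ≤ s) :
    Load a q (-s) 1 ![0, 1, 0] := by
  have g := Qv_yv h (k := 2) (by decide) q
  show -s + 1 * ‖a 0 - q‖ ^ 2 ≤ 2 * (0 * yv a 0 1 q + 1 * yv a 0 2 q + 0 * yv a 0 3 q)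
  linarith

/-- node `a_3` with value `-s` -/
theorem Load.cap3 (h : Gram4 (al a)) {q : E3} {s : ℝ} (hs : Qv a 3 q ≤ s) :
    Load a q (-s) 1 ![0, 0, 1] := by
  have g := Qv_yv h (k := 3) (by decide) q
  show -s + 1 * ‖a 0 - q‖ ^ 2 ≤ 2 * (0 * yv a 0 1 q + 0 * yv a 0 2 q + 1 * yv a 0 3 q)
  linarith

/-- **chamber lemma**: `b(p) = Σ x_i N_i` with loads `(L_i, m_i; N_i)` and `x_i ≥ 0` -/
theorem Load.chamber (h : Gram4 (al a)) {ι : Type*} (S : Finset ι) {p q : E3} {A κ : ℝ}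
    {x L m : ι → ℝ} {N : ι → Fin 3 → ℝ} (hA : 0 ≤ A) (hpq : ‖p - q‖ = 1)
    (hx : ∀ i ∈ S, 0 ≤ x i) (hL : ∀ i ∈ S, Load a q (L i) (m i) (N i))
    (hb : ∀ k, b3 a p k = ∑ i ∈ S, x i * N i k) :
    A * ∑ i ∈ S, x i * L i - max 0 (κ - A * (∑ i ∈ S, x i * m i - 1)) * ‖a 0 - q‖ ^ 2
      ≤ A * Qv a 0 p - κ * ‖a 0 - q‖ ^ 2 := by
  have l1 := Load.sum S (q := q) (L := fun i => x i * L i) (m := fun i => x i * m i)
    (M := fun i => fun k => x i * N i k) (fun i hi => (hL i hi).smul (hx i hi))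
  have key := Load.dens h (A := A) (κ := κ) hA hpq l1 (fun k => le_of_eq (hb k).symm)
  beta_reduce at key
  rw [← hb 0, ← hb 1, ← hb 2, b3_sum h, sub_self, sub_self, sub_self] at key
  have e4 : - bar a 0 p - (1 - bar a 0 p - ∑ i ∈ S, x i * m i) = ∑ i ∈ S, x i * m i - 1 := by
    ring
  rw [e4] at key
  linarith

/-- three nodes -/
theorem Load.chamber3 (h : Gram4 (al a)) {p q : E3} {A κ x1 x2 x3 L1 L2 L3 : ℝ}
    {N1 N2 N3 : Fin 3 → ℝ} (hA : 0 ≤ A) (hpq : ‖p - q‖ = 1) (h1 : 0 ≤ x1) (h2 : 0 ≤ x2)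
    (h3 : 0 ≤ x3) (l1 : Load a q L1 1 N1) (l2 : Load a q L2 1 N2) (l3 : Load a q L3 1 N3)
    (hb : ∀ k, b3 a p k = x1 * N1 k + x2 * N2 k + x3 * N3 k) :
    A * (x1 * L1 + x2 * L2 + x3 * L3) - max 0 (κ - A * (x1 + x2 + x3 - 1)) * ‖a 0 - q‖ ^ 2
      ≤ A * Qv a 0 p - κ * ‖a 0 - q‖ ^ 2 := by
  have key := Load.chamber h (S := (Finset.univ : Finset (Fin 3))) (x := ![x1, x2, x3])
    (L := ![L1, L2, L3]) (m := fun _ => 1) (N := ![N1, N2, N3]) (A := A) (κ := κ) hA hpq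
    (by
      intro i _
      fin_cases i
      · exact h1
      · exact h2
      · exact h3)
    (by
      intro i _
      fin_cases i
      · exact l1
      · exact l2
      · exact l3)
    (by
      intro k
      rw [Fin.sum_univ_three]
      exact hb k)
  rw [Fin.sum_univ_three, Fin.sum_univ_three] at key
  have e : (x1 + x2 + x3 : ℝ) = x1 * 1 + x2 * 1 + x3 * 1 := by ring
  rw [e]
  exact key

/-- **chamber inside of the contact cone**, columns `N k ≥ b(P_k)` (for instance the nonnegative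
parts), column `B ≥ b(y)` of the loss point; exact coordinates `x`, `u` -/
theorem cone_load (h : Gram4 (al a)) (ha : ∀ i j, i ≠ j → dist (a i) (a j) = 1)
    {z : Fin 3 → E3} (hC : C0 a K z) (hd : ∀ x ∈ K, ∀ y ∈ K, ‖x - y‖ ≤ 1)
    (hp : ∀ x ∈ K, Pl a x) {p q y : E3} {A κ α : ℝ} {x u B : Fin 3 → ℝ} {N : Fin 3 → Fin 3 → ℝ}
    (hA : 0 ≤ A) (hα : 0 ≤ α) (hy : y ∈ K) (hq : q ∈ K) (hpq : ‖p - q‖ = 1)
    (hN : ∀ k m, b3 a (PC a z k) m ≤ N k m) (hB : ∀ m, b3 a y m ≤ B m)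
    (hx : ∀ m, b3 a p m = ∑ k, x k * N k m) (hu : ∀ m, B m = ∑ k, u k * N k m)
    (hξ : ∀ k, 0 ≤ x k - α * u k) :
    A * (α * Qv a 0 y + ∑ k, (x k - α * u k) * ‖z k‖ ^ 2)
      - max 0 (κ - A * (α + ∑ k, (x k - α * u k) - 1)) * ‖a 0 - q‖ ^ 2
      ≤ A * Qv a 0 p - κ * ‖a 0 - q‖ ^ 2 := by
  have hP : ∀ k, PC a z k ∈ K := by
    intro k
    fin_cases k
    · exact hC.c1.mem2
    · exact hC.c2.mem2
    · exact hC.c3.mem2
  have hQ : ∀ k, Qv a 0 (PC a z k) = ‖z k‖ ^ 2 := by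
    intro k
    fin_cases k
    · exact hC.c1.Qv_eq (ha 0 1 (by decide))
    · exact hC.c2.Qv_eq (ha 0 2 (by decide))
    · exact hC.c3.Qv_eq (ha 0 3 (by decide))
  have l0 := (Load.pt h (hd _ hy _ hq) (hp _ hq) hB).smul hα
  have l1 := Load.sum (S := Finset.univ) (q := q) (L := fun k => (x k - α * u k) * ‖z k‖ ^ 2)
    (m := fun k => (x k - α * u k) * 1) (M := fun k => fun m => (x k - α * u k) * N k m)
    (fun k _ => by
      have := (Load.pt h (hd _ (hP k) _ hq) (hp _ hq) (hN k)).smul (hξ k)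
      rw [hQ k] at this
      exact this)
  have l2 := l0.add l1
  have e : ∀ m, α * B m + ∑ k, (x k - α * u k) * N k m = b3 a p m := by
    intro m
    rw [hx m, hu m, Finset.mul_sum, ← Finset.sum_add_distrib]
    exact Finset.sum_congr rfl fun k _ => by ring
  have key := Load.dens h (A := A) (κ := κ) hA hpq l2 (fun m => le_of_eq (e m))
  have e0 := e 0
  have e1 := e 1
  have e2 := e 2
  beta_reduce at key
  rw [e0, e1, e2, b3_sum h, sub_self, sub_self, sub_self] at key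
  have e3 : ∑ k, (x k - α * u k) * 1 = ∑ k, (x k - α * u k) :=
    Finset.sum_congr rfl fun k _ => by ring
  rw [e3] at key
  have e4 : - bar a 0 p - (1 - bar a 0 p - (α * 1 + ∑ k, (x k - α * u k))) =
      α + ∑ k, (x k - α * u k) - 1 := by ring
  rw [e4] at key
  linarith

end Pool.Agent.Helper52.MEI
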