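import Pool.Agent.Helper93.MEI.Side
import Pool.Agent.Helper82.CW.Fin

/-!
# Contact points of a placed body

For `i ≠ j` there is `z` orthogonal to `a i - a j` with `a i - z`, `a j - z` in the body.
-/

set_option autoImplicit false

namespace Pool.Agent.Helper52.MEI

open Set Metric Helper80.CW Helper82.CW Helper14.CW Helper93.MEI
open scoped RealInnerProductSpace

variable {a : Fin 4 → E3} {K : Set E3}

/-- a contact vector of the pair `i, j` -/
structure Ct (a : Fin 4 → E3) (K : Set E3) (i j : Fin 4) (z : E3) : Prop where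
  perp : ⟪z, a i - a j⟫ = 0
  mem1 : a i - z ∈ K
  mem2 : a j - z ∈ K

theorem Ct.symm {i j : Fin 4} {z : E3} (h : Ct a K i j z) : Ct a K j i z :=
  ⟨by rw [← neg_sub, inner_neg_right, h.perp, neg_zero], h.mem2, h.mem1⟩

/-- **existence of the contact vectors** -/
theorem contact_exists (hK : IsCompact K) (hw : Width1 K)
    (ha : ∀ i j, i ≠ j → dist (a i) (a j) = 1)
    (hs : ∀ i j, i ≠ j → supp K (a i - a j) = ⟪a i, a i - a j⟫) {i j : Fin 4} (hij : i ≠ j) :
    ∃ z, Ct a K i j z := by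
  have hne := hw.nonempty
  have hn : ‖a i - a j‖ = 1 := by rw [← dist_eq_norm]; exact ha i j hij
  obtain ⟨x, hx, h1⟩ := supp_attained hK hne (a i - a j)
  obtain ⟨y, hy, h2⟩ := supp_attained hK hne (-(a i - a j))
  have h3 := supp_width hK hw (a i - a j)
  rw [hn] at h3
  rw [hs i j hij] at h1 h3
  rw [inner_neg_right] at h2
  have hd := diam_le hK hw x hx y hy
  rw [dist_eq_norm] at hd
  have h4 : ⟪x - y, a i - a j⟫ = 1 := by
    rw [inner_sub_left]
    linarith
  have h5 : ‖(x - y) - (a i - a j)‖ ^ 2 ≤ 0 := by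
    rw [norm_sub_sq_real, h4, hn]
    have := norm_nonneg (x - y)
    nlinarith
  have h6 : x - y = a i - a j := by
    have h7 : ‖(x - y) - (a i - a j)‖ = 0 := by
      have := norm_nonneg ((x - y) - (a i - a j))
      nlinarith
    exact sub_eq_zero.1 (norm_eq_zero.1 h7)
  refine ⟨a i - x, ?_, ?_, ?_⟩
  · rw [inner_sub_left]
    linarith
  · rw [sub_sub_cancel]
    exact hx
  · have : a j - (a i - x) = y := by
      have h8 : y = x - (a i - a j) := by rw [← h6]; abel
      rw [h8]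
      abel
    rw [this]
    exact hy

/-- all contact vectors at once, symmetric in the pair -/
theorem contacts (hK : IsCompact K) (hw : Width1 K) (ha : ∀ i j, i ≠ j → dist (a i) (a j) = 1)
    (hs : ∀ i j, i ≠ j → supp K (a i - a j) = ⟪a i, a i - a j⟫) :
    ∃ z : Fin 4 → Fin 4 → E3, (∀ i j, z i j = z j i) ∧ ∀ i j, i ≠ j → Ct a K i j (z i j) := by
  have h : ∀ i j, ∃ z, i ≠ j → Ct a K i j z := by
    intro i j
    by_cases hij : i = j
    · exact ⟨0, fun h => absurd hij h⟩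
    · obtain ⟨z, hz⟩ := contact_exists hK hw ha hs hij
      exact ⟨z, fun _ => hz⟩
  choose z hz using h
  refine ⟨fun i j => if i ≤ j then z i j else z j i, ?_, ?_⟩
  · intro i j
    by_cases h1 : i ≤ j
    · by_cases h2 : j ≤ i
      · have := le_antisymm h1 h2
        subst this
        rfl
      · simp only [if_pos h1, if_neg h2]
    · have h2 : j ≤ i := (le_total i j).resolve_left h1
      simp only [if_neg h1, if_pos h2]
  · intro i j hij
    by_cases h1 : i ≤ j
    · simp only [if_pos h1]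
      exact hz i j hij
    · simp only [if_neg h1]
      exact (hz j i hij.symm).symm

/-- **coupling (W)** -/
theorem Ct.coupling {i j : Fin 4} {z : E3} (hz : Ct a K i j z) (hn : dist (a i) (a j) = 1)
    (hd : ∀ x ∈ K, ∀ y ∈ K, ‖x - y‖ ≤ 1) {q : E3} (hq : q ∈ K) :
    ‖(a i - q) - z‖ ^ 2 ≤ 2 * yv a i j q := by
  have h1 := hd _ hz.mem2 _ hq
  have h2 : ‖a i - a j‖ = 1 := by rw [← dist_eq_norm]; exact hn
  have e : a j - z - q = ((a i - q) - z) - (a i - a j) := by abel
  rw [e] at h1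
  have h3 := norm_sub_sq_real ((a i - q) - z) (a i - a j)
  have h4 : ⟪(a i - q) - z, a i - a j⟫ = yv a i j q := by
    rw [inner_sub_left, hz.perp, sub_zero]
    rfl
  rw [h2, h4] at h3
  have h5 := norm_nonneg (a i - q - z - (a i - a j))
  nlinarith

/-- `Q_i` at the contact point near `a j` -/
theorem Ct.Qv_eq {i j : Fin 4} {z : E3} (hz : Ct a K i j z) (hn : dist (a i) (a j) = 1) :
    Qv a i (a j - z) = ‖z‖ ^ 2 := by
  have h2 : ‖a i - a j‖ = 1 := by rw [← dist_eq_norm]; exact hn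
  unfold Qv
  have e : a j - z - a i = -((a i - a j) + z) := by abel
  rw [e, norm_neg, norm_add_sq_real, h2, real_inner_comm, hz.perp]
  ring

/-- four distinct indices exhaust `Fin 4` -/
theorem four_sum (f : Fin 4 → ℝ) {i j k l : Fin 4} (hij : i ≠ j) (hik : i ≠ k) (hil : i ≠ l)
    (hjk : j ≠ k) (hjl : j ≠ l) (hkl : k ≠ l) : f 0 + f 1 + f 2 + f 3 = f i + f j + f k + f l := by
  have h : ∀ i j k l : Fin 4, i ≠ j → i ≠ k → i ≠ l → j ≠ k → j ≠ l → k ≠ l →
      (Finset.univ : Finset (Fin 4)) = {i, j, k, l} := by decide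
  have h1 := h i j k l hij hik hil hjk hjl hkl
  have h2 : ∑ m, f m = f i + f j + f k + f l := by
    rw [h1, Finset.sum_insert (by simp [hij, hik, hil]), Finset.sum_insert (by simp [hjk, hjl]),
      Finset.sum_insert (by simp [hkl]), Finset.sum_singleton]
    ring
  rw [← h2, Fin.sum_univ_four]

section
variable (g : Gram4 (al a))
include g

theorem bar_sub_vec (m j : Fin 4) (z : E3) :
    bar a m (a j - z) = (if m = j then 1 else 0) - 2 * ⟪al a m, z⟫ := by
  have h1 := bar_vertex g m j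
  rw [← h1]
  unfold bar
  have e : a j - z - cen a = (a j - cen a) - z := by abel
  rw [e, inner_sub_right]
  ring

/-- **coordinates of the contact point `a j - z`**: `y k = ⟪z, a i - a k⟫` -/
theorem Ct.bars {i j k l : Fin 4} {z : E3} (hz : Ct a K i j z) (hij : i ≠ j) (hik : i ≠ k)
    (hil : i ≠ l) (hjk : j ≠ k) (hjl : j ≠ l) (hkl : k ≠ l) :
    bar a i (a j - z) = -(⟪z, a i - a k⟫ + ⟪z, a i - a l⟫) / 2 ∧
    bar a j (a j - z) = 1 - (⟪z, a i - a k⟫ + ⟪z, a i - a l⟫) / 2 ∧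
    bar a k (a j - z) = (3 * ⟪z, a i - a k⟫ - ⟪z, a i - a l⟫) / 2 ∧
    bar a l (a j - z) = (3 * ⟪z, a i - a l⟫ - ⟪z, a i - a k⟫) / 2 := by
  have hs : ⟪al a i, z⟫ + ⟪al a j, z⟫ + ⟪al a k, z⟫ + ⟪al a l, z⟫ = 0 := by
    rw [← four_sum (fun m => ⟪al a m, z⟫) hij hik hil hjk hjl hkl]
    have h1 : ⟪al a 0 + al a 1 + al a 2 + al a 3, z⟫ = 0 := by rw [g.sum, inner_zero_left]
    rw [inner_add_left, inner_add_left, inner_add_left] at h1
    exact h1
  have e : ∀ m, ⟪z, a i - a m⟫ = ⟪al a i, z⟫ - ⟪al a m, z⟫ := by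
    intro m
    have e1 : a i - a m = al a i - al a m := by
      unfold al
      abel
    rw [e1, inner_sub_right, real_inner_comm, real_inner_comm z (al a m)]
  have hp := hz.perp
  rw [e] at hp
  rw [bar_sub_vec g, bar_sub_vec g, bar_sub_vec g, bar_sub_vec g, if_neg hij, if_pos rfl,
    if_neg hjk.symm, if_neg hjl.symm, e, e]
  refine ⟨?_, ?_, ?_, ?_⟩ <;> linarith

/-- the length of the contact vector -/
theorem Ct.norm_sq {i j k l : Fin 4} {z : E3} (hz : Ct a K i j z) (hij : i ≠ j) (hik : i ≠ k)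
    (hil : i ≠ l) (hjk : j ≠ k) (hjl : j ≠ l) (hkl : k ≠ l) :
    ‖z‖ ^ 2 = 3 / 2 * (⟪z, a i - a k⟫ ^ 2 + ⟪z, a i - a l⟫ ^ 2) -
      ⟪z, a i - a k⟫ * ⟪z, a i - a l⟫ := by
  obtain ⟨h1, h2, h3, h4⟩ := hz.bars g hij hik hil hjk hjl hkl
  have h5 := norm_sub_sq_bar g (a j - z) (a j)
  have e : a j - z - a j = -z := by abel
  rw [e, norm_neg] at h5
  have h6 := four_sum (fun m => (bar a m (a j - z) - bar a m (a j)) ^ 2) hij hik hil hjk hjl hkl
  rw [h6, h1, h2, h3, h4, bar_vertex_ne g hij, bar_vertex_self g, bar_vertex_ne g hjk.symm,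
    bar_vertex_ne g hjl.symm] at h5
  rw [h5]
  ring

omit g in
/-- sign of the two free coordinates -/
theorem Ct.y_nonneg {i j k : Fin 4} {z : E3} (hz : Ct a K i j z) (hp : ∀ x ∈ K, Pl a x)
    (hik : i ≠ k) : 0 ≤ ⟪z, a i - a k⟫ := by
  have h1 := hp _ hz.mem1 i k hik
  rw [inner_sub_left] at h1
  linarith

end

end Pool.Agent.Helper52.MEI
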