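import Pool.Agent.Helper55.MEI.Fill2

/-!
# The contact plane form of the value of the face certificate

`h` is the linear function through the contact nodes: `h_j + ∑_k N_kj h_k = R_j`.  The value of the
exact filling is exactly `h·b - ∑_k r_k (S_k + h_k)`, `r` the residual; an extra load on a node with
coordinates `z` and value `L` adds exactly `L - h·z` times its mass.
-/

namespace Pool.Agent.Helper52.MEI

open Set MeasureTheory Pool.Agent.Helper55.Sx Pool.Agent.Helper55.Mass Pool.Agent.Helper55.Apex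
  Pool.Agent.Helper55.Fill

variable {N : Fin 3 → Fin 3 → ℝ}

/-- existence of the contact plane -/
theorem exists_plane (hN : ∀ k m, 0 ≤ N k m) {c : ℝ} (hc : c < 1) (hcol : ∀ m, nc N m ≤ c)
    (R : Fin 3 → ℝ) :
    ∃ h : Fin 3 → ℝ, ∀ j, h j + (N 0 j * h 0 + N 1 j * h 1 + N 2 j * h 2) = R j := by
  let f : (Fin 3 → ℝ) →ₗ[ℝ] (Fin 3 → ℝ) :=
    { toFun := fun h j => h j + (N 0 j * h 0 + N 1 j * h 1 + N 2 j * h 2)
      map_add' := fun x y => by
        funext j
        simp only [Pi.add_apply]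
        ring
      map_smul' := fun a x => by
        funext j
        simp only [Pi.smul_apply, smul_eq_mul, RingHom.id_apply]
        ring }
  have hinj : Function.Injective f := by
    rw [← LinearMap.ker_eq_bot, LinearMap.ker_eq_bot']
    intro h hh
    have e : ∀ j, h j = -(N 0 j * h 0 + N 1 j * h 1 + N 2 j * h 2) := fun j => by
      have := congrFun hh j
      change h j + (N 0 j * h 0 + N 1 j * h 1 + N 2 j * h 2) = 0 at this
      linarith
    obtain ⟨m, hm⟩ : ∃ m, ∀ k, |h k| ≤ |h m| := Finite.exists_max fun k => |h k|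
    have h0 := hm 0
    have h1 := hm 1
    have h2 := hm 2
    have hb : |h m| ≤ c * |h m| := by
      have g0 := mul_le_mul_of_nonneg_left h0 (hN 0 m)
      have g1 := mul_le_mul_of_nonneg_left h1 (hN 1 m)
      have g2 := mul_le_mul_of_nonneg_left h2 (hN 2 m)
      have g3 := mul_le_mul_of_nonneg_right (hcol m) (abs_nonneg (h m))
      unfold nc at g3
      calc |h m| = |N 0 m * h 0 + N 1 m * h 1 + N 2 m * h 2| := by
            conv_lhs => rw [e m]
            rw [abs_neg]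
        _ ≤ |N 0 m * h 0| + |N 1 m * h 1| + |N 2 m * h 2| :=
            (abs_add_le _ _).trans (add_le_add_left (abs_add_le _ _) _)
        _ = N 0 m * |h 0| + N 1 m * |h 1| + N 2 m * |h 2| := by
            rw [abs_mul, abs_mul, abs_mul, abs_of_nonneg (hN 0 m), abs_of_nonneg (hN 1 m),
              abs_of_nonneg (hN 2 m)]
        _ ≤ c * |h m| := by linarith
    have hz : |h m| = 0 := by
      have hp := abs_nonneg (h m)
      nlinarith
    funext k
    have := hm k
    rw [hz] at this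
    exact abs_eq_zero.1 (le_antisymm this (abs_nonneg _))
  obtain ⟨h, hh⟩ := (LinearMap.injective_iff_surjective.1 hinj) R
  exact ⟨h, fun j => congrFun hh j⟩

/-- **the exact value** in the contact plane form (pointwise) -/
theorem plane_ptw {ι : Type*} [Fintype ι] {al : ι → ℝ × ℝ → ℝ} {ζ : ι → Fin 3 → ℝ} {L : ι → ℝ}
    {R S h : Fin 3 → ℝ} (hh : ∀ j, h j + (N 0 j * h 0 + N 1 j * h 1 + N 2 j * h 2) = R j)
    (t : ℝ × ℝ) :
    ∑ m, al m t * L m + (xe N al ζ t 0 * R 0 + xe N al ζ t 1 * R 1 + xe N al ζ t 2 * R 2)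
        - (rr N (vv t) 0 * S 0 + rr N (vv t) 1 * S 1 + rr N (vv t) 2 * S 2)
      = ∑ m, (L m - ((ζ m 0 + LN N (ζ m) 0) * h 0 + (ζ m 1 + LN N (ζ m) 1) * h 1
          + (ζ m 2 + LN N (ζ m) 2) * h 2)) * al m t
        + (h 0 * vv t 0 + h 1 * vv t 1 + h 2 * vv t 2)
        - (rr N (vv t) 0 * (S 0 + h 0) + rr N (vv t) 1 * (S 1 + h 1)
          + rr N (vv t) 2 * (S 2 + h 2)) := by
  have b0 := xe_bal (N := N) al ζ t 0
  have b1 := xe_bal (N := N) al ζ t 1
  have b2 := xe_bal (N := N) al ζ t 2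
  have e : ∑ m, (L m - ((ζ m 0 + LN N (ζ m) 0) * h 0 + (ζ m 1 + LN N (ζ m) 1) * h 1
          + (ζ m 2 + LN N (ζ m) 2) * h 2)) * al m t
      = ∑ m, al m t * L m - (h 0 * ∑ m, al m t * (ζ m 0 + LN N (ζ m) 0)
        + h 1 * ∑ m, al m t * (ζ m 1 + LN N (ζ m) 1)
        + h 2 * ∑ m, al m t * (ζ m 2 + LN N (ζ m) 2)) := by
    rw [Finset.mul_sum, Finset.mul_sum, Finset.mul_sum, ← Finset.sum_add_distrib,
      ← Finset.sum_add_distrib, ← Finset.sum_sub_distrib]
    exact Finset.sum_congr rfl fun m _ => by ring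
  have h0 := hh 0
  have h1 := hh 1
  have h2 := hh 2
  rw [e, ← h0, ← h1, ← h2]
  have l0 : LN N (xe N al ζ t) 0
      = N 0 0 * xe N al ζ t 0 + N 0 1 * xe N al ζ t 1 + N 0 2 * xe N al ζ t 2 := rfl
  have l1 : LN N (xe N al ζ t) 1
      = N 1 0 * xe N al ζ t 0 + N 1 1 * xe N al ζ t 1 + N 1 2 * xe N al ζ t 2 := rfl
  have l2 : LN N (xe N al ζ t) 2
      = N 2 0 * xe N al ζ t 0 + N 2 1 * xe N al ζ t 1 + N 2 2 * xe N al ζ t 2 := rfl
  linear_combination (h 0) * b0 + (h 1) * b1 + (h 2) * b2 - (h 0) * l0 - (h 1) * l1 - (h 2) * l2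

/-- **value of the certificate, contact plane form**: `L m` = value of the extra node `m` (contact
coordinates `ζ m`), `R j` = value of the contact point `j`, `S k` = cap of the corner `k`,
`h` = contact plane -/
theorem plane_value {ι : Type*} [Fintype ι] (hN : ∀ k m, 0 ≤ N k m) (hd : ∀ k, N k k = 0) {c : ℝ}
    (hc : c < 1) (hcol : ∀ m, nc N m ≤ c) {al : ι → ℝ × ℝ → ℝ}
    (hal : ∀ m, IntegrableOn (fun t => al m t / mm t ^ 2) Sim) {ζ : ι → Fin 3 → ℝ} {L : ι → ℝ}
    {R S h : Fin 3 → ℝ} (hh : ∀ j, h j + (N 0 j * h 0 + N 1 j * h 1 + N 2 j * h 2) = R j) :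
    ∑ m, (L m - ((ζ m 0 + LN N (ζ m) 0) * h 0 + (ζ m 1 + LN N (ζ m) 1) * h 1
          + (ζ m 2 + LN N (ζ m) 2) * h 2)) * Pool.Agent.Helper55.Mass.Id (al m)
      + B0 * (h 0 + h 1 + h 2)
      - (wc N 0 1 2 * max (S 0 + h 0) 0 + wc N 1 0 2 * max (S 1 + h 1) 0
        + wc N 2 0 1 * max (S 2 + h 2) 0)
      ≤ Pool.Agent.Helper55.Mass.Id fun t => ∑ m, al m t * L m
        + (xe N al ζ t 0 * R 0 + xe N al ζ t 1 * R 1 + xe N al ζ t 2 * R 2)
        - (rr N (vv t) 0 * S 0 + rr N (vv t) 1 * S 1 + rr N (vv t) 2 * S 2) := by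
  have r0 := rr_int hN hc hcol (0 : Fin 3)
  have r1 := rr_int hN hc hcol (1 : Fin 3)
  have r2 := rr_int hN hc hcol (2 : Fin 3)
  have n0 := rr_mass hN hd hc hcol (j := 0) (l := 1) (k := 2) (by decide) (by decide) (by decide)
  have n1 := rr_mass hN hd hc hcol (j := 1) (l := 0) (k := 2) (by decide) (by decide) (by decide)
  have n2 := rr_mass hN hd hc hcol (j := 2) (l := 0) (k := 1) (by decide) (by decide) (by decide)
  have v0 := vv_int 0
  have v1 := vv_int 1
  have v2 := vv_int 2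
  set lm : ι → ℝ := fun m => L m - ((ζ m 0 + LN N (ζ m) 0) * h 0 + (ζ m 1 + LN N (ζ m) 1) * h 1
          + (ζ m 2 + LN N (ζ m) 2) * h 2) with hlm
  have hE : ∀ t : ℝ × ℝ, (∑ m, al m t * L m
        + (xe N al ζ t 0 * R 0 + xe N al ζ t 1 * R 1 + xe N al ζ t 2 * R 2)
        - (rr N (vv t) 0 * S 0 + rr N (vv t) 1 * S 1 + rr N (vv t) 2 * S 2)) / mm t ^ 2
      = (∑ m, lm m * (al m t / mm t ^ 2))
        + (h 0 * (vv t 0 / mm t ^ 2) + h 1 * (vv t 1 / mm t ^ 2)
          + h 2 * (vv t 2 / mm t ^ 2))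
        - ((S 0 + h 0) * (rr N (vv t) 0 / mm t ^ 2) + (S 1 + h 1) * (rr N (vv t) 1 / mm t ^ 2)
          + (S 2 + h 2) * (rr N (vv t) 2 / mm t ^ 2)) := by
    intro t
    have e1 : ∑ m, lm m * (al m t / mm t ^ 2) = (∑ m, lm m * al m t) / mm t ^ 2 := by
      rw [Finset.sum_div]
      exact Finset.sum_congr rfl fun m _ => by ring
    rw [plane_ptw (N := N) (al := al) (ζ := ζ) (L := L) (S := S) hh t, e1]
    ring
  have iA : IntegrableOn (fun t => ∑ m, lm m * (al m t / mm t ^ 2)) Sim :=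
    integrable_finsetSum _ fun m _ => (hal m).const_mul _
  have iV : IntegrableOn (fun t => h 0 * (vv t 0 / mm t ^ 2) + h 1 * (vv t 1 / mm t ^ 2)
      + h 2 * (vv t 2 / mm t ^ 2)) Sim :=
    ((v0.const_mul _).add (v1.const_mul _)).add (v2.const_mul _)
  have iS : IntegrableOn (fun t => (S 0 + h 0) * (rr N (vv t) 0 / mm t ^ 2)
      + (S 1 + h 1) * (rr N (vv t) 1 / mm t ^ 2) + (S 2 + h 2) * (rr N (vv t) 2 / mm t ^ 2)) Sim :=
    ((r0.const_mul _).add (r1.const_mul _)).add (r2.const_mul _)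
  have hI : Pool.Agent.Helper55.Mass.Id (fun t => ∑ m, al m t * L m
        + (xe N al ζ t 0 * R 0 + xe N al ζ t 1 * R 1 + xe N al ζ t 2 * R 2)
        - (rr N (vv t) 0 * S 0 + rr N (vv t) 1 * S 1 + rr N (vv t) 2 * S 2))
      = ∑ m, lm m * Pool.Agent.Helper55.Mass.Id (al m)
        + B0 * (h 0 + h 1 + h 2)
        - ((S 0 + h 0) * Pool.Agent.Helper55.Mass.Id (fun t => rr N (vv t) 0)
          + (S 1 + h 1) * Pool.Agent.Helper55.Mass.Id (fun t => rr N (vv t) 1)
          + (S 2 + h 2) * Pool.Agent.Helper55.Mass.Id (fun t => rr N (vv t) 2)) := by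
    have q0 := B0_eq 0
    have q1 := B0_eq 1
    have q2 := B0_eq 2
    unfold Pool.Agent.Helper55.Mass.Id
    simp only [hE]
    have k1 := integral_sub (iA.add iV) iS
    have k2 := integral_add iA iV
    have k3 := integral_add ((v0.const_mul (h 0)).add (v1.const_mul (h 1))) (v2.const_mul (h 2))
    have k4 := integral_add (v0.const_mul (h 0)) (v1.const_mul (h 1))
    have k5 := integral_add ((r0.const_mul (S 0 + h 0)).add (r1.const_mul (S 1 + h 1)))
      (r2.const_mul (S 2 + h 2))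
    have k6 := integral_add (r0.const_mul (S 0 + h 0)) (r1.const_mul (S 1 + h 1))
    have k7 : ∫ t in Sim, ∑ m, lm m * (al m t / mm t ^ 2)
        = ∑ m, lm m * ∫ t in Sim, al m t / mm t ^ 2 := by
      rw [integral_finsetSum _ fun m _ => (hal m).const_mul _]
      exact Finset.sum_congr rfl fun m _ => integral_const_mul _ _
    simp only [Pi.add_apply] at k1 k3 k5
    rw [k1, k2, k3, k4, k5, k6, k7]
    simp only [integral_const_mul]
    have k8 : ∑ m, lm m * (1 / √2 * ∫ t in Sim, al m t / mm t ^ 2)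
        = 1 / √2 * ∑ m, lm m * ∫ t in Sim, al m t / mm t ^ 2 := by
      rw [Finset.mul_sum]
      exact Finset.sum_congr rfl fun m _ => by ring
    rw [k8]
    linear_combination (h 0) * q0 + (h 1) * q1 + (h 2) * q2
  rw [hI]
  have hrn : ∀ k, 0 ≤ Pool.Agent.Helper55.Mass.Id (fun t => rr N (vv t) k) := fun k => by
    unfold Pool.Agent.Helper55.Mass.Id
    refine mul_nonneg (by positivity) (setIntegral_nonneg Sim_meas fun t ht => ?_)
    exact div_nonneg (rr_nonneg hN hc hcol (fun k => vv_nonneg ht k) k) (by positivity)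
  have key : ∀ k (w : ℝ), Pool.Agent.Helper55.Mass.Id (fun t => rr N (vv t) k) ≤ w →
      (S k + h k) * Pool.Agent.Helper55.Mass.Id (fun t => rr N (vv t) k)
        ≤ w * max (S k + h k) 0 := fun k w hw => by
    have h1 := mul_le_mul_of_nonneg_right (le_max_left (S k + h k) 0) (hrn k)
    have h2 := mul_le_mul_of_nonneg_right hw (le_max_right (S k + h k) 0)
    linarith
  have p0 := key 0 _ n0
  have p1 := key 1 _ n1
  have p2 := key 2 _ n2
  linarith

/-- lower bound of the sum of the contact plane -/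
theorem plane_sum (hN : ∀ k m, 0 ≤ N k m) {c : ℝ} (hc : c < 1)
    (hrow : ∀ k, N k 0 + N k 1 + N k 2 ≤ c) {R h : Fin 3 → ℝ} (hR : ∀ k, 0 ≤ R k)
    (hh : ∀ j, h j + (N 0 j * h 0 + N 1 j * h 1 + N 2 j * h 2) = R j) :
    (1 - (N 0 0 + N 0 1 + N 0 2)) * R 0 + (1 - (N 1 0 + N 1 1 + N 1 2)) * R 1
      + (1 - (N 2 0 + N 2 1 + N 2 2)) * R 2 ≤ h 0 + h 1 + h 2 := by
  -- the vector `d` with `d = N (1 - d)`
  obtain ⟨d, hd⟩ := exists_plane (N := fun k m => N m k) (fun k m => hN m k) hc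
    (fun m => by unfold nc; exact hrow m) (fun k => N k 0 + N k 1 + N k 2)
  have e : ∀ k, d k = N k 0 * (1 - d 0) + N k 1 * (1 - d 1) + N k 2 * (1 - d 2) := fun k => by
    have := hd k
    linarith
  obtain ⟨m, hm⟩ : ∃ m, ∀ k, d k ≤ d m := Finite.exists_max fun k => d k
  obtain ⟨i, hi⟩ : ∃ i, ∀ k, d i ≤ d k := Finite.exists_min fun k => d k
  have hm1 : d m ≤ 1 := by
    by_contra hlt
    rw [not_le] at hlt
    have hm' : d m ≤ (N m 0 + N m 1 + N m 2) * (1 - d i) := by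
      have g0 := mul_le_mul_of_nonneg_left (hi 0) (hN m 0)
      have g1 := mul_le_mul_of_nonneg_left (hi 1) (hN m 1)
      have g2 := mul_le_mul_of_nonneg_left (hi 2) (hN m 2)
      have := e m
      linarith
    have hi' : (N i 0 + N i 1 + N i 2) * (1 - d m) ≤ d i := by
      have g0 := mul_le_mul_of_nonneg_left (hm 0) (hN i 0)
      have g1 := mul_le_mul_of_nonneg_left (hm 1) (hN i 1)
      have g2 := mul_le_mul_of_nonneg_left (hm 2) (hN i 2)
      have := e i
      linarith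
    have r1 := hrow m
    have r2 := hrow i
    have s1 : 0 ≤ N m 0 + N m 1 + N m 2 := add_nonneg (add_nonneg (hN _ _) (hN _ _)) (hN _ _)
    have s2 : 0 ≤ N i 0 + N i 1 + N i 2 := add_nonneg (add_nonneg (hN _ _) (hN _ _)) (hN _ _)
    set ρ := N m 0 + N m 1 + N m 2
    set τ := N i 0 + N i 1 + N i 2
    have t1 : 0 < 1 - d i := by
      by_contra hh'
      rw [not_lt] at hh'
      have := mul_nonneg s1 (neg_nonneg.2 hh')
      linarith
    have t2 : d m ≤ c * (1 - d i) := hm'.trans (mul_le_mul_of_nonneg_right r1 t1.le)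
    have t3 : c * (1 - d m) ≤ d i := by
      have := mul_le_mul_of_nonneg_right r2 (sub_nonneg.2 hlt.le)
      linarith
    have hc0 : 0 ≤ c := s1.trans r1
    nlinarith
  have hd1 : ∀ k, d k ≤ 1 := fun k => (hm k).trans hm1
  have hd0 : ∀ k, 0 ≤ d k := fun k => by
    rw [e k]
    exact add_nonneg (add_nonneg (mul_nonneg (hN _ _) (sub_nonneg.2 (hd1 0)))
      (mul_nonneg (hN _ _) (sub_nonneg.2 (hd1 1)))) (mul_nonneg (hN _ _) (sub_nonneg.2 (hd1 2)))
  have hle : ∀ k, d k ≤ N k 0 + N k 1 + N k 2 := fun k => by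
    have g0 := mul_nonneg (hN k 0) (hd0 0)
    have g1 := mul_nonneg (hN k 1) (hd0 1)
    have g2 := mul_nonneg (hN k 2) (hd0 2)
    have := e k
    linarith
  have hs : h 0 + h 1 + h 2 = (1 - d 0) * R 0 + (1 - d 1) * R 1 + (1 - d 2) * R 2 := by
    rw [← hh 0, ← hh 1, ← hh 2]
    linear_combination (h 0) * hd 0 + (h 1) * hd 1 + (h 2) * hd 2
  have p0 := mul_le_mul_of_nonneg_right (hle 0) (hR 0)
  have p1 := mul_le_mul_of_nonneg_right (hle 1) (hR 1)
  have p2 := mul_le_mul_of_nonneg_right (hle 2) (hR 2)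
  rw [hs]
  linarith

end Pool.Agent.Helper52.MEI
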