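import Pool.Agent.Helper22.MEI.ThN
import Pool.Agent.Helper31.SR.IntC

/-!
# The third column of the arcs, numbers at the vertices

Project MEI. If the third column `D` of an arc is at most `∑ lam v * δ v` (a bound which is convex
in the state) and `δ v ^ 2 ≤ dE v * dm v` at every vertex, then `dE = ∑ lam v * dE v` and
`dm = ∑ lam v * dm v` are admissible: `D ^ 2 ≤ dE * dm`. Instances: the losses without coupling
(`MA_third'`) and with coupling (`MA_third3`).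
-/

set_option autoImplicit false

namespace Pool.Agent.Helper52.MEI.Third

open Set Metric MeasureTheory Helper80.CW Helper14.CW Helper14.MEI2
open Helper93.MEI Helper37.MEI Helper41.MEI Helper78.MEI Helper49.Cpl Helper22.Cpd
open Pool.Agent.Helper31.SR Pool.Agent.Helper31.SR.IntC
open scoped RealInnerProductSpace Real

/-- **Cauchy at the vertices** -/
theorem third_cs {ι : Type*} [Fintype ι] {lam δ dE dm : ι → ℝ} (h0 : ∀ v, 0 ≤ lam v)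
    (hE : ∀ v, 0 ≤ dE v) (hm : ∀ v, 0 ≤ dm v)
    (h : ∀ v, δ v ^ 2 ≤ dE v * dm v) {D : ℝ} (hD0 : 0 ≤ D) (hD : D ≤ ∑ v, lam v * δ v) :
    D ^ 2 ≤ (∑ v, lam v * dE v) * ∑ v, lam v * dm v := by
  have h1 : ∀ v, lam v * δ v ≤ lam v * √(dE v * dm v) := fun v =>
    mul_le_mul_of_nonneg_left (Real.le_sqrt_of_sq_le (h v)) (h0 v)
  have h2 : D ≤ ∑ v, lam v * √(dE v * dm v) :=
    hD.trans (Finset.sum_le_sum fun v _ => h1 v)
  have h3 : D ^ 2 ≤ (∑ v, lam v * √(dE v * dm v)) ^ 2 := pow_le_pow_left₀ hD0 h2 2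
  refine h3.trans (Finset.sum_sq_le_sum_mul_sum_of_sq_le_mul Finset.univ
    (fun v _ => mul_nonneg (h0 v) (hE v)) (fun v _ => mul_nonneg (h0 v) (hm v)) fun v _ => ?_)
  rw [mul_pow, Real.sq_sqrt (mul_nonneg (hE v) (hm v))]
  exact le_of_eq (by ring)

/-- the truncated square of the root is above its tangents -/
theorem tan_pp {c r v : ℝ} (hc : 0 ≤ c) (hr : c ≤ r) (hr0 : 0 < r) (hv : 0 ≤ v) :
    (r - c) ^ 2 + (1 - c / r) * (v ^ 2 - r ^ 2) ≤ pp (v - c) ^ 2 := by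
  obtain ⟨k, hk⟩ : ∃ k, k = c / r := ⟨_, rfl⟩
  have hcr : c = k * r := by rw [hk, div_mul_cancel₀ c hr0.ne']
  have hk0 : 0 ≤ k := by rw [hk]; exact div_nonneg hc hr0.le
  have hk1 : k ≤ 1 := by
    rw [hk, div_le_one hr0]
    exact hr
  rw [← hk]
  rcases le_total c v with h | h
  · have e : pp (v - c) = v - c := max_eq_left (by linarith)
    rw [e]
    have h2 : 0 ≤ k * (v - r) ^ 2 := mul_nonneg hk0 (sq_nonneg _)
    have h3 : (v - c) ^ 2 - ((r - c) ^ 2 + (1 - k) * (v ^ 2 - r ^ 2)) = k * (v - r) ^ 2 := by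
      rw [hcr]
      ring
    linarith
  · have e : pp (v - c) = 0 := max_eq_right (by linarith)
    rw [e]
    have h2 : (1 - k) * (v ^ 2 - r ^ 2) ≤ (1 - k) * (c ^ 2 - r ^ 2) :=
      mul_le_mul_of_nonneg_left (by nlinarith) (by linarith)
    have h3 : (r - c) ^ 2 + (1 - k) * (c ^ 2 - r ^ 2) = -(k * (r - c) ^ 2) := by
      rw [hcr]
      ring
    have h4 : 0 ≤ k * (r - c) ^ 2 := mul_nonneg hk0 (sq_nonneg _)
    rw [zero_pow (by norm_num)]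
    linarith

/-- **convexity of the third column without coupling** -/
theorem pp_conv {ι : Type*} [Fintype ι] {lam V : ι → ℝ} (h0 : ∀ v, 0 ≤ lam v)
    (h1 : ∑ v, lam v = 1) (hV : ∀ v, 0 ≤ V v) {c : ℝ} (hc : 0 ≤ c) {S : ℝ}
    (hS : S = ∑ v, lam v * V v) :
    pp (√S - c) ^ 2 ≤ ∑ v, lam v * pp (√(V v) - c) ^ 2 := by
  rcases le_total √S c with h | h
  · have e : pp (√S - c) = 0 := max_eq_right (by linarith)
    rw [e, zero_pow (by norm_num)]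
    exact Finset.sum_nonneg fun v _ => mul_nonneg (h0 v) (sq_nonneg _)
  · have e : pp (√S - c) = √S - c := max_eq_left (by linarith)
    have hS0 : 0 ≤ S := by
      rw [hS]
      exact Finset.sum_nonneg fun v _ => mul_nonneg (h0 v) (hV v)
    rcases (Real.sqrt_nonneg S).eq_or_lt with h2 | h2
    · rw [e, ← h2]
      have h3 : c = 0 := le_antisymm (by rw [h2]; exact h) hc
      rw [h3, sub_zero, zero_pow (by norm_num)]
      exact Finset.sum_nonneg fun v _ => mul_nonneg (h0 v) (sq_nonneg _)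
    · rw [e]
      have h3 : ∀ v, lam v * ((√S - c) ^ 2 + (1 - c / √S) * (V v - S)) ≤
          lam v * pp (√(V v) - c) ^ 2 := by
        intro v
        have h4 := tan_pp hc h h2 (Real.sqrt_nonneg (V v))
        rw [Real.sq_sqrt (hV v), Real.sq_sqrt hS0] at h4
        exact mul_le_mul_of_nonneg_left h4 (h0 v)
      have h5 := Finset.sum_le_sum fun v (_ : v ∈ Finset.univ) => h3 v
      have h6 : ∑ v, lam v * ((√S - c) ^ 2 + (1 - c / √S) * (V v - S)) = (√S - c) ^ 2 := by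
        have h7 : ∀ v, lam v * ((√S - c) ^ 2 + (1 - c / √S) * (V v - S)) =
            lam v * ((√S - c) ^ 2 - (1 - c / √S) * S) + (1 - c / √S) * (lam v * V v) :=
          fun v => by ring
        rw [Finset.sum_congr rfl fun v _ => h7 v, Finset.sum_add_distrib, ← Finset.sum_mul,
          ← Finset.mul_sum, h1, ← hS]
        ring
      rw [← h6]
      exact h5

section
variable {a : Fin 4 → E3} {K : Set E3} {σ : Measure (E3 × E3)} {φ : ℝ → ℝ}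
  {κ : Fin 3 → Bool → Bool → ℝ} {S : Fin 4 → ℝ}

/-- **with coupling**: `dE`, `dm` from the vertices of a piece where the own level is at most `X` -/
theorem third_l3 [IsFiniteMeasure σ] (hφ : Prof φ) (ha : ∀ i j, i ≠ j → dist (a i) (a j) = 1)
    {k1 X ω t : ℝ} (hk1 : k1 ≤ 1) (h0 : ∀ m e i, 0 ≤ κ m e i) (h1 : ∀ m e i, κ m e i ≤ k1)
    (hK : IsCompact K) (hσ : ∀ᵐ z ∂σ, z.1 ∈ K ∧ z.2 ∈ K) (hp : ∀ x ∈ K, Pl a x)
    (hT : ThOK φ 0 k1 X ω (t * X)) (ht : 0 ≤ t) (hω : 0 < ω) (hω1 : ω ≤ 3 / 8)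
    (hX1 : X ≤ 8 / 3 * ω ^ 2) (τ : Equiv.Perm (Fin 4)) {W : ℝ} (hW0 : 0 ≤ W)
    (hSX : S (τ 0) ≤ X) (hQ : ∀ x ∈ K, Qv a (τ 0) x ≤ S (τ 0))
    (hW : ∀ m e i, ∫ z in EE a m e, wt (ap a m e) i z.1 ∂σ ≤ W)
    {ι : Type} [Fintype ι] {V : ι → Fin 4 → ℝ} {lam : ι → ℝ} (hD : Dc V S lam)
    (hV : ∀ v i, 0 ≤ V v i) {dE dm : ι → ℝ} (hE : ∀ v, 0 ≤ dE v) (hm : ∀ v, 0 ≤ dm v)
    (h : ∀ v, (2 * t * V v (τ 0) * W) ^ 2 ≤ dE v * dm v) (p : Fin 3) :
    ∃ δ, MA σ a (l3 φ κ a) τ p p ≤ δ ∧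
      δ ^ 2 ≤ (∑ v, lam v * dE v) * ∑ v, lam v * dm v := by
  have e1 : S (τ 0) = ∑ v, lam v * V v (τ 0) := hD.eq (τ 0)
  have hS0 : 0 ≤ S (τ 0) := by
    rw [e1]
    exact Finset.sum_nonneg fun v _ => mul_nonneg (hD.nn v) (hV v _)
  refine ⟨2 * t * S (τ 0) * W, Helper22.ThN.MA_third3 hφ ha hk1 h0 h1 hK hσ hp hT ht hω hω1 hX1 τ
    hS0 hSX hQ hW p, third_cs (δ := fun v => 2 * t * V v (τ 0) * W) hD.nn hE hm h
    (mul_nonneg (mul_nonneg (mul_nonneg (by norm_num) ht) hS0) hW0) (le_of_eq ?_)⟩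
  rw [e1, Finset.mul_sum, Finset.sum_mul]
  exact Finset.sum_congr rfl fun v _ => by ring

/-- **without coupling**: the losses `l2` -/
theorem third_l2 [IsFiniteMeasure σ] (ha : ∀ i j, i ≠ j → dist (a i) (a j) = 1)
    (hK : IsCompact K) (hσ : ∀ᵐ z ∂σ, z.1 ∈ K ∧ z.2 ∈ K) (hp : ∀ x ∈ K, Pl a x)
    (τ : Equiv.Perm (Fin 4)) {W : ℝ} (hW0 : 0 ≤ W)
    (hSX : S (τ 0) ≤ 3 / 20) (hQ : ∀ x ∈ K, Qv a (τ 0) x ≤ S (τ 0))
    (hW : ∀ m e i, ∫ z in EE a m e, wt (ap a m e) i z.1 ∂σ ≤ W)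
    {ι : Type} [Fintype ι] {V : ι → Fin 4 → ℝ} {lam : ι → ℝ} (hD : Dc V S lam)
    (hV : ∀ v i, 0 ≤ V v i) {dE dm : ι → ℝ} (hE : ∀ v, 0 ≤ dE v) (hm : ∀ v, 0 ≤ dm v)
    (h : ∀ v, (16 / 9 * pp (√(V v (τ 0)) - 0.1623) ^ 2 * W) ^ 2 ≤ dE v * dm v) (p : Fin 3) :
    ∃ δ, MA σ a (l2 a) τ p p ≤ δ ∧
      δ ^ 2 ≤ (∑ v, lam v * dE v) * ∑ v, lam v * dm v := by
  have e1 : S (τ 0) = ∑ v, lam v * V v (τ 0) := hD.eq (τ 0)
  refine ⟨16 / 9 * pp (√(S (τ 0)) - 0.1623) ^ 2 * W, MA_third' ha hK hσ hp τ hSX hQ hW p,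
    third_cs (δ := fun v => 16 / 9 * pp (√(V v (τ 0)) - 0.1623) ^ 2 * W) hD.nn
    hE hm h (by positivity) ?_⟩
  have h1 := pp_conv (c := 0.1623) hD.nn hD.one (fun v => hV v (τ 0)) (by norm_num) e1
  have h2 := mul_le_mul_of_nonneg_right
    (mul_le_mul_of_nonneg_left h1 (show (0 : ℝ) ≤ 16 / 9 by norm_num)) hW0
  refine h2.trans (le_of_eq ?_)
  rw [Finset.mul_sum, Finset.sum_mul]
  exact Finset.sum_congr rfl fun v _ => by ring

end

end Pool.Agent.Helper52.MEI.Third
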