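import Pool.Agent.Helper52.MEI.ET
import Pool.Agent.Helper73.MEI.Star

/-!
# The tetrahedron part of the master inequality is nonnegative
-/

set_option autoImplicit false

namespace Pool.Agent.Helper52.MEI

open Set MeasureTheory Helper80.CW Helper14.CW Helper14.MEI2 Helper93.MEI
open Pool.Agent.Helper73.MEI (PM)
open scoped RealInnerProductSpace

variable {a : Fin 4 → E3} {K : Set E3} {σ : Measure (E3 × E3)} [IsFiniteMeasure σ]

/-- **row E_T** for a body with pair measure -/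
theorem ET_row (h : PM K σ) (ha : ∀ i j, i ≠ j → dist (a i) (a j) = 1) (hp : ∀ x ∈ K, Pl a x) :
    0.0428 * σ.real {z : E3 × E3 | z.1 ∈ T0 a} ≤
      ∫ z in {z : E3 × E3 | z.1 ∈ T0 a}, (⟪z.1 - cen a, z.1 - z.2⟫ - 1 / 4) ∂σ := by
  refine ET_ge (gram_of_dist ha) ?_ (h.integrable (G := fun y => y - cen a) (by fun_prop))
  filter_upwards [h.ae] with z hz
  exact ⟨hz.2.2.1, hp _ hz.2.1⟩

theorem ET_row0 (h : PM K σ) (ha : ∀ i j, i ≠ j → dist (a i) (a j) = 1) (hp : ∀ x ∈ K, Pl a x) :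
    0 ≤ ∫ z in {z : E3 × E3 | z.1 ∈ T0 a}, (⟪z.1 - cen a, z.1 - z.2⟫ - 1 / 4) ∂σ := by
  refine le_trans ?_ (ET_row h ha hp)
  have := measureReal_nonneg (μ := σ) (s := {z : E3 × E3 | z.1 ∈ T0 a})
  positivity

end Pool.Agent.Helper52.MEI
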