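import Pool.Agent.Helper52.MEI.Tau

/-!
# The volume of the missing part of the tetrahedron
-/

set_option autoImplicit false

namespace Pool.Agent.Helper52.MEI

open Set MeasureTheory Helper80.CW Helper14.CW Helper14.MEI2 Helper93.MEI
open scoped RealInnerProductSpace ENNReal

variable {a : Fin 4 → E3} {K : Set E3}

theorem TT_bar (a : Fin 4 → E3) : TT a = {x | ∀ k, 0 ≤ bar a k x} := by
  ext x
  constructor
  · intro h k
    have := h k
    unfold bar
    linarith
  · intro h k
    have h1 : 0 ≤ bar a k x := h k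
    unfold bar at h1
    linarith

/-- barycentric coordinates along a homothety centred at a vertex -/
theorem bar_hom (g : Gram4 (al a)) (i k : Fin 4) (r : ℝ) (x : E3) :
    bar a k (a i + r • (x - a i)) = (1 - r) * (if k = i then 1 else 0) + r * bar a k x := by
  have h1 := bar_vertex g k i
  unfold bar at h1 ⊢
  have e : a i + r • (x - a i) - cen a = (1 - r) • (a i - cen a) + r • (x - cen a) := by module
  rw [e, inner_add_right, real_inner_smul_right, real_inner_smul_right]
  rw [← h1]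
  ring

/-- the corner of size `m` at the vertex `i` is contained in a homothetic tetrahedron -/
theorem corner_sub (g : Gram4 (al a)) (i : Fin 4) {m : ℝ} (hm : 0 ≤ m) :
    {x | (∀ k, 0 ≤ bar a k x) ∧ 1 - bar a i x ≤ m} ⊆ AffineMap.homothety (a i) m '' TT a := by
  rintro x ⟨hx, hxi⟩
  have hs := bar_sum g x
  rcases hm.eq_or_lt with h0 | h0
  · -- the vertex itself
    subst h0
    have hv : x = a i := by
      have h1 := norm_sub_sq_bar g x (a i)
      have b0 := hx 0
      have b1 := hx 1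
      have b2 := hx 2
      have b3 := hx 3
      have h2 : ‖x - a i‖ ^ 2 = 0 := by
        rw [h1]
        fin_cases i
        · have e : bar a 0 x = 1 := by
            have : 1 - bar a 0 x ≤ 0 := hxi
            linarith
          have e1 : bar a 1 x = 0 := by linarith
          have e2 : bar a 2 x = 0 := by linarith
          have e3 : bar a 3 x = 0 := by linarith
          show 1 / 2 * ((bar a 0 x - bar a 0 (a 0)) ^ 2 + (bar a 1 x - bar a 1 (a 0)) ^ 2 +
            (bar a 2 x - bar a 2 (a 0)) ^ 2 + (bar a 3 x - bar a 3 (a 0)) ^ 2) = 0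
          rw [bar_vertex_self g, bar_vertex_ne g (by decide), bar_vertex_ne g (by decide),
            bar_vertex_ne g (by decide), e, e1, e2, e3]
          norm_num
        · have e : bar a 1 x = 1 := by
            have : 1 - bar a 1 x ≤ 0 := hxi
            linarith
          have e1 : bar a 0 x = 0 := by linarith
          have e2 : bar a 2 x = 0 := by linarith
          have e3 : bar a 3 x = 0 := by linarith
          show 1 / 2 * ((bar a 0 x - bar a 0 (a 1)) ^ 2 + (bar a 1 x - bar a 1 (a 1)) ^ 2 +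
            (bar a 2 x - bar a 2 (a 1)) ^ 2 + (bar a 3 x - bar a 3 (a 1)) ^ 2) = 0
          rw [bar_vertex_self g, bar_vertex_ne g (by decide), bar_vertex_ne g (by decide),
            bar_vertex_ne g (by decide), e, e1, e2, e3]
          norm_num
        · have e : bar a 2 x = 1 := by
            have : 1 - bar a 2 x ≤ 0 := hxi
            linarith
          have e1 : bar a 0 x = 0 := by linarith
          have e2 : bar a 1 x = 0 := by linarith
          have e3 : bar a 3 x = 0 := by linarith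
          show 1 / 2 * ((bar a 0 x - bar a 0 (a 2)) ^ 2 + (bar a 1 x - bar a 1 (a 2)) ^ 2 +
            (bar a 2 x - bar a 2 (a 2)) ^ 2 + (bar a 3 x - bar a 3 (a 2)) ^ 2) = 0
          rw [bar_vertex_self g, bar_vertex_ne g (by decide), bar_vertex_ne g (by decide),
            bar_vertex_ne g (by decide), e, e1, e2, e3]
          norm_num
        · have e : bar a 3 x = 1 := by
            have : 1 - bar a 3 x ≤ 0 := hxi
            linarith
          have e1 : bar a 0 x = 0 := by linarith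
          have e2 : bar a 1 x = 0 := by linarith
          have e3 : bar a 2 x = 0 := by linarith
          show 1 / 2 * ((bar a 0 x - bar a 0 (a 3)) ^ 2 + (bar a 1 x - bar a 1 (a 3)) ^ 2 +
            (bar a 2 x - bar a 2 (a 3)) ^ 2 + (bar a 3 x - bar a 3 (a 3)) ^ 2) = 0
          rw [bar_vertex_self g, bar_vertex_ne g (by decide), bar_vertex_ne g (by decide),
            bar_vertex_ne g (by decide), e, e1, e2, e3]
          norm_num
      have h3 : ‖x - a i‖ = 0 := by
        exact pow_eq_zero_iff (two_ne_zero) |>.1 h2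
      exact sub_eq_zero.1 (norm_eq_zero.1 h3)
    refine ⟨a i, ?_, ?_⟩
    · rw [TT_bar]
      intro k
      rw [bar_vertex g]
      split_ifs <;> norm_num
    · rw [hv]
      simp [AffineMap.homothety_apply]
  · refine ⟨a i + (1 / m) • (x - a i), ?_, ?_⟩
    · rw [TT_bar]
      intro k
      show 0 ≤ bar a k (a i + (1 / m) • (x - a i))
      rw [bar_hom g]
      split_ifs with hk
      · subst hk
        have : 0 ≤ (m - (1 - bar a k x)) / m := div_nonneg (by linarith) h0.le
        have e : (1 - 1 / m) * 1 + 1 / m * bar a k x = (m - (1 - bar a k x)) / m := by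
          field_simp
          ring
        rw [e]
        exact this
      · have := hx k
        rw [mul_zero, zero_add]
        exact mul_nonneg (by positivity) this
    · rw [AffineMap.homothety_apply]
      simp only [vsub_eq_sub, vadd_eq_add]
      rw [add_sub_cancel_left, smul_smul, mul_one_div_cancel h0.ne', one_smul]
      abel

/-- the volume of a corner -/
theorem vol_corner (ha : ∀ i j, i ≠ j → dist (a i) (a j) = 1) (i : Fin 4) {m : ℝ} (hm : 0 ≤ m) :
    volume {x | (∀ k, 0 ≤ bar a k x) ∧ 1 - bar a i x ≤ m} ≤ ENNReal.ofReal (m ^ 3 * (√2 / 12)) := by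
  refine (measure_mono (corner_sub (gram_of_dist ha) i hm)).trans ?_
  rw [Measure.addHaar_image_homothety, vol_TT' ha, ← ENNReal.ofReal_mul (abs_nonneg _)]
  have e : Module.finrank ℝ E3 = 3 := by simp
  rw [e, abs_of_nonneg (by positivity)]

/-- **row tau**: the missing part of the tetrahedron -/
theorem tau_le (ha : ∀ i j, i ≠ j → dist (a i) (a j) = 1) (hKc : IsCompact K)
    (hull : ∀ p, (∀ q ∈ K, ‖p - q‖ ≤ 1) → p ∈ K)
    {s : Fin 4 → ℝ} {S m0 c : ℝ} (hm0 : m0 ≤ 1 / 2) (hS : S ≤ m0 * (1 - m0))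
    (hc : 1 - m0 ≤ c * (1 - m0 - S)) (hc0 : 0 ≤ c) (hs0 : ∀ i, 0 ≤ s i) (hsS : ∀ i, s i ≤ S)
    (hQ : ∀ i, ∀ q ∈ K, Qv a i q ≤ s i) :
    √2 / 12 - volume.real (K ∩ T0 a) ≤
      c ^ 3 * (√2 / 12) * (s 0 ^ 3 + s 1 ^ 3 + s 2 ^ 3 + s 3 ^ 3) := by
  have g := gram_of_dist ha
  set C : Fin 4 → Set E3 := fun i => {x | (∀ k, 0 ≤ bar a k x) ∧ 1 - bar a i x ≤ c * s i} with hC
  have hsub : TT a ⊆ (K ∩ T0 a) ∪ ((⋃ k, {x : E3 | bar a k x = 0}) ∪ ⋃ i, C i) := by
    intro x hx
    rw [TT_bar] at hx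
    have hx' : ∀ k, 0 ≤ bar a k x := hx
    by_cases hxK : x ∈ K
    · by_cases h0 : ∀ k, 0 < bar a k x
      · exact Or.inl ⟨hxK, h0⟩
      · push Not at h0
        obtain ⟨k, hk⟩ := h0
        exact Or.inr (Or.inl (mem_iUnion.2 ⟨k, le_antisymm hk (hx' k)⟩))
    · obtain ⟨i, hi⟩ := corner_of_notMem g hull hm0 hS hc hc0 hs0 hsS hQ hx' hxK
      exact Or.inr (Or.inr (mem_iUnion.2 ⟨i, hx', hi⟩))
  have h1 : volume (⋃ k, {x : E3 | bar a k x = 0}) = 0 :=
    measure_iUnion_null fun k => bar_zero_null ha k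
  have h2 : volume (⋃ i, C i) ≤ ∑ i, ENNReal.ofReal ((c * s i) ^ 3 * (√2 / 12)) := by
    refine (measure_iUnion_fintype_le _ _).trans ?_
    exact Finset.sum_le_sum fun i _ => vol_corner ha i (mul_nonneg hc0 (hs0 i))
  have h3 : volume (TT a) ≤ volume (K ∩ T0 a) +
      ∑ i, ENNReal.ofReal ((c * s i) ^ 3 * (√2 / 12)) := by
    calc volume (TT a) ≤ volume ((K ∩ T0 a) ∪ ((⋃ k, {x : E3 | bar a k x = 0}) ∪ ⋃ i, C i)) :=
          measure_mono hsub
      _ ≤ volume (K ∩ T0 a) + (volume (⋃ k, {x : E3 | bar a k x = 0}) + volume (⋃ i, C i)) :=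
          (measure_union_le _ _).trans (by gcongr; exact measure_union_le _ _)
      _ ≤ _ := by
          rw [h1, zero_add]
          gcongr
  have hfin : volume (K ∩ T0 a) ≠ ⊤ :=
    ne_top_of_le_ne_top hKc.measure_lt_top.ne (measure_mono inter_subset_left)
  have e1 : ∑ i, ENNReal.ofReal ((c * s i) ^ 3 * (√2 / 12)) =
      ENNReal.ofReal (∑ i, (c * s i) ^ 3 * (√2 / 12)) := by
    rw [ENNReal.ofReal_sum_of_nonneg]
    intro i _
    have := mul_nonneg hc0 (hs0 i)
    positivity
  have h4 := ENNReal.toReal_mono (by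
    rw [e1]
    exact ENNReal.add_ne_top.2 ⟨hfin, ENNReal.ofReal_ne_top⟩) h3
  rw [e1, ENNReal.toReal_add hfin ENNReal.ofReal_ne_top, ENNReal.toReal_ofReal (by
    apply Finset.sum_nonneg
    intro i _
    have := mul_nonneg hc0 (hs0 i)
    positivity), vol_TT' ha, ENNReal.toReal_ofReal (by positivity)] at h4
  rw [Fin.sum_univ_four] at h4
  have h5 : volume.real (K ∩ T0 a) = (volume (K ∩ T0 a)).toReal := rfl
  rw [h5]
  nlinarith [h4]

/-- `s ≤ 1/5`: `tau ≤ .317 Σ s³` -/
theorem tau_20 (ha : ∀ i j, i ≠ j → dist (a i) (a j) = 1) (hKc : IsCompact K)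
    (hull : ∀ p, (∀ q ∈ K, ‖p - q‖ ≤ 1) → p ∈ K) {s : Fin 4 → ℝ} (hs0 : ∀ i, 0 ≤ s i)
    (hsS : ∀ i, s i ≤ 0.2) (hQ : ∀ i, ∀ q ∈ K, Qv a i q ≤ s i) :
    √2 / 12 - volume.real (K ∩ T0 a) ≤ 0.317 * (s 0 ^ 3 + s 1 ^ 3 + s 2 ^ 3 + s 3 ^ 3) := by
  have h := tau_le (S := 0.2) (m0 := 0.2765) (c := 1.383) ha hKc hull (by norm_num) (by norm_num)
    (by norm_num) (by norm_num) hs0 hsS hQ
  refine h.trans ?_
  have h0 := pow_nonneg (hs0 0) 3
  have h1 := pow_nonneg (hs0 1) 3
  have h2 := pow_nonneg (hs0 2) 3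
  have h3 := pow_nonneg (hs0 3) 3
  apply mul_le_mul_of_nonneg_right _ (by positivity)
  have hs : √2 ≤ 1.4143 := Real.sqrt_le_iff.2 ⟨by norm_num, by norm_num⟩
  nlinarith

/-- `s ≤ 3/20`: `tau ≤ .225 Σ s³` -/
theorem tau_15 (ha : ∀ i j, i ≠ j → dist (a i) (a j) = 1) (hKc : IsCompact K)
    (hull : ∀ p, (∀ q ∈ K, ‖p - q‖ ≤ 1) → p ∈ K) {s : Fin 4 → ℝ} (hs0 : ∀ i, 0 ≤ s i)
    (hsS : ∀ i, s i ≤ 0.15) (hQ : ∀ i, ∀ q ∈ K, Qv a i q ≤ s i) :
    √2 / 12 - volume.real (K ∩ T0 a) ≤ 0.225 * (s 0 ^ 3 + s 1 ^ 3 + s 2 ^ 3 + s 3 ^ 3) := by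
  have h := tau_le (S := 0.15) (m0 := 0.184) (c := 1.2253) ha hKc hull (by norm_num)
    (by norm_num) (by norm_num) (by norm_num) hs0 hsS hQ
  refine h.trans ?_
  have h0 := pow_nonneg (hs0 0) 3
  have h1 := pow_nonneg (hs0 1) 3
  have h2 := pow_nonneg (hs0 2) 3
  have h3 := pow_nonneg (hs0 3) 3
  apply mul_le_mul_of_nonneg_right _ (by positivity)
  have hs : √2 ≤ 1.4143 := Real.sqrt_le_iff.2 ⟨by norm_num, by norm_num⟩
  nlinarith

end Pool.Agent.Helper52.MEI
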