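import Pool.Agent.Helper52.MEI.Contact

/-!
# Density bounds with finitely many loss points, without a condition on `β`

`X = A Q_0(p) - κ w`, `w = ‖a 0 - q‖²`, `β(x) = - bar a 0 x`.
-/

set_option autoImplicit false

namespace Pool.Agent.Helper52.MEI

open Set Helper80.CW Helper14.CW Helper93.MEI
open scoped RealInnerProductSpace

variable {a : Fin 4 → E3} {K : Set E3}

/-- **density bound**, any finite family of loss points with weights; the `w` term is explicit -/
theorem density_w (h : Gram4 (al a)) {ι : Type*} (S : Finset ι) (α : ι → ℝ) (z : ι → E3)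
    {p q : E3} {A κ : ℝ} (hA : 0 ≤ A) (hα : ∀ m ∈ S, 0 ≤ α m) (hz : ∀ m ∈ S, ‖z m - q‖ ≤ 1)
    (hpq : ‖p - q‖ = 1)
    (h1 : ∑ m ∈ S, α m * bar a 1 (z m) ≤ bar a 1 p)
    (h2 : ∑ m ∈ S, α m * bar a 2 (z m) ≤ bar a 2 p)
    (h3 : ∑ m ∈ S, α m * bar a 3 (z m) ≤ bar a 3 p) :
    A * (∑ m ∈ S, α m * Qv a 0 (z m)
      - ((bar a 1 p - ∑ m ∈ S, α m * bar a 1 (z m)) * pp (Qv a 1 q)
        + (bar a 2 p - ∑ m ∈ S, α m * bar a 2 (z m)) * pp (Qv a 2 q)
        + (bar a 3 p - ∑ m ∈ S, α m * bar a 3 (z m)) * pp (Qv a 3 q)))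
      - max 0 (κ - A * (- bar a 0 p - ∑ m ∈ S, α m * (- bar a 0 (z m)))) * ‖a 0 - q‖ ^ 2
      ≤ A * Qv a 0 p - κ * ‖a 0 - q‖ ^ 2 := by
  have e0 := side_id h p q
  rw [hpq] at e0
  have e1 : ∑ m ∈ S, α m * Qv a 0 (z m) ≤
      (∑ m ∈ S, α m * (- bar a 0 (z m))) * ‖a 0 - q‖ ^ 2 -
      ((∑ m ∈ S, α m * bar a 1 (z m)) * Qv a 1 q + (∑ m ∈ S, α m * bar a 2 (z m)) * Qv a 2 q +
        (∑ m ∈ S, α m * bar a 3 (z m)) * Qv a 3 q) := by
    rw [Finset.sum_mul, Finset.sum_mul, Finset.sum_mul, Finset.sum_mul, ← Finset.sum_add_distrib,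
      ← Finset.sum_add_distrib, ← Finset.sum_sub_distrib]
    apply Finset.sum_le_sum
    intro m hm
    have := mul_le_mul_of_nonneg_left (side_coupling h (hz m hm)) (hα m hm)
    linarith
  have k1 := le_pp (Qv a 1 q)
  have k2 := le_pp (Qv a 2 q)
  have k3 := le_pp (Qv a 3 q)
  have m1 := mul_le_mul_of_nonneg_left k1 (sub_nonneg.2 h1)
  have m2 := mul_le_mul_of_nonneg_left k2 (sub_nonneg.2 h2)
  have m3 := mul_le_mul_of_nonneg_left k3 (sub_nonneg.2 h3)
  have hδ : 0 ≤ ‖a 0 - q‖ ^ 2 := by positivity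
  set B := - bar a 0 p - ∑ m ∈ S, α m * (- bar a 0 (z m)) with hB
  have key : ∑ m ∈ S, α m * Qv a 0 (z m)
      - ((bar a 1 p - ∑ m ∈ S, α m * bar a 1 (z m)) * pp (Qv a 1 q)
        + (bar a 2 p - ∑ m ∈ S, α m * bar a 2 (z m)) * pp (Qv a 2 q)
        + (bar a 3 p - ∑ m ∈ S, α m * bar a 3 (z m)) * pp (Qv a 3 q))
      ≤ Qv a 0 p - B * ‖a 0 - q‖ ^ 2 := by
    rw [e0, hB]
    linarith
  have e2 := mul_le_mul_of_nonneg_left key hA
  have e3 := mul_le_mul_of_nonneg_right (le_max_right 0 (κ - A * B)) hδ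
  linarith

/-- bound for `w` on the face cell -/
theorem w_bound (h : Gram4 (al a)) {p q : E3} (hpq : ‖p - q‖ = 1) {s0 s1 s2 s3 : ℝ}
    (hQ : Qv a 0 p ≤ s0) (b1 : 0 ≤ bar a 1 p) (b2 : 0 ≤ bar a 2 p) (b3 : 0 ≤ bar a 3 p)
    (h1 : Qv a 1 q ≤ s1) (h2 : Qv a 2 q ≤ s2) (h3 : Qv a 3 q ≤ s3) :
    - bar a 0 p * ‖a 0 - q‖ ^ 2 ≤
      s0 + (bar a 1 p * s1 + bar a 2 p * s2 + bar a 3 p * s3) := by
  have e0 := side_id h p q
  rw [hpq] at e0
  have k1 := mul_le_mul_of_nonneg_left h1 b1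
  have k2 := mul_le_mul_of_nonneg_left h2 b2
  have k3 := mul_le_mul_of_nonneg_left h3 b3
  linarith

/-- the contact points of vertex `0` -/
structure C0 (a : Fin 4 → E3) (K : Set E3) (z : Fin 3 → E3) : Prop where
  c1 : Ct a K 0 1 (z 0)
  c2 : Ct a K 0 2 (z 1)
  c3 : Ct a K 0 3 (z 2)

/-- the contact points `P_k = a_k - z_k` near the vertices `1, 2, 3` -/
def PC (a : Fin 4 → E3) (z : Fin 3 → E3) : Fin 3 → E3 := ![a 1 - z 0, a 2 - z 1, a 3 - z 2]

/-- **inside of the contact cone**: exact contact coordinates `x` of `p` and `u` of the loss point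
`y`, `ξ k = x k - α u k ≥ 0`. -/
theorem cone_density (h : Gram4 (al a)) (ha : ∀ i j, i ≠ j → dist (a i) (a j) = 1)
    {z : Fin 3 → E3} (hC : C0 a K z) (hd : ∀ x ∈ K, ∀ y ∈ K, ‖x - y‖ ≤ 1)
    {p q y : E3} {A κ α : ℝ} {x u : Fin 3 → ℝ} (hA : 0 ≤ A) (hα : 0 ≤ α)
    (hy : y ∈ K) (hq : q ∈ K) (hpq : ‖p - q‖ = 1)
    (hx1 : bar a 1 p = ∑ k, x k * bar a 1 (PC a z k))
    (hx2 : bar a 2 p = ∑ k, x k * bar a 2 (PC a z k))
    (hx3 : bar a 3 p = ∑ k, x k * bar a 3 (PC a z k))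
    (hu1 : bar a 1 y = ∑ k, u k * bar a 1 (PC a z k))
    (hu2 : bar a 2 y = ∑ k, u k * bar a 2 (PC a z k))
    (hu3 : bar a 3 y = ∑ k, u k * bar a 3 (PC a z k))
    (hξ : ∀ k, 0 ≤ x k - α * u k) :
    A * (α * Qv a 0 y + ∑ k, (x k - α * u k) * ‖z k‖ ^ 2)
      - max 0 (κ - A * (- bar a 0 p - α * (- bar a 0 y) -
          ∑ k, (x k - α * u k) * (- bar a 0 (PC a z k)))) * ‖a 0 - q‖ ^ 2
      ≤ A * Qv a 0 p - κ * ‖a 0 - q‖ ^ 2 := by
  have hP : ∀ k, PC a z k ∈ K := by
    intro k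
    fin_cases k
    · exact hC.c1.mem2
    · exact hC.c2.mem2
    · exact hC.c3.mem2
  have hQ : ∀ k, Qv a 0 (PC a z k) = ‖z k‖ ^ 2 := by
    intro k
    fin_cases k
    · exact hC.c1.Qv_eq (ha 0 1 (by decide))
    · exact hC.c2.Qv_eq (ha 0 2 (by decide))
    · exact hC.c3.Qv_eq (ha 0 3 (by decide))
  -- family: `none` = the loss point, `some k` = contact points
  have key := density_w h (S := (Finset.univ : Finset (Option (Fin 3))))
    (α := fun m => m.elim α (fun k => x k - α * u k)) (z := fun m => m.elim y (PC a z))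
    (p := p) (q := q) (A := A) (κ := κ) hA
    (by
      intro m _
      cases m with
      | none => exact hα
      | some k => exact hξ k)
    (by
      intro m _
      cases m with
      | none => exact hd _ hy _ hq
      | some k => exact hd _ (hP k) _ hq)
    hpq
    (by
      rw [Fintype.sum_option]
      simp only [Option.elim_none, Option.elim_some]
      rw [hx1, hu1]
      simp only [sub_mul, Finset.sum_sub_distrib, Finset.mul_sum]
      apply le_of_eq
      have : ∑ k, α * (u k * bar a 1 (PC a z k)) = ∑ k, α * u k * bar a 1 (PC a z k) :=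
        Finset.sum_congr rfl fun k _ => by ring
      rw [this]
      ring)
    (by
      rw [Fintype.sum_option]
      simp only [Option.elim_none, Option.elim_some]
      rw [hx2, hu2]
      simp only [sub_mul, Finset.sum_sub_distrib, Finset.mul_sum]
      apply le_of_eq
      have : ∑ k, α * (u k * bar a 2 (PC a z k)) = ∑ k, α * u k * bar a 2 (PC a z k) :=
        Finset.sum_congr rfl fun k _ => by ring
      rw [this]
      ring)
    (by
      rw [Fintype.sum_option]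
      simp only [Option.elim_none, Option.elim_some]
      rw [hx3, hu3]
      simp only [sub_mul, Finset.sum_sub_distrib, Finset.mul_sum]
      apply le_of_eq
      have : ∑ k, α * (u k * bar a 3 (PC a z k)) = ∑ k, α * u k * bar a 3 (PC a z k) :=
        Finset.sum_congr rfl fun k _ => by ring
      rw [this]
      ring)
  have hc : ∀ m : Fin 4, bar a m p = ∑ k, x k * bar a m (PC a z k) →
      bar a m y = ∑ k, u k * bar a m (PC a z k) →
      bar a m p - ∑ k : Option (Fin 3), (k.elim α (fun k => x k - α * u k)) *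
        bar a m (k.elim y (PC a z)) = 0 := by
    intro m e1 e2
    rw [Fintype.sum_option]
    simp only [Option.elim_none, Option.elim_some]
    rw [e1, e2]
    simp only [sub_mul, Finset.sum_sub_distrib, Finset.mul_sum]
    have : ∑ k, α * (u k * bar a m (PC a z k)) = ∑ k, α * u k * bar a m (PC a z k) :=
      Finset.sum_congr rfl fun k _ => by ring
    rw [this]
    ring
  rw [hc 1 hx1 hu1, hc 2 hx2 hu2, hc 3 hx3 hu3, Fintype.sum_option, Fintype.sum_option] at key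
  simp only [Option.elim_none, Option.elim_some] at key
  rw [Finset.sum_congr rfl fun k _ => by rw [hQ k]] at key
  have e : (-bar a 0 p - (α * -bar a 0 y + ∑ k, (x k - α * u k) * -bar a 0 (PC a z k))) =
      (- bar a 0 p - α * (- bar a 0 y) - ∑ k, (x k - α * u k) * (- bar a 0 (PC a z k))) := by
    ring
  rw [e] at key
  linarith

end Pool.Agent.Helper52.MEI
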