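import Pool.Agent.Helper93.MEI.Bar

/-!
# The excess on the tetrahedron cell is positive
-/

set_option autoImplicit false

namespace Pool.Agent.Helper52.MEI

open Set MeasureTheory Helper80.CW Helper14.CW Helper93.MEI
open scoped RealInnerProductSpace

variable {a : Fin 4 → E3}

/-- a placed point lies in the ball of radius `√2/2` about the centre -/
theorem placed_norm (g : Gram4 (al a)) {q : E3} (hq : Pl a q) : ‖q - cen a‖ ^ 2 ≤ 1 / 2 := by
  have h1 := norm_sub_sq_bar g q (cen a)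
  rw [bar_cen, bar_cen, bar_cen, bar_cen] at h1
  have hs := bar_sum g q
  have hp := (pl_iff g).1 hq
  have q01 := hp 0 1 (by decide)
  have q02 := hp 0 2 (by decide)
  have q03 := hp 0 3 (by decide)
  have q10 := hp 1 0 (by decide)
  have q12 := hp 1 2 (by decide)
  have q13 := hp 1 3 (by decide)
  have q20 := hp 2 0 (by decide)
  have q21 := hp 2 1 (by decide)
  have q23 := hp 2 3 (by decide)
  have q30 := hp 3 0 (by decide)
  have q31 := hp 3 1 (by decide)
  have q32 := hp 3 2 (by decide)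
  rw [h1]
  set w := bar a 0 q
  set x := bar a 1 q
  set y := bar a 2 q
  set z := bar a 3 q
  -- the sum of the products `(M - b) (b - m)` with `M - m ≤ 1`
  have key : ∀ M m : ℝ, M - m ≤ 1 → w ≤ M → x ≤ M → y ≤ M → z ≤ M → m ≤ w → m ≤ x → m ≤ y →
      m ≤ z → (w - 1 / 4) ^ 2 + (x - 1 / 4) ^ 2 + (y - 1 / 4) ^ 2 + (z - 1 / 4) ^ 2 ≤ 1 := by
    intro M m hMm a1 a2 a3 a4 b1 b2 b3 b4
    have e1 : 0 ≤ (M - w) * (w - m) := mul_nonneg (by linarith) (by linarith)
    have e2 : 0 ≤ (M - x) * (x - m) := mul_nonneg (by linarith) (by linarith)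
    have e3 : 0 ≤ (M - y) * (y - m) := mul_nonneg (by linarith) (by linarith)
    have e4 : 0 ≤ (M - z) * (z - m) := mul_nonneg (by linarith) (by linarith)
    have h0 : 0 ≤ M - m := by linarith
    have h2 : (M - m) ^ 2 ≤ 1 := by nlinarith
    have e5 : w ^ 2 + x ^ 2 + y ^ 2 + z ^ 2 ≤ (M + m) * 1 - 4 * (M * m) := by
      rw [← hs]
      linarith [e1, e2, e3, e4]
    have e6 : (w - 1 / 4) ^ 2 + (x - 1 / 4) ^ 2 + (y - 1 / 4) ^ 2 + (z - 1 / 4) ^ 2 =
        w ^ 2 + x ^ 2 + y ^ 2 + z ^ 2 - 1 / 4 := by linear_combination (-1 / 2) * hs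
    rw [e6]
    nlinarith [e5, h2, sq_nonneg (M + m - 1 / 2)]
  have hM := key (max (max w x) (max y z)) (min (min w x) (min y z)) (by
    rcases max_cases (max w x) (max y z) with ⟨e, _⟩ | ⟨e, _⟩ <;>
    rcases min_cases (min w x) (min y z) with ⟨e', _⟩ | ⟨e', _⟩ <;>
    rcases max_cases w x with ⟨f1, _⟩ | ⟨f1, _⟩ <;>
    rcases max_cases y z with ⟨f2, _⟩ | ⟨f2, _⟩ <;>
    rcases min_cases w x with ⟨f3, _⟩ | ⟨f3, _⟩ <;>
    rcases min_cases y z with ⟨f4, _⟩ | ⟨f4, _⟩ <;>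
    rw [e, e'] <;> simp only [f1, f2, f3, f4] <;> linarith)
    ((le_max_left _ _).trans (le_max_left _ _)) ((le_max_right _ _).trans (le_max_left _ _))
    ((le_max_left _ _).trans (le_max_right _ _)) ((le_max_right _ _).trans (le_max_right _ _))
    ((min_le_left _ _).trans (min_le_left _ _)) ((min_le_left _ _).trans (min_le_right _ _))
    ((min_le_right _ _).trans (min_le_left _ _)) ((min_le_right _ _).trans (min_le_right _ _))
  linarith

/-- **the excess on the tetrahedron is bounded below by a positive constant** (for every pair of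
distance one whose second point is placed) -/
theorem tet_excess_ge (g : Gram4 (al a)) {p q : E3} (hpq : ‖p - q‖ = 1) (hq : Pl a q) :
    0.0428 ≤ ⟪p - cen a, p - q⟫ - 1 / 4 := by
  have h1 := placed_norm g hq
  have h2 : ‖q - cen a‖ ≤ 0.7072 := by
    have := norm_nonneg (q - cen a)
    nlinarith
  have h3 : ⟪p - cen a, p - q⟫ = 1 + ⟪q - cen a, p - q⟫ := by
    have e : p - cen a = (p - q) + (q - cen a) := by abel
    rw [e, inner_add_left, real_inner_self_eq_norm_sq, hpq]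
    norm_num
  have h4 : |⟪q - cen a, p - q⟫| ≤ ‖q - cen a‖ * ‖p - q‖ := abs_real_inner_le_norm _ _
  rw [hpq, mul_one] at h4
  have h5 := (abs_le.1 h4).1
  rw [h3]
  norm_num at h2 ⊢
  linarith

/-- **row E_T** -/
theorem ET_ge {σ : Measure (E3 × E3)} [IsFiniteMeasure σ] (g : Gram4 (al a)) {S : Set (E3 × E3)}
    (hae : ∀ᵐ z ∂σ, ‖z.1 - z.2‖ = 1 ∧ Pl a z.2)
    (hi : Integrable (fun z : E3 × E3 => ⟪z.1 - cen a, z.1 - z.2⟫) σ) :
    0.0428 * σ.real S ≤ ∫ z in S, (⟪z.1 - cen a, z.1 - z.2⟫ - 1 / 4) ∂σ := by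
  have h1 : ∫ z in S, (0.0428 : ℝ) ∂σ ≤ ∫ z in S, (⟪z.1 - cen a, z.1 - z.2⟫ - 1 / 4) ∂σ := by
    apply integral_mono_ae (integrable_const _)
    · exact (hi.sub (integrable_const _)).integrableOn
    · filter_upwards [ae_restrict_of_ae hae] with z hz
      exact tet_excess_ge g hz.1 hz.2
  rw [setIntegral_const, smul_eq_mul] at h1
  linarith

theorem ET_nonneg {σ : Measure (E3 × E3)} [IsFiniteMeasure σ] (g : Gram4 (al a))
    {S : Set (E3 × E3)} (hae : ∀ᵐ z ∂σ, ‖z.1 - z.2‖ = 1 ∧ Pl a z.2)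
    (hi : Integrable (fun z : E3 × E3 => ⟪z.1 - cen a, z.1 - z.2⟫) σ) :
    0 ≤ ∫ z in S, (⟪z.1 - cen a, z.1 - z.2⟫ - 1 / 4) ∂σ := by
  refine le_trans ?_ (ET_ge g hae hi)
  have := measureReal_nonneg (μ := σ) (s := S)
  positivity

end Pool.Agent.Helper52.MEI
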