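import Pool.Agent.Helper22.MEI.Hess
import Pool.Agent.Helper55.MEI.L3g

/-!
# Project MEI, row F: second derivatives of `f0` and `f1`, almost everywhere
-/

namespace Helper52.MEI

open Set MeasureTheory Filter Topology Helper22.MEI

/-- the continuous linear map with the two coefficients -/
noncomputable def lin2 (a b : ℝ) : ℝ × ℝ →L[ℝ] ℝ :=
  a • ContinuousLinearMap.fst ℝ ℝ ℝ + b • ContinuousLinearMap.snd ℝ ℝ ℝ

theorem lin2_10 (a b : ℝ) : lin2 a b (1, 0) = a := by simp [lin2]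

theorem lin2_01 (a b : ℝ) : lin2 a b (0, 1) = b := by simp [lin2]

theorem dX_of {g : ℝ × ℝ → ℝ} {p : ℝ × ℝ} {a b : ℝ} (h : HasFDerivAt g (lin2 a b) p) :
    dX g p = a := by unfold dX; rw [h.fderiv, lin2_10]

theorem dY_of {g : ℝ × ℝ → ℝ} {p : ℝ × ℝ} {a b : ℝ} (h : HasFDerivAt g (lin2 a b) p) :
    dY g p = b := by unfold dY; rw [h.fderiv, lin2_01]

/-- derivative of the first component of the gradient of `NN` -/
theorem nx_fd (p : ℝ × ℝ) : HasFDerivAt (fun q : ℝ × ℝ => q.1 / NN q)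
    (lin2 ((1 + p.2 ^ 2) / NN p ^ 3) (-(p.1 * p.2) / NN p ^ 3)) p := by
  have hn := NN_ne p
  have hi : HasFDerivAt (fun q : ℝ × ℝ => (NN q)⁻¹) ((-(NN p ^ 2)⁻¹) •
      ((p.1 / NN p) • ContinuousLinearMap.fst ℝ ℝ ℝ + (p.2 / NN p) • ContinuousLinearMap.snd ℝ ℝ ℝ))
      p := (hasDerivAt_inv hn).comp_hasFDerivAt p (NN_hasFDerivAt p)
  have h0 : HasFDerivAt (fun q : ℝ × ℝ => q.1) (ContinuousLinearMap.fst ℝ ℝ ℝ) p :=
    hasFDerivAt_fst
  have h1 := h0.mul hi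
  rw [show (fun q : ℝ × ℝ => q.1 / NN q) = (fun q => q.1) * (fun q => (NN q)⁻¹) from by
    funext q; simp [div_eq_mul_inv]]
  refine h1.congr_fderiv ?_
  unfold lin2
  ext
  · simp
    field_simp
    nlinarith [NN_sq p]
  · simp
    field_simp

/-- derivative of the second component of the gradient of `NN` -/
theorem ny_fd (p : ℝ × ℝ) : HasFDerivAt (fun q : ℝ × ℝ => q.2 / NN q)
    (lin2 (-(p.1 * p.2) / NN p ^ 3) ((1 + p.1 ^ 2) / NN p ^ 3)) p := by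
  have hn := NN_ne p
  have hi : HasFDerivAt (fun q : ℝ × ℝ => (NN q)⁻¹) ((-(NN p ^ 2)⁻¹) •
      ((p.1 / NN p) • ContinuousLinearMap.fst ℝ ℝ ℝ + (p.2 / NN p) • ContinuousLinearMap.snd ℝ ℝ ℝ))
      p := (hasDerivAt_inv hn).comp_hasFDerivAt p (NN_hasFDerivAt p)
  have h0 : HasFDerivAt (fun q : ℝ × ℝ => q.2) (ContinuousLinearMap.snd ℝ ℝ ℝ) p :=
    hasFDerivAt_snd
  have h1 := h0.mul hi
  rw [show (fun q : ℝ × ℝ => q.2 / NN q) = (fun q => q.2) * (fun q => (NN q)⁻¹) from by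
    funext q; simp [div_eq_mul_inv]]
  refine h1.congr_fderiv ?_
  unfold lin2
  ext
  · simp
    field_simp
  · simp
    field_simp
    nlinarith [NN_sq p]

theorem AAd (x : ℝ) : HasDerivAt (fun x => c3 * x / AA x) (c3 / AA x ^ 3) x := by
  have h := ((hasDerivAt_id x).const_mul c3).div (AA_hasDerivAt x) (AA_ne x)
  refine h.congr_deriv ?_
  have ha := AA_ne x
  have h2 := AA_sq x
  simp only [id]
  field_simp
  rw [h2]
  ring

theorem ax_fd (p : ℝ × ℝ) : HasFDerivAt (fun q : ℝ × ℝ => c3 * q.1 / AA q.1)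
    (lin2 (c3 / AA p.1 ^ 3) 0) p := by
  have h0 : HasFDerivAt (fun q : ℝ × ℝ => q.1) (ContinuousLinearMap.fst ℝ ℝ ℝ) p :=
    hasFDerivAt_fst
  have h1 := (AAd p.1).comp_hasFDerivAt p h0
  refine h1.congr_fderiv ?_
  unfold lin2
  ext <;> simp

theorem ay_fd (p : ℝ × ℝ) : HasFDerivAt (fun q : ℝ × ℝ => c3 * q.2 / AA q.2)
    (lin2 0 (c3 / AA p.2 ^ 3)) p := by
  have h0 : HasFDerivAt (fun q : ℝ × ℝ => q.2) (ContinuousLinearMap.snd ℝ ℝ ℝ) p :=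
    hasFDerivAt_snd
  have h1 := (AAd p.2).comp_hasFDerivAt p h0
  refine h1.congr_fderiv ?_
  unfold lin2
  ext <;> simp

theorem const_fd (c : ℝ) (p : ℝ × ℝ) : HasFDerivAt (fun _ : ℝ × ℝ => c) (lin2 0 0) p := by
  refine (hasFDerivAt_const c p).congr_fderiv ?_
  unfold lin2
  ext <;> simp

theorem sub_lin {g k : ℝ × ℝ → ℝ} {p : ℝ × ℝ} {a b c d : ℝ} (h : HasFDerivAt g (lin2 a b) p)
    (h' : HasFDerivAt k (lin2 c d) p) : HasFDerivAt (fun q => g q - k q) (lin2 (a - c) (b - d)) p := by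
  refine (h.sub h').congr_fderiv ?_
  unfold lin2
  ext <;> simp

/-- the sign is locally constant away from the axis -/
theorem sg_ev1 {p : ℝ × ℝ} (h : 1 / 2 < |p.1|) : ∀ᶠ q in 𝓝 p, sg q.1 = sg p.1 := by
  rcases lt_abs.1 h with h1 | h1
  · have ho : IsOpen {q : ℝ × ℝ | 1 / 2 < q.1} := isOpen_lt continuous_const continuous_fst
    filter_upwards [ho.mem_nhds h1] with q hq
    rw [sg_pos h1.le, sg_pos (le_of_lt hq)]
  · have ho : IsOpen {q : ℝ × ℝ | 1 / 2 < -q.1} := isOpen_lt continuous_const continuous_fst.neg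
    filter_upwards [ho.mem_nhds h1] with q hq
    have hq' : 1 / 2 < -q.1 := hq
    rw [sg_neg (by linarith), sg_neg (by linarith)]

theorem sg_ev2 {p : ℝ × ℝ} (h : 1 / 2 < |p.2|) : ∀ᶠ q in 𝓝 p, sg q.2 = sg p.2 := by
  rcases lt_abs.1 h with h1 | h1
  · have ho : IsOpen {q : ℝ × ℝ | 1 / 2 < q.2} := isOpen_lt continuous_const continuous_snd
    filter_upwards [ho.mem_nhds h1] with q hq
    rw [sg_pos h1.le, sg_pos (le_of_lt hq)]
  · have ho : IsOpen {q : ℝ × ℝ | 1 / 2 < -q.2} := isOpen_lt continuous_const continuous_snd.neg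
    filter_upwards [ho.mem_nhds h1] with q hq
    have hq' : 1 / 2 < -q.2 := hq
    rw [sg_neg (by linarith), sg_neg (by linarith)]

/-! ### `f0` -/

theorem f0_gX_mid {p : ℝ × ℝ} (h : 3 * p.2 ^ 2 < 1 + p.1 ^ 2) :
    HasFDerivAt (dX f0) (lin2 (c3 / AA p.1 ^ 3) 0) p := by
  refine (ax_fd p).congr_of_eventuallyEq ?_
  filter_upwards [isOpen_mid.mem_nhds h] with q hq
  rw [dX_f0]
  unfold g0X
  rw [if_pos (le_of_lt hq)]

theorem f0_gY_mid {p : ℝ × ℝ} (h : 3 * p.2 ^ 2 < 1 + p.1 ^ 2) :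
    HasFDerivAt (dY f0) (lin2 0 0) p := by
  refine (const_fd 0 p).congr_of_eventuallyEq ?_
  filter_upwards [isOpen_mid.mem_nhds h] with q hq
  rw [dY_f0]
  unfold g0Y
  rw [if_pos (le_of_lt hq)]

theorem f0_gX_lens {p : ℝ × ℝ} (h : 1 + p.1 ^ 2 < 3 * p.2 ^ 2) :
    HasFDerivAt (dX f0) (lin2 ((1 + p.2 ^ 2) / NN p ^ 3) (-(p.1 * p.2) / NN p ^ 3)) p := by
  refine (nx_fd p).congr_of_eventuallyEq ?_
  filter_upwards [isOpen_lens.mem_nhds h] with q hq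
  rw [dX_f0]
  unfold g0X
  rw [if_neg (not_le.2 hq)]

theorem f0_gY_lens {p : ℝ × ℝ} (h : 1 + p.1 ^ 2 < 3 * p.2 ^ 2) :
    HasFDerivAt (dY f0) (lin2 (-(p.1 * p.2) / NN p ^ 3) ((1 + p.1 ^ 2) / NN p ^ 3)) p := by
  have h1 := sub_lin (ny_fd p) (const_fd (sg p.2 / 2) p)
  rw [sub_zero, sub_zero] at h1
  refine h1.congr_of_eventuallyEq ?_
  filter_upwards [isOpen_lens.mem_nhds h, sg_ev2 (half_lt h.le)] with q hq hs
  rw [dY_f0]
  unfold g0Y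
  rw [if_neg (not_le.2 hq), hs]

/-! ### `f1` -/

theorem f1_sw : f1 = sw f0 := rfl

theorem dX_f1 (p : ℝ × ℝ) : dX f1 p = p.1 / NN p - g0Y (p.2, p.1) := by
  rw [f1_sw, dX_sw f0_diff, dY_f0]

theorem dY_f1 (p : ℝ × ℝ) : dY f1 p = p.2 / NN p - g0X (p.2, p.1) := by
  rw [f1_sw, dY_sw f0_diff, dX_f0]

theorem isOpen_mid' : IsOpen {p : ℝ × ℝ | 3 * p.1 ^ 2 < 1 + p.2 ^ 2} := by
  refine isOpen_lt ?_ ?_ <;> fun_prop

theorem isOpen_lens' : IsOpen {p : ℝ × ℝ | 1 + p.2 ^ 2 < 3 * p.1 ^ 2} := by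
  refine isOpen_lt ?_ ?_ <;> fun_prop

theorem f1_gX_mid {p : ℝ × ℝ} (h : 3 * p.1 ^ 2 < 1 + p.2 ^ 2) :
    HasFDerivAt (dX f1) (lin2 ((1 + p.2 ^ 2) / NN p ^ 3) (-(p.1 * p.2) / NN p ^ 3)) p := by
  refine (nx_fd p).congr_of_eventuallyEq ?_
  filter_upwards [isOpen_mid'.mem_nhds h] with q hq
  rw [dX_f1]
  unfold g0Y
  rw [if_pos (le_of_lt hq), sub_zero]

theorem f1_gY_mid {p : ℝ × ℝ} (h : 3 * p.1 ^ 2 < 1 + p.2 ^ 2) :
    HasFDerivAt (dY f1) (lin2 (-(p.1 * p.2) / NN p ^ 3)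
      ((1 + p.1 ^ 2) / NN p ^ 3 - c3 / AA p.2 ^ 3)) p := by
  have h1 := sub_lin (ny_fd p) (ay_fd p)
  rw [sub_zero] at h1
  refine h1.congr_of_eventuallyEq ?_
  filter_upwards [isOpen_mid'.mem_nhds h] with q hq
  rw [dY_f1]
  unfold g0X
  rw [if_pos (le_of_lt hq)]

theorem f1_gX_lens {p : ℝ × ℝ} (h : 1 + p.2 ^ 2 < 3 * p.1 ^ 2) :
    HasFDerivAt (dX f1) (lin2 0 0) p := by
  have hh : 1 / 2 < |p.1| := half_lt (p := (p.2, p.1)) h.le
  refine (const_fd (sg p.1 / 2) p).congr_of_eventuallyEq ?_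
  filter_upwards [isOpen_lens'.mem_nhds h, sg_ev1 hh] with q hq hs
  rw [dX_f1]
  unfold g0Y
  rw [if_neg (not_le.2 hq), NN_swap]
  show q.1 / NN q - (q.1 / NN q - sg q.1 / 2) = sg p.1 / 2
  rw [hs]; ring

theorem f1_gY_lens {p : ℝ × ℝ} (h : 1 + p.2 ^ 2 < 3 * p.1 ^ 2) :
    HasFDerivAt (dY f1) (lin2 0 0) p := by
  refine (const_fd 0 p).congr_of_eventuallyEq ?_
  filter_upwards [isOpen_lens'.mem_nhds h] with q hq
  rw [dY_f1]
  unfold g0X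
  rw [if_neg (not_le.2 hq), NN_swap]
  show q.2 / NN q - q.2 / NN q = 0
  ring

end Helper52.MEI
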