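import Pool.Agent.Helper52.MEI.F1
import Pool.Agent.Helper75.MEI.Sheet

/-!
# Project MEI, row F: Hessian determinants of `f0` and `f1`, the flux functional at the two ends
-/

namespace Helper52.MEI

open Set MeasureTheory Filter Topology Helper22.MEI Helper14.CW.Geo Helper75.MEI

/-! ### determinants -/

theorem hd_of {f : ℝ × ℝ → ℝ} {p : ℝ × ℝ} {a b c d : ℝ} (h1 : HasFDerivAt (dX f) (lin2 a b) p)
    (h2 : HasFDerivAt (dY f) (lin2 c d) p) : hd f p = a * d - c * b := by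
  unfold hd
  rw [dX_of h1, dY_of h1, dX_of h2, dY_of h2]

theorem hd_f0_mid {p : ℝ × ℝ} (h : 3 * p.2 ^ 2 < 1 + p.1 ^ 2) : hd f0 p = 0 := by
  rw [hd_of (f0_gX_mid h) (f0_gY_mid h)]; ring

theorem det_NN (p : ℝ × ℝ) : (1 + p.2 ^ 2) / NN p ^ 3 * ((1 + p.1 ^ 2) / NN p ^ 3)
    - -(p.1 * p.2) / NN p ^ 3 * (-(p.1 * p.2) / NN p ^ 3) = 1 / NN p ^ 4 := by
  have hn := NN_ne p
  have h2 := NN_sq p
  field_simp
  linear_combination -h2

theorem hd_f0_lens {p : ℝ × ℝ} (h : 1 + p.1 ^ 2 < 3 * p.2 ^ 2) : hd f0 p = 1 / NN p ^ 4 := by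
  rw [hd_of (f0_gX_lens h) (f0_gY_lens h), det_NN]

theorem hd_f1_mid {p : ℝ × ℝ} (h : 3 * p.1 ^ 2 < 1 + p.2 ^ 2) :
    hd f1 p = 1 / NN p ^ 4 - c3 / (AA p.2 * NN p ^ 3) := by
  rw [hd_of (f1_gX_mid h) (f1_gY_mid h), ← det_NN p]
  have hn := NN_ne p
  have ha := AA_ne p.2
  have h2 := AA_sq p.2
  have e : (1 + p.2 ^ 2) / NN p ^ 3 * (c3 / AA p.2 ^ 3) = c3 / (AA p.2 * NN p ^ 3) := by
    rw [← h2]
    field_simp
  rw [← e]
  ring

theorem hd_f1_lens {p : ℝ × ℝ} (h : 1 + p.2 ^ 2 < 3 * p.1 ^ 2) : hd f1 p = 0 := by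
  rw [hd_of (f1_gX_lens h) (f1_gY_lens h)]; ring

/-- the interface of `f1` is a null set -/
theorem iface_null' : volume {p : ℝ × ℝ | 3 * p.1 ^ 2 = 1 + p.2 ^ 2} = 0 := by
  have hm : MeasurableSet {p : ℝ × ℝ | 3 * p.1 ^ 2 = 1 + p.2 ^ 2} := by
    refine (isClosed_eq ?_ ?_).measurableSet <;> fun_prop
  rw [Measure.volume_eq_prod, Measure.measure_prod_null hm]
  refine Filter.Eventually.of_forall fun x => ?_
  have hsub : Prod.mk x ⁻¹' {p : ℝ × ℝ | 3 * p.1 ^ 2 = 1 + p.2 ^ 2} ⊆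
      {√(3 * x ^ 2 - 1), -√(3 * x ^ 2 - 1)} := by
    intro y hy
    have hy' : 3 * x ^ 2 = 1 + y ^ 2 := hy
    have h1 : y ^ 2 = √(3 * x ^ 2 - 1) ^ 2 := by
      rw [Real.sq_sqrt (by nlinarith [sq_nonneg y])]
      linarith
    rcases sq_eq_sq_iff_eq_or_eq_neg.1 h1 with h | h
    · exact Or.inl h
    · exact Or.inr h
  have hfin : ({√(3 * x ^ 2 - 1), -√(3 * x ^ 2 - 1)} : Set ℝ).Finite := Set.toFinite _
  exact measure_mono_null hsub (hfin.measure_zero _)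

theorem ae_iface : ∀ᵐ p : ℝ × ℝ, 3 * p.2 ^ 2 ≠ 1 + p.1 ^ 2 := by
  rw [ae_iff]
  have := Pool.Agent.Helper55.MEI.iface_null
  simpa only [ne_eq, not_not] using this

theorem ae_iface' : ∀ᵐ p : ℝ × ℝ, 3 * p.1 ^ 2 ≠ 1 + p.2 ^ 2 := by
  rw [ae_iff]
  have := iface_null'
  simpa only [ne_eq, not_not] using this

/-! ### the points of the surface -/

theorem pz_f0_lens {p : ℝ × ℝ} (h : 1 + p.1 ^ 2 < 3 * p.2 ^ 2) : pz f0 p = 1 / NN p - t := by
  have hn := NN_ne p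
  have h2 := NN_sq p
  have hy := half_lt h.le
  have hs := sg_mul hy.le
  unfold pz
  rw [dX_f0, dY_f0]
  unfold g0X g0Y f0
  rw [if_neg (not_le.2 h), if_neg (not_le.2 h), if_neg (not_le.2 h), ← hs]
  field_simp
  linear_combination 2 * h2

theorem pz_f1_mid {p : ℝ × ℝ} (h : 3 * p.1 ^ 2 < 1 + p.2 ^ 2) :
    pz f1 p = 1 / NN p - c3 / AA p.2 + t := by
  have hn := NN_ne p
  have h2 := NN_sq p
  have ha := AA_ne p.2
  have h3 := AA_sq p.2
  unfold pz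
  rw [dX_f1, dY_f1]
  unfold g0X g0Y f1 f0
  simp only
  rw [if_pos h.le, if_pos h.le, if_pos h.le]
  field_simp
  linear_combination (AA p.2) * h2 - (c3 * NN p) * h3

theorem s_two_t : s = 2 * t := s_eq

/-- pointwise identity behind `T(f0) = 0` -/
theorem pt_f0 {p : ℝ × ℝ} (h : 1 + p.1 ^ 2 < 3 * p.2 ^ 2) :
    X1 (gp f0 p) * p.1 + X2 (gp f0 p) * p.2 + X3 (gp f0 p) = NN p / 4 := by
  have hn := NN_ne p
  have hn0 := NN_pos p
  have h2 := NN_sq p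
  have hy := half_lt h.le
  have hs := sg_mul hy.le
  have hs2 := sg_sq hy.le
  have ht : t ^ 2 = 1 / 8 := by have := s_sq; rw [s_eq] at this; nlinarith
  have hp := pz_f0_lens h
  unfold pz at hp
  have hD := Pool.Agent.Helper8.MEI.DD_pos (gp f0 p).1 (gp f0 p).2.1 ((gp f0 p).2.2 - t)
  have e1 : (gp f0 p).1 = p.1 / NN p := by
    show dX f0 p = _
    rw [dX_f0]; unfold g0X; rw [if_neg (not_le.2 h)]
  have e2 : (gp f0 p).2.1 = p.2 / NN p - sg p.2 / 2 := by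
    show dY f0 p = _
    rw [dY_f0]; unfold g0Y; rw [if_neg (not_le.2 h)]
  have e3 : (gp f0 p).2.2 - t = 1 / NN p - 2 * t := by
    show f0 p - p.1 * dX f0 p - p.2 * dY f0 p - t = _
    rw [hp]; ring
  unfold X1 X2 X3 Pool.Agent.Helper8.MEI.F1 Pool.Agent.Helper8.MEI.F2 Pool.Agent.Helper8.MEI.F3
  rw [e1, e2, e3] at hD ⊢
  have key : 9 / 32 * (p.1 / NN p) * p.1 + 1 / 2 * (p.2 / NN p - sg p.2 / 2) * p.2
      + 1 / 2 * (1 / NN p - 2 * t)
      = NN p / 4 * Pool.Agent.Helper8.MEI.DD (p.1 / NN p) (p.2 / NN p - sg p.2 / 2)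
        (1 / NN p - 2 * t) := by
    unfold Pool.Agent.Helper8.MEI.DD
    field_simp
    set σ := sg p.2
    set N := NN p
    linear_combination (-4096) * h2 - 1024 * N ^ 2 * hs2 - 16384 * N ^ 2 * ht
  generalize Pool.Agent.Helper8.MEI.DD (p.1 / NN p) (p.2 / NN p - sg p.2 / 2)
    (1 / NN p - 2 * t) = D at hD key ⊢
  have e : 9 / 32 * (p.1 / NN p) / D * p.1 + 1 / 2 * (p.2 / NN p - sg p.2 / 2) / D * p.2
      + 1 / 2 * (1 / NN p - 2 * t) / D = (9 / 32 * (p.1 / NN p) * p.1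
      + 1 / 2 * (p.2 / NN p - sg p.2 / 2) * p.2 + 1 / 2 * (1 / NN p - 2 * t)) / D := by ring
  rw [e, key]
  exact mul_div_cancel_right₀ _ hD.ne'

/-- pointwise identity behind `T(f1) = 0` -/
theorem pt_f1 {p : ℝ × ℝ} (h : 3 * p.1 ^ 2 < 1 + p.2 ^ 2) :
    X1 (gp f1 p) * p.1 + X2 (gp f1 p) * p.2 + X3 (gp f1 p) = NN p / 4 := by
  have hn := NN_ne p
  have hn0 := NN_pos p
  have h2 := NN_sq p
  have ha := AA_ne p.2
  have h3 := AA_sq p.2
  have hc := c3_sq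
  have hp := pz_f1_mid h
  unfold pz at hp
  have hD := Pool.Agent.Helper8.MEI.DD_pos (gp f1 p).1 (gp f1 p).2.1 ((gp f1 p).2.2 - t)
  have e1 : (gp f1 p).1 = p.1 / NN p := by
    show dX f1 p = _
    rw [dX_f1]; unfold g0Y; rw [if_pos h.le, sub_zero]
  have e2 : (gp f1 p).2.1 = p.2 / NN p - c3 * p.2 / AA p.2 := by
    show dY f1 p = _
    rw [dY_f1]; unfold g0X; rw [if_pos h.le]
  have e3 : (gp f1 p).2.2 - t = 1 / NN p - c3 / AA p.2 := by
    show f1 p - p.1 * dX f1 p - p.2 * dY f1 p - t = _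
    rw [hp]; ring
  unfold X1 X2 X3 Pool.Agent.Helper8.MEI.F1 Pool.Agent.Helper8.MEI.F2 Pool.Agent.Helper8.MEI.F3
  rw [e1, e2, e3] at hD ⊢
  have key : 9 / 32 * (p.1 / NN p) * p.1 + 1 / 2 * (p.2 / NN p - c3 * p.2 / AA p.2) * p.2
      + 1 / 2 * (1 / NN p - c3 / AA p.2)
      = NN p / 4 * Pool.Agent.Helper8.MEI.DD (p.1 / NN p) (p.2 / NN p - c3 * p.2 / AA p.2)
        (1 / NN p - c3 / AA p.2) := by
    unfold Pool.Agent.Helper8.MEI.DD
    field_simp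
    set N := NN p
    set B := AA p.2
    linear_combination (-2048 * B ^ 2) * h2 - 2048 * N ^ 2 * (1 + p.2 ^ 2) * hc
      + 1536 * N ^ 2 * h3
  generalize Pool.Agent.Helper8.MEI.DD (p.1 / NN p) (p.2 / NN p - c3 * p.2 / AA p.2)
    (1 / NN p - c3 / AA p.2) = D at hD key ⊢
  have e : 9 / 32 * (p.1 / NN p) / D * p.1 + 1 / 2 * (p.2 / NN p - c3 * p.2 / AA p.2) / D * p.2
      + 1 / 2 * (1 / NN p - c3 / AA p.2) / D = (9 / 32 * (p.1 / NN p) * p.1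
      + 1 / 2 * (p.2 / NN p - c3 * p.2 / AA p.2) * p.2 + 1 / 2 * (1 / NN p - c3 / AA p.2)) / D := by
    ring
  rw [e, key]
  exact mul_div_cancel_right₀ _ hD.ne'

/-! ### the functionals -/

theorem Tf_f0 : Tf f0 = 0 := by
  unfold Tf Phi St
  rw [sub_eq_zero, ← integral_div]
  refine setIntegral_congr_ae SQ_meas ?_
  filter_upwards [ae_iface] with p hp _
  rcases lt_or_gt_of_ne hp with h | h
  · rw [hd_f0_mid h]; ring
  · rw [pt_f0 h]; ring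

theorem Tf_f1 : Tf f1 = 0 := by
  unfold Tf Phi St
  rw [sub_eq_zero, ← integral_div]
  refine setIntegral_congr_ae SQ_meas ?_
  filter_upwards [ae_iface'] with p hp _
  rcases lt_or_gt_of_ne hp with h | h
  · rw [pt_f1 h]; ring
  · rw [hd_f1_lens h]; ring

theorem al_f0 : al f0 = 0 := by
  unfold al
  refine (setIntegral_congr_ae SQ_meas ?_).trans (by simp : ∫ _ in SQ, (0 : ℝ) = 0)
  filter_upwards [ae_iface] with p hp _
  rcases lt_or_gt_of_ne hp with h | h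
  · rw [hd_f0_mid h]; ring
  · have e : -qz f0 p - t = 0 := by
      unfold qz
      rw [pz_f0_lens h]; ring
    rw [e, zero_mul]

end Helper52.MEI
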