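import Pool.Agent.Helper52.MEI.F2

/-!
# Project MEI, row F: the area of the lower end, `St f1 ≤ 0.117`
-/

namespace Helper52.MEI

open Set MeasureTheory Filter Topology Helper22.MEI Helper14.CW.Geo Helper75.MEI
open Pool.Agent.Helper55.MEI (nr nr_sq nr_pos a3_deriv at_deriv)

/-- the integrand after the swap -/
noncomputable def HF (p : ℝ × ℝ) : ℝ :=
  if 3 * p.2 ^ 2 ≤ 1 + p.1 ^ 2 then 1 / NN p ^ 3 - c3 / (AA p.1 * NN p ^ 2) else 0

theorem St_f1_swap : St f1 = ∫ p in SQ, HF p := by
  rw [← int_swap HF]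
  unfold St
  refine setIntegral_congr_ae SQ_meas ?_
  filter_upwards [ae_iface'] with p hp _
  have hn := NN_ne p
  have ha := AA_ne p.2
  unfold HF
  simp only [NN_swap]
  rcases lt_or_gt_of_ne hp with h | h
  · rw [hd_f1_mid h, if_pos h.le]
    field_simp
  · rw [hd_f1_lens h, if_neg (not_le.2 h), mul_zero]

theorem HF_good : Good HF := by
  unfold HF
  refine Good.ite mid_meas (Good.cont ?_) (Good.const 0)
  have h1 : Continuous fun p : ℝ × ℝ => 1 / NN p ^ 3 :=
    continuous_const.div (NN_cont.pow 3) (fun p => pow_ne_zero _ (NN_ne p))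
  have h2 : Continuous fun p : ℝ × ℝ => c3 / (AA p.1 * NN p ^ 2) :=
    continuous_const.div ((AA_cont.comp continuous_fst).mul (NN_cont.pow 2))
      (fun p => mul_ne_zero (AA_ne p.1) (pow_ne_zero _ (NN_ne p)))
  exact h1.sub h2

/-- the integral over one line -/
theorem HF_line {x : ℝ} (hx : |x| ≤ s) :
    ∫ y in (-s)..s, HF (x, y) = (1 - c3 * Real.pi / 3) / (1 + x ^ 2) := by
  have hr : 0 < AA x := AA_pos x
  have hr2 := AA_sq x
  have hyi := yi_pos x
  have hys := yi_le hx
  have hAr : AA x = nr 1 x := Pool.Agent.Helper55.MEI.AA_eq x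
  have hN : ∀ y, NN (x, y) = nr (AA x) y := by
    intro y
    rw [Pool.Agent.Helper55.MEI.NN_eq, hAr]
  have hder : ∀ y, HasDerivAt (fun y => y / nr (AA x) y / AA x ^ 2
      - c3 * (Real.arctan (y / AA x) / AA x ^ 2))
      (1 / NN (x, y) ^ 3 - c3 / (AA x * NN (x, y) ^ 2)) y := by
    intro y
    have h1 := a3_deriv hr y
    have h2 := ((at_deriv hr y).div_const (AA x ^ 2)).const_mul c3
    refine (h1.sub h2).congr_deriv ?_
    rw [hN y]
    have hn := (nr_pos hr y).ne'
    have ha := hr.ne'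
    field_simp
  have hcont : Continuous fun y => 1 / NN (x, y) ^ 3 - c3 / (AA x * NN (x, y) ^ 2) := by
    have hc : Continuous fun y => NN (x, y) := NN_cont.comp (by fun_prop)
    exact (continuous_const.div (hc.pow 3) (fun y => pow_ne_zero _ (NN_ne _))).sub
      (continuous_const.div (continuous_const.mul (hc.pow 2))
        (fun y => mul_ne_zero hr.ne' (pow_ne_zero _ (NN_ne _))))
  have e1 : ∀ y ∈ Set.uIoc (-yi x) (yi x), HF (x, y)
      = 1 / NN (x, y) ^ 3 - c3 / (AA x * NN (x, y) ^ 2) := by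
    intro y hy
    rw [uIoc_of_le (by linarith)] at hy
    have : 3 * y ^ 2 ≤ 1 + x ^ 2 := mid_iff.2 (abs_le.2 ⟨hy.1.le, hy.2⟩)
    unfold HF
    rw [if_pos this]
  have e2 : ∀ y ∈ Set.uIoc (-s) (-yi x), y ≠ -yi x → HF (x, y) = 0 := by
    intro y hy hne
    rw [uIoc_of_le (by linarith)] at hy
    have : ¬ 3 * y ^ 2 ≤ 1 + x ^ 2 := by
      intro hc
      have := (abs_le.1 (mid_iff.1 hc)).1
      exact hne (le_antisymm hy.2 this)
    unfold HF
    rw [if_neg this]
  have e3 : ∀ y ∈ Set.uIoc (yi x) s, HF (x, y) = 0 := by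
    intro y hy
    rw [uIoc_of_le hys] at hy
    have : ¬ 3 * y ^ 2 ≤ 1 + x ^ 2 := by
      intro hc
      have := (abs_le.1 (mid_iff.1 hc)).2
      linarith [hy.1]
    unfold HF
    rw [if_neg this]
  have hI : ∀ a b, |a| ≤ s → |b| ≤ s → IntervalIntegrable (fun y => HF (x, y)) volume a b := by
    intro a b ha hb
    refine (HF_good.lineY hx).mono_set ?_
    rw [uIcc_of_le (by linarith [s_pos] : -s ≤ s)]
    exact uIcc_subset_Icc (abs_le.1 ha) (abs_le.1 hb)
  have as : |s| ≤ s := (abs_of_pos s_pos).le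
  have as' : |-s| ≤ s := by rw [abs_neg]; exact as
  have ay : |yi x| ≤ s := by rw [abs_of_pos hyi]; exact hys
  have ay' : |-yi x| ≤ s := by rw [abs_neg]; exact ay
  rw [← intervalIntegral.integral_add_adjacent_intervals (hI _ _ as' ay') (hI _ _ ay' as),
    ← intervalIntegral.integral_add_adjacent_intervals (hI _ _ ay' ay) (hI _ _ ay as)]
  have j1 : ∫ y in (-s)..(-yi x), HF (x, y) = 0 := by
    rw [intervalIntegral.integral_congr_ae (g := fun _ => (0 : ℝ))]
    · simp
    · have : ∀ᵐ y : ℝ, y ≠ -yi x := by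
        rw [ae_iff]; simp
      filter_upwards [this] with y hy hm using e2 y hm hy
  have j3 : ∫ y in (yi x)..s, HF (x, y) = 0 := by
    rw [intervalIntegral.integral_congr_ae (g := fun _ => (0 : ℝ))
      (Filter.Eventually.of_forall e3)]
    simp
  have j2 : ∫ y in (-yi x)..(yi x), HF (x, y)
      = (1 - c3 * Real.pi / 3) / (1 + x ^ 2) := by
    rw [intervalIntegral.integral_congr_ae (Filter.Eventually.of_forall e1),
      intervalIntegral.integral_eq_sub_of_hasDerivAt (fun y _ => hder y)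
        (hcont.intervalIntegrable _ _)]
    have h3 : √3 ^ 2 = 3 := Real.sq_sqrt (by norm_num)
    have h30 : 0 < √3 := by positivity
    have hn : nr (AA x) (yi x) = 2 * yi x := by
      unfold nr
      rw [show AA x ^ 2 + yi x ^ 2 = (2 * yi x) ^ 2 by rw [hr2]; linarith [yi_sq x]]
      exact Real.sqrt_sq (by positivity)
    have hn' : nr (AA x) (-yi x) = 2 * yi x := by
      rw [← hn]; unfold nr; rw [neg_sq]
    have hat : Real.arctan (yi x / AA x) = Real.pi / 6 := by
      rw [show yi x / AA x = Real.tan (Real.pi / 6) by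
        rw [Real.tan_pi_div_six]
        unfold yi
        field_simp]
      exact Real.arctan_tan (by linarith [Real.pi_pos]) (by linarith [Real.pi_pos])
    have hat' : Real.arctan (-yi x / AA x) = -(Real.pi / 6) := by
      rw [neg_div, Real.arctan_neg, hat]
    rw [hn, hn', hat, hat', ← hr2]
    have hy0 := hyi.ne'
    field_simp
    ring
  rw [j1, j2, j3]
  ring

theorem St_f1_eq : St f1 = (1 - c3 * Real.pi / 3) * ∫ x in (-s)..s, 1 / (1 + x ^ 2) := by
  rw [St_f1_swap]
  have hi := HF_good.int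
  unfold SQ at hi ⊢
  rw [Measure.volume_eq_prod] at hi ⊢
  rw [setIntegral_prod _ hi, ← intervalIntegral.integral_const_mul,
    intervalIntegral.integral_of_le (by linarith [s_pos]), integral_Ioc_eq_integral_Ioo]
  refine setIntegral_congr_fun measurableSet_Ioo fun x hx => ?_
  have hx' : |x| ≤ s := abs_le.2 ⟨hx.1.le, hx.2.le⟩
  have h := HF_line hx'
  rw [intervalIntegral.integral_of_le (by linarith [s_pos]), integral_Ioc_eq_integral_Ioo] at h
  rw [h]
  ring

theorem int_le : ∫ x in (-s)..s, 1 / (1 + x ^ 2) ≤ 2 * (s - s ^ 3 / 3 + s ^ 5 / 5) := by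
  have hs := s_pos
  have hder : ∀ x : ℝ, HasDerivAt (fun x => x - x ^ 3 / 3 + x ^ 5 / 5) (1 - x ^ 2 + x ^ 4) x := by
    intro x
    have h1 := hasDerivAt_id x
    have h2 := (hasDerivAt_pow 3 x).div_const 3
    have h3 := (hasDerivAt_pow 5 x).div_const 5
    refine ((h1.sub h2).add h3).congr_deriv ?_
    norm_num
  have h2 : ∫ x in (-s)..s, (1 - x ^ 2 + x ^ 4) = 2 * (s - s ^ 3 / 3 + s ^ 5 / 5) := by
    rw [intervalIntegral.integral_eq_sub_of_hasDerivAt (fun x _ => hder x)
      (by apply Continuous.intervalIntegrable; fun_prop)]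
    ring
  rw [← h2]
  refine intervalIntegral.integral_mono_on (by linarith) ?_ ?_ ?_
  · refine ContinuousOn.intervalIntegrable (Continuous.continuousOn ?_)
    exact continuous_const.div (by fun_prop) (fun x => by positivity)
  · apply Continuous.intervalIntegrable; fun_prop
  · intro x _
    rw [div_le_iff₀ (by positivity)]
    nlinarith [sq_nonneg (x ^ 3)]

theorem St_f1_le : St f1 ≤ 0.117 := by
  rw [St_f1_eq]
  have hs := s_pos
  have hs2 := s_sq
  have h1 := int_le
  have e : 2 * (s - s ^ 3 / 3 + s ^ 5 / 5) = 53 / 30 * s := by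
    rw [show s ^ 3 = s ^ 2 * s by ring, show s ^ 5 = (s ^ 2) ^ 2 * s by ring, hs2]; ring
  rw [e] at h1
  have hs3 : s ≤ 0.7072 := by
    by_contra hc; push Not at hc; nlinarith
  have hc3 : 0.866 ≤ c3 := by
    by_contra hc; push Not at hc; nlinarith [c3_sq, c3_pos]
  have hpi := Real.pi_gt_d2
  have hpos : 0 ≤ 1 - c3 * Real.pi / 3 := by
    have hc4 : c3 ≤ 0.8661 := by
      by_contra hc; push Not at hc; nlinarith [c3_sq, c3_pos]
    have hpi2 := Real.pi_lt_d2
    have := mul_le_mul hc4 hpi2.le Real.pi_pos.le (by norm_num)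
    linarith
  have hup : 1 - c3 * Real.pi / 3 ≤ 0.0936 := by
    have := mul_le_mul hc3 hpi.le (by norm_num) c3_pos.le
    linarith
  calc (1 - c3 * Real.pi / 3) * ∫ x in (-s)..s, 1 / (1 + x ^ 2)
      ≤ (1 - c3 * Real.pi / 3) * (53 / 30 * s) := mul_le_mul_of_nonneg_left h1 hpos
    _ ≤ 0.0936 * (53 / 30 * s) := mul_le_mul_of_nonneg_right hup (by positivity)
    _ ≤ 0.117 := by nlinarith

end Helper52.MEI
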