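import Pool.Agent.Helper52.MEI.F3
import Pool.Agent.Helper41.MEI.S0

/-!
# Project MEI, row F: the area of the upper end
-/

namespace Helper52.MEI

open Set MeasureTheory Filter Topology Helper22.MEI Helper14.CW.Geo Helper75.MEI

theorem St_f0_eq : St f0 = ∫ p in SQ \ mid, 1 / NN p ^ 3 := by
  have hm : MeasurableSet (SQ \ mid) := SQ_meas.diff mid_meas
  have h1 : ∫ p in SQ \ mid, 1 / NN p ^ 3
      = ∫ p in SQ, (SQ \ mid).indicator (fun p => 1 / NN p ^ 3) p := by
    rw [setIntegral_indicator hm, inter_eq_self_of_subset_right sdiff_subset]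
  rw [h1]
  unfold St
  refine setIntegral_congr_ae SQ_meas ?_
  filter_upwards [ae_iface] with p hp hS
  have hn := NN_ne p
  rcases lt_or_gt_of_ne hp with h | h
  · rw [hd_f0_mid h, mul_zero, indicator_of_notMem]
    intro hc
    exact hc.2 h.le
  · rw [hd_f0_lens h, indicator_of_mem (show p ∈ SQ \ mid from ⟨hS, fun hc => absurd hc (not_le.2 h)⟩)]
    field_simp

theorem St_f0_le : St f0 ≤ 0.13 := by
  rw [St_f0_eq]
  have := Helper41.MEI.lens_int_le
  norm_num at this ⊢
  linarith

theorem St_f0_ge : 0.127 ≤ St f0 := by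
  rw [St_f0_eq]
  have := Helper41.MEI.lens_int_ge
  norm_num at this ⊢
  linarith

end Helper52.MEI
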