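import Pool.Agent.Helper52.MEI.M1

/-!
# Project MEI: sharper numbers, `v_L ≥ 0.0007`
-/

namespace Helper52.MEI

open Set MeasureTheory Filter Topology Helper22.MEI Helper75.MEI

theorem St_f0_ge' : 0.1283 ≤ St f0 := by
  rw [St_f0_eq, Helper41.MEI.lens_int]
  have hs := s_pos
  have h0 : (7071 / 10000 : ℝ) ≤ s := by nlinarith [s_sq]
  have h1 : (6428 / 100000 : ℝ) ≤ s / 11 := by linarith
  have hmono : Real.arctan (6428 / 100000) ≤ Real.arctan (s / 11) :=
    Real.arctan_strictMono.monotone h1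
  have hder : ∀ x : ℝ, HasDerivAt (fun x => Real.arctan x - (x - x ^ 3 / 3))
      (1 / (1 + x ^ 2) - (1 - x ^ 2)) x := by
    intro x
    have h2 := (hasDerivAt_pow 3 x).div_const 3
    have h3 := (hasDerivAt_id x).sub h2
    refine ((Real.hasDerivAt_arctan x).sub h3).congr_deriv ?_
    norm_num
  have hm : MonotoneOn (fun x : ℝ => Real.arctan x - (x - x ^ 3 / 3)) (Ici 0) := by
    refine monotoneOn_of_deriv_nonneg (convex_Ici 0) ?_ ?_ ?_
    · exact fun x _ => (hder x).continuousAt.continuousWithinAt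
    · exact fun x _ => (hder x).differentiableAt.differentiableWithinAt
    · intro x _
      rw [(hder x).deriv, sub_nonneg, le_div_iff₀ (by positivity)]
      nlinarith [sq_nonneg (x ^ 2)]
  have h4 := hm (mem_Ici.2 le_rfl) (mem_Ici.2 (by norm_num : (0 : ℝ) ≤ 6428 / 100000))
    (by norm_num)
  simp only [Real.arctan_zero] at h4
  norm_num at h4 ⊢
  linarith

theorem int_le' : ∫ x in (-s)..s, 1 / (1 + x ^ 2)
    ≤ 2 * (s - s ^ 3 / 3 + s ^ 5 / 5 - s ^ 7 / 7 + s ^ 9 / 9) := by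
  have hs := s_pos
  have hder : ∀ x : ℝ, HasDerivAt (fun x => x - x ^ 3 / 3 + x ^ 5 / 5 - x ^ 7 / 7 + x ^ 9 / 9)
      (1 - x ^ 2 + x ^ 4 - x ^ 6 + x ^ 8) x := by
    intro x
    have h1 := hasDerivAt_id x
    have h2 := (hasDerivAt_pow 3 x).div_const 3
    have h3 := (hasDerivAt_pow 5 x).div_const 5
    have h4 := (hasDerivAt_pow 7 x).div_const 7
    have h5 := (hasDerivAt_pow 9 x).div_const 9
    refine ((((h1.sub h2).add h3).sub h4).add h5).congr_deriv ?_
    norm_num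
  have h2 : ∫ x in (-s)..s, (1 - x ^ 2 + x ^ 4 - x ^ 6 + x ^ 8)
      = 2 * (s - s ^ 3 / 3 + s ^ 5 / 5 - s ^ 7 / 7 + s ^ 9 / 9) := by
    rw [intervalIntegral.integral_eq_sub_of_hasDerivAt (fun x _ => hder x)
      (by apply Continuous.intervalIntegrable; fun_prop)]
    ring
  rw [← h2]
  refine intervalIntegral.integral_mono_on (by linarith) ?_ ?_ ?_
  · refine ContinuousOn.intervalIntegrable (Continuous.continuousOn ?_)
    exact continuous_const.div (by fun_prop) (fun x => by positivity)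
  · apply Continuous.intervalIntegrable; fun_prop
  · intro x _
    rw [div_le_iff₀ (by positivity)]
    have e : (1 - x ^ 2 + x ^ 4 - x ^ 6 + x ^ 8) * (1 + x ^ 2) = 1 + x ^ 10 := by ring
    rw [e]
    have : 0 ≤ x ^ 10 := by positivity
    linarith

theorem St_f1_le' : St f1 ≤ 0.115 := by
  rw [St_f1_eq]
  have hs := s_pos
  have hs2 := s_sq
  have h1 := int_le'
  have e : 2 * (s - s ^ 3 / 3 + s ^ 5 / 5 - s ^ 7 / 7 + s ^ 9 / 9) = 2 * (4397 / 5040) * s := by
    rw [show s ^ 3 = s ^ 2 * s by ring, show s ^ 5 = (s ^ 2) ^ 2 * s by ring,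
      show s ^ 7 = (s ^ 2) ^ 3 * s by ring, show s ^ 9 = (s ^ 2) ^ 4 * s by ring, hs2]; ring
  rw [e] at h1
  have hs3 : s ≤ 0.70711 := by
    by_contra hc; push Not at hc; nlinarith
  have hc3 : 0.86602 ≤ c3 := by
    by_contra hc; push Not at hc; nlinarith [c3_sq, c3_pos]
  have hpi := Real.pi_gt_d4
  have hpos : 0 ≤ 1 - c3 * Real.pi / 3 := by
    have hc4 : c3 ≤ 0.8661 := by
      by_contra hc; push Not at hc; nlinarith [c3_sq, c3_pos]
    have hpi2 := Real.pi_lt_d2
    have := mul_le_mul hc4 hpi2.le Real.pi_pos.le (by norm_num)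
    linarith
  have hup : 1 - c3 * Real.pi / 3 ≤ 0.09314 := by
    have := mul_le_mul hc3 hpi.le (by norm_num) c3_pos.le
    norm_num at this ⊢
    linarith
  calc (1 - c3 * Real.pi / 3) * ∫ x in (-s)..s, 1 / (1 + x ^ 2)
      ≤ (1 - c3 * Real.pi / 3) * (2 * (4397 / 5040) * s) := mul_le_mul_of_nonneg_left h1 hpos
    _ ≤ 0.09314 * (2 * (4397 / 5040) * s) := mul_le_mul_of_nonneg_right hup (by positivity)
    _ ≤ 0.115 := by nlinarith

/-- the lens volume -/
theorem vL_ge : 0.0007 ≤ Vt f0 - Vt f1 := by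
  have A0' := Helper55.MEI.adm_f0
  have A1' := Helper55.MEI.adm_f1
  have l1 : ∀ p ∈ SQ, f1 p ≤ f0 p := fun p hp => A1'.le_f0 (mem_SQ hp).1
  have b := flux_le A1' A0' l1
  have hT0 := Tf_f0
  have hT1 := Tf_f1
  have h0 := St_f0_ge'
  have h1 := St_f1_le'
  unfold Tf at hT0 hT1
  norm_num at *
  linarith

end Helper52.MEI
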