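import Mathlib

/-!
# Project MEI, M2: elementary lemmas for the pairs and for the face cells
-/

namespace Helper52.MEI

/-- the pair lemma of helper88: `986 a b - 0.26 (v - a) + 0.4 (v - a - b) ≥ 0` -/
theorem pair_lemma {a b v : ℝ} (hb : 0 ≤ b) (hab : b ≤ a) (hav : a ≤ v) (hv : 0.00053 ≤ v) :
    0 ≤ 986 * (a * b) - 0.26 * (v - a) + 0.4 * (v - a - b) := by
  have e : 986 * (a * b) - 0.26 * (v - a) + 0.4 * (v - a - b)
      = b * (986 * a - 0.4) + 0.14 * (v - a) := by ring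
  rw [e]
  rcases le_total 0.4 (986 * a) with h | h
  · have h1 := mul_nonneg hb (sub_nonneg.2 h)
    linarith
  · have h1 : a * (986 * a - 0.4) ≤ b * (986 * a - 0.4) :=
      mul_le_mul_of_nonpos_right hab (by linarith)
    have h2 : 0 ≤ 986 * (a - 0.54 / (2 * 986)) ^ 2 := by positivity
    nlinarith

/-- both orders: with `max` and `min` -/
theorem pair_lemma' {l l' v : ℝ} (h0 : 0 ≤ l) (h0' : 0 ≤ l') (hv1 : l ≤ v) (hv2 : l' ≤ v)
    (hv : 0.00053 ≤ v) :
    0 ≤ 986 * (l * l') - 0.26 * (v - max l l') + 0.4 * (v - l - l') := by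
  rcases le_total l l' with h | h
  · rw [max_eq_right h]
    have := pair_lemma h0 h hv2 hv
    linarith
  · rw [max_eq_left h]
    exact pair_lemma h0' h hv1 hv

/-- equality only at the ends -/
theorem pair_lemma_eq {a b v : ℝ} (hb : 0 ≤ b) (hab : b ≤ a) (hav : a ≤ v) (hv : 0.00053 ≤ v)
    (h : 986 * (a * b) - 0.26 * (v - a) + 0.4 * (v - a - b) = 0) : a = v ∧ b = 0 := by
  have e : 986 * (a * b) - 0.26 * (v - a) + 0.4 * (v - a - b)
      = b * (986 * a - 0.4) + 0.14 * (v - a) := by ring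
  rw [e] at h
  rcases lt_or_ge 0.4 (986 * a) with h1 | h1
  · have h2 := mul_nonneg hb (sub_nonneg.2 h1.le)
    have h3 : v - a = 0 := by nlinarith
    have h4 : b * (986 * a - 0.4) = 0 := by nlinarith
    rcases mul_eq_zero.1 h4 with h5 | h5
    · exact ⟨by linarith, h5⟩
    · linarith
  · exfalso
    have h1 : a * (986 * a - 0.4) ≤ b * (986 * a - 0.4) :=
      mul_le_mul_of_nonpos_right hab (by linarith)
    have h2 : 0 ≤ 986 * (a - 0.54 / (2 * 986)) ^ 2 := by positivity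
    nlinarith

section inner

variable {E : Type*} [NormedAddCommGroup E] [InnerProductSpace ℝ E]

open scoped RealInnerProductSpace

/-- exact coupling in a face cell -/
theorem face_coupling {a : Fin 4 → E} {b : Fin 4 → ℝ} {p q : E} (i : Fin 4)
    (hp : p = ∑ j, b j • a j) (hb : ∑ j, b j = 1) (h1 : ‖p - q‖ = 1) :
    (‖p - a i‖ ^ 2 - 1) + ‖a i - q‖ ^ 2 = 2 * ∑ j, b j * ⟪a i - q, a i - a j⟫ := by
  have h2 : ‖p - q‖ ^ 2 = ‖p - a i‖ ^ 2 + 2 * ⟪p - a i, a i - q⟫ + ‖a i - q‖ ^ 2 := by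
    rw [← norm_add_sq_real]
    congr 2
    abel
  rw [h1] at h2
  have h3 : p - a i = ∑ j, b j • (a j - a i) := by
    simp only [smul_sub, Finset.sum_sub_distrib, ← Finset.sum_smul, hb, one_smul, hp]
  have h4 : ⟪p - a i, a i - q⟫ = -∑ j, b j * ⟪a i - q, a i - a j⟫ := by
    rw [h3, sum_inner, ← Finset.sum_neg_distrib]
    refine Finset.sum_congr rfl fun j _ => ?_
    rw [real_inner_smul_left, real_inner_comm, ← neg_sub (a i) (a j), inner_neg_right]
    ring
  rw [h4] at h2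
  linarith

/-- every other point pays -/
theorem face_coupling_le {a : Fin 4 → E} {b : Fin 4 → ℝ} {p q : E} (i : Fin 4)
    (hp : p = ∑ j, b j • a j) (hb : ∑ j, b j = 1) (h1 : ‖p - q‖ ≤ 1) :
    (‖p - a i‖ ^ 2 - 1) + ‖a i - q‖ ^ 2 ≤ 2 * ∑ j, b j * ⟪a i - q, a i - a j⟫ := by
  have h2 : ‖p - q‖ ^ 2 = ‖p - a i‖ ^ 2 + 2 * ⟪p - a i, a i - q⟫ + ‖a i - q‖ ^ 2 := by
    rw [← norm_add_sq_real]
    congr 2
    abel
  have h5 : ‖p - q‖ ^ 2 ≤ 1 := by
    have := norm_nonneg (p - q)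
    nlinarith
  have h3 : p - a i = ∑ j, b j • (a j - a i) := by
    simp only [smul_sub, Finset.sum_sub_distrib, ← Finset.sum_smul, hb, one_smul, hp]
  have h4 : ⟪p - a i, a i - q⟫ = -∑ j, b j * ⟪a i - q, a i - a j⟫ := by
    rw [h3, sum_inner, ← Finset.sum_neg_distrib]
    refine Finset.sum_congr rfl fun j _ => ?_
    rw [real_inner_smul_left, real_inner_comm, ← neg_sub (a i) (a j), inner_neg_right]
    ring
  rw [h4] at h2
  linarith

end inner

end Helper52.MEI
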