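import Pool.Agent.Helper52.MEI.F4
import Pool.Agent.Helper75.MEI.VL
import Pool.Agent.Helper22.MEI.Main

/-!
# Project MEI: the analytic inequality M1A and the class T theorem, all rows together
-/

namespace Helper52.MEI

open Helper22.MEI Helper75.MEI MeasureTheory Helper80.CW Helper82.CW

/-- row F -/
theorem st_F : ST_F :=
  ⟨Tf_f0, Tf_f1, al_f0, St_f0_le, vL_of Tf_f0 Tf_f1 St_f0_ge St_f1_le⟩

/-- the analytic inequality -/
theorem m1A : M1A := M1A_of' Tf_f0 Tf_f1 al_f0 St_f0_ge St_f0_le St_f1_le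

/-- every body of constant width `1` which contains a regular tetrahedron of edge `1` has at least
the volume of the Meissner bodies -/
theorem class_T_vol {K : Set E3} (hK : IsCompact K) (hc : Convex ℝ K)
    (hw : Width1 K) {a : Fin 4 → E3} (ha : ∀ i, a i ∈ K)
    (hd : ∀ i j, i ≠ j → dist (a i) (a j) = 1) :
    ENNReal.ofReal (Real.pi * (2 / 3 - √3 / 4 * Real.arccos (1 / 3))) ≤ volume K :=
  class_T_of_M1A m1A hK hc hw ha hd

end Helper52.MEI
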