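import Pool.Agent.Helper52.MEI.Strip
import Pool.Agent.Helper93.MEI.Side

/-!
# The strip bound in pair language, finitely many loss points
-/

set_option autoImplicit false

namespace Pool.Agent.Helper52.MEI

open Set Helper80.CW Helper14.CW Helper93.MEI
open scoped RealInnerProductSpace

variable {a : Fin 4 → E3}

/-- **(POINT), second bound**: `c k = b k (p) - Σ α m b k (z m) ≥ c ≥ 0`, `Q k q ≤ v` -/
theorem point_strip (h : Gram4 (al a)) {ι : Type*} (S : Finset ι) (α : ι → ℝ) (z : ι → E3)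
    {p q : E3} {A κ v r k c : ℝ} (hA : 0 ≤ A) (hκ : 0 ≤ κ) (hα : ∀ m ∈ S, 0 ≤ α m)
    (hα1 : ∑ m ∈ S, α m ≤ 1) (hz : ∀ m ∈ S, ‖z m - q‖ ≤ 1) (hpq : ‖p - q‖ = 1) (hq : Pl a q)
    (hk : 3 * k ^ 2 = 2) (hk0 : 0 ≤ k) (hr : 0 ≤ r) (hv : v = r ^ 2)
    (hsm : 3 / 4 * (‖a 0 - q‖ ^ 2 - v) + k * r ≤ 2) (hc : 0 ≤ c)
    (h1 : c ≤ bar a 1 p - ∑ m ∈ S, α m * bar a 1 (z m))
    (h2 : c ≤ bar a 2 p - ∑ m ∈ S, α m * bar a 2 (z m))
    (h3 : c ≤ bar a 3 p - ∑ m ∈ S, α m * bar a 3 (z m))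
    (v1 : Qv a 1 q ≤ v) (v2 : Qv a 2 q ≤ v) (v3 : Qv a 3 q ≤ v) :
    A * ∑ m ∈ S, α m * Qv a 0 (z m) -
      (max 0 ((A * (1 - ∑ m ∈ S, α m) + κ) * v - 2 * A * k * c * r) +
        max 0 (κ - A * (- bar a 0 p - ∑ m ∈ S, α m * (- bar a 0 (z m)))) *
          max 0 (‖a 0 - q‖ ^ 2 - v)) ≤ A * Qv a 0 p - κ * ‖a 0 - q‖ ^ 2 := by
  have e0 := face_id h p q
  rw [hpq] at e0
  have hd := norm_d_sq h q
  rw [Qv_yv h (by decide) q] at v1 v2 v3
  have y1 := yv_nonneg hq (i := 0) (j := 1) (by decide)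
  have y2 := yv_nonneg hq (i := 0) (j := 2) (by decide)
  have y3 := yv_nonneg hq (i := 0) (j := 3) (by decide)
  have hE : 0 ≤ A * (1 - ∑ m ∈ S, α m) + κ := add_nonneg (mul_nonneg hA (by linarith)) hκ
  have hw : ‖a 0 - q‖ ^ 2 = 3 / 2 * (yv a 0 1 q ^ 2 + yv a 0 2 q ^ 2 + yv a 0 3 q ^ 2) -
      (yv a 0 1 q * yv a 0 2 q + yv a 0 1 q * yv a 0 3 q + yv a 0 2 q * yv a 0 3 q) := by
    rw [hd]
    ring
  have key := strip (E := A * (1 - ∑ m ∈ S, α m) + κ) (A := A) (k := k) (r := r) (v := v)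
    (w := ‖a 0 - q‖ ^ 2) (c := c) hE hA hk hk0 hr hv hsm hc h1 h2 h3 y1 y2 y3
    (by linarith) (by linarith) (by linarith) hw
  -- the couplings
  have e1 : ∑ m ∈ S, α m * Qv a 0 (z m) + (∑ m ∈ S, α m) * ‖a 0 - q‖ ^ 2 ≤
      2 * ((∑ m ∈ S, α m * bar a 1 (z m)) * yv a 0 1 q +
        (∑ m ∈ S, α m * bar a 2 (z m)) * yv a 0 2 q +
        (∑ m ∈ S, α m * bar a 3 (z m)) * yv a 0 3 q) := by
    rw [Finset.sum_mul, Finset.sum_mul, Finset.sum_mul, Finset.sum_mul,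
      ← Finset.sum_add_distrib, ← Finset.sum_add_distrib, ← Finset.sum_add_distrib,
      Finset.mul_sum]
    apply Finset.sum_le_sum
    intro m hm
    have := mul_le_mul_of_nonneg_left (face_coupling h (hz m hm)) (hα m hm)
    linarith
  have hsum : bar a 1 p - ∑ m ∈ S, α m * bar a 1 (z m) +
      (bar a 2 p - ∑ m ∈ S, α m * bar a 2 (z m)) +
      (bar a 3 p - ∑ m ∈ S, α m * bar a 3 (z m)) =
      (1 - ∑ m ∈ S, α m) + (- bar a 0 p - ∑ m ∈ S, α m * (- bar a 0 (z m))) := by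
    have g1 := bar_sum h p
    have g2 : ∑ m ∈ S, α m * bar a 1 (z m) + ∑ m ∈ S, α m * bar a 2 (z m) +
        ∑ m ∈ S, α m * bar a 3 (z m) - ∑ m ∈ S, α m * (- bar a 0 (z m)) = ∑ m ∈ S, α m := by
      rw [← Finset.sum_add_distrib, ← Finset.sum_add_distrib, ← Finset.sum_sub_distrib]
      apply Finset.sum_congr rfl
      intro m _
      have g3 := bar_sum h (z m)
      have e : α m * bar a 1 (z m) + α m * bar a 2 (z m) + α m * bar a 3 (z m) -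
          α m * (- bar a 0 (z m)) =
          α m * (bar a 0 (z m) + bar a 1 (z m) + bar a 2 (z m) + bar a 3 (z m)) := by ring
      rw [e, g3, mul_one]
    linarith
  have e2 : (A * (1 - ∑ m ∈ S, α m) + κ) - A * (bar a 1 p - ∑ m ∈ S, α m * bar a 1 (z m) +
      (bar a 2 p - ∑ m ∈ S, α m * bar a 2 (z m)) +
      (bar a 3 p - ∑ m ∈ S, α m * bar a 3 (z m))) =
      κ - A * (- bar a 0 p - ∑ m ∈ S, α m * (- bar a 0 (z m))) := by
    rw [hsum]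
    ring
  rw [e2] at key
  have e3 := mul_le_mul_of_nonneg_left e1 hA
  have e4 : Qv a 0 p = 2 * (bar a 1 p * yv a 0 1 q + bar a 2 p * yv a 0 2 q +
      bar a 3 p * yv a 0 3 q) - ‖a 0 - q‖ ^ 2 := by linarith
  rw [e4]
  nlinarith [key, e3]

end Pool.Agent.Helper52.MEI
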