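import Pool.Agent.Helper73.MEI.FX1
import Pool.Agent.Helper72.MEI.Rr3
import Pool.Agent.Helper96.MEI.Rr4

/-!
# Project MEI (M2): the arcs of a face in `face_numX`

`hf l` = functions inside of the cone, `κ = kap` = strips; moments `ρ p k` per end, `ρm p` their
maximum; `β p` = part paid in the strips. Rows of the residual bounds `wc3`, `wc4`.
-/

set_option autoImplicit false

namespace Pool.Agent.Helper52.MEI.Pack

open Set Metric MeasureTheory Helper80.CW Helper82.CW Helper14.CW Helper93.MEI Helper82.M2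
open Helper14.MEI2 Pool.Agent.Helper52.MEI Pool.Agent.Helper73.MEI Helper37.MEI Helper41.MEI
open Helper33.MEI (Wi)
open Pool.Agent.Helper55.Sx (Sim Sim_meas mm mm_pos)
open Pool.Agent.Helper55.Mass (LN vv vv_nonneg vv_le B0 B0_ge Id Id_const intOn)
open Pool.Agent.Helper55.Apex (nc)
open Pool.Agent.Helper55.ApexP (PN alP mu_bal)
open Pool.Agent.Helper55.Fill (xx rr rr_nonneg xx_nonneg)
open Pool.Agent.Helper96.Kap (kap kap_meas kap_nonneg kap_le_one kap_add)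
open Pool.Agent.Helper31.SR
open Helper78.MEI
open Pool.Agent.Helper73.MEI.ArCor
open Helper75.MEI2 (mu vt)
open scoped RealInnerProductSpace ENNReal

/-! ### rows of the residual bounds -/

/-- first order value of the wall constant -/
theorem wc3_le1 {N : Fin 3 → Fin 3 → ℝ} (hN : ∀ k m, 0 ≤ N k m) {j l k : Fin 3}
    (h1 : N l j + N k j ≤ 1) :
    Pool.Agent.Helper72.Ov.wc3 N j l k ≤
      0.1673 * (N l j + N k j) + 0.0933 * (N l k + N k l) := by
  have a0 := hN l j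
  have a1 := hN k j
  have a2 := hN l k
  have a3 := hN k l
  have p0 := mul_nonneg a0 a1
  have p1 := mul_nonneg a0 a2
  have p2 := mul_nonneg a1 a3
  have p3 : 0 ≤ (N l j * N k j) * (1 - 0.76 * (N l j + N k j)) := by
    refine mul_nonneg p0 ?_
    linarith
  unfold Pool.Agent.Helper72.Ov.wc3 Pool.Agent.Helper98.Wall2.J2
  nlinarith [sq_nonneg (N l j), sq_nonneg (N k j), sq_nonneg (N l k), sq_nonneg (N k l)]

theorem P3_le1 {a b p q n : ℝ} (ha : 0 ≤ a) (hb : 0 ≤ b) (hp : 0 ≤ p) (hq : 0 ≤ q)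
    (hn : n ≤ 9 / 25) (h1 : a + q ≤ n) (h2 : b + p ≤ n) :
    Pool.Agent.Helper96.Rr4.P3 a b p q ≤ 0.1673 * a + 0.0933 * b := by
  have hpq : p * q ≤ 0.13 := by nlinarith
  have hpq0 : 0 ≤ p * q := mul_nonneg hp hq
  have k1 : 0 ≤ b * q * (0.1661 - 0.0933 * p - (1 + p * q) * (0.1617 * a + 0.0638 * b)
      - 0.1768 * q) := by
    refine mul_nonneg (mul_nonneg hb hq) ?_
    nlinarith [mul_nonneg hpq0 ha, mul_nonneg hpq0 hb]
  have k2 : 0 ≤ a * p * (0.0923 - 0.1673 * q - (1 + p * q) * (0.0638 * a + 0.0638 * b)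
      - 0.059 * p ^ 2) := by
    refine mul_nonneg (mul_nonneg ha hp) ?_
    nlinarith [mul_nonneg hpq0 ha, mul_nonneg hpq0 hb]
  have k3 : 0 ≤ b * q ^ 2 * q := by positivity
  have k4 : 0 ≤ a * b := mul_nonneg ha hb
  unfold Pool.Agent.Helper96.Rr4.P3
  nlinarith [sq_nonneg a, sq_nonneg b]

theorem wc4_le1 {N : Fin 3 → Fin 3 → ℝ} (hN : ∀ k m, 0 ≤ N k m) {j l k : Fin 3}
    (hj : N l j + N k j ≤ 9 / 25) (hl : N j l + N k l ≤ 9 / 25) (hk : N j k + N l k ≤ 9 / 25) :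
    Pool.Agent.Helper96.Rr4.wc4 N j l k ≤
      0.1673 * (N l j + N k j) + 0.0933 * (N l k + N k l) := by
  have k1 := P3_le1 (hN l j) (hN l k) (hN j k) (hN k j) le_rfl hj (by linarith)
  have k2 := P3_le1 (hN k j) (hN k l) (hN j l) (hN l j) le_rfl (by linarith) (by linarith)
  have p3 : 0 ≤ (N l j * N k j) * (1 - 0.76 * (N l j + N k j)) := by
    refine mul_nonneg (mul_nonneg (hN l j) (hN k j)) ?_
    linarith
  unfold Pool.Agent.Helper96.Rr4.wc4
  linarith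

/-- **the row condition**: it is enough that all six leaks together are at most `1` -/
theorem row_ok {N : Fin 3 → Fin 3 → ℝ} (hN : ∀ k m, 0 ≤ N k m)
    (hT : N 0 1 + N 0 2 + N 1 0 + N 1 2 + N 2 0 + N 2 1 ≤ 1) {r : Fin 3 → ℝ}
    (hr : ∀ k, r k ≤ wN N k) (k : Fin 3) : B0 * rowN N k + r k ≤ B0 := by
  have hB := B0_ge
  have a01 := hN 0 1
  have a02 := hN 0 2
  have a10 := hN 1 0
  have a12 := hN 1 2
  have a20 := hN 2 0
  have a21 := hN 2 1
  have hk := hr k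
  have hm := mul_le_mul_of_nonneg_left hT (by linarith : (0 : ℝ) ≤ B0)
  have m1 := mul_nonneg (sub_nonneg.2 hB) a01
  have m2 := mul_nonneg (sub_nonneg.2 hB) a02
  have m3 := mul_nonneg (sub_nonneg.2 hB) a10
  have m4 := mul_nonneg (sub_nonneg.2 hB) a12
  have m5 := mul_nonneg (sub_nonneg.2 hB) a20
  have m6 := mul_nonneg (sub_nonneg.2 hB) a21
  revert hk
  unfold wN rowN
  fin_cases k
  · simp only [Fin.zero_eta, zero_add]
    intro hk
    linarith
  · simp only [Fin.mk_one, show (1 : Fin 3) + 1 = 2 from rfl, show (1 : Fin 3) + 2 = 0 from rfl]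
    intro hk
    linarith
  · simp only [Fin.reduceFinMk, show (2 : Fin 3) + 1 = 0 from rfl,
      show (2 : Fin 3) + 2 = 1 from rfl]
    intro hk
    linarith

/-! ### the weights of the arcs -/

section arcs

variable {N : Fin 3 → Fin 3 → ℝ} {hf : Fin 3 → ℝ × ℝ → ℝ} {β ρm : Fin 3 → ℝ}
  {ρ : Fin 3 → Fin 3 → ℝ} {A' : ℝ}

/-- the strips of the face -/
noncomputable def kp (N : Fin 3 → Fin 3 → ℝ) (p : Fin 3) (t : ℝ × ℝ) : ℝ := kap N (vv t) p

/-- weight of the arcs inside of the cone -/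
noncomputable def wa (hf : Fin 3 → ℝ × ℝ → ℝ) (β : Fin 3 → ℝ) (A' : ℝ) : Fin 3 → ℝ × ℝ → ℝ :=
  ash hf (fun l => Id (hf l)) β A'

/-- weight of the arcs in the strips -/
noncomputable def wg (N : Fin 3 → Fin 3 → ℝ) (β : Fin 3 → ℝ) (A' : ℝ) : Fin 3 → ℝ × ℝ → ℝ :=
  ast (kp N) (fun l => Id (kp N l)) β A'

theorem wa_meas (hfm : ∀ l, Measurable (hf l)) (l : Fin 3) : Measurable (wa hf β A' l) := by
  unfold wa ash
  exact ((hfm l).div_const _).const_mul _

theorem wa_nonneg (hA' : 0 < A') (hβ1 : ∀ l, β l ≤ 1) (hF0 : ∀ l, 0 < Id (hf l)) {t : ℝ × ℝ}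
    (hf0 : ∀ l, 0 ≤ hf l t) (l : Fin 3) : 0 ≤ wa hf β A' l t := by
  unfold wa ash
  exact mul_nonneg (by linarith [hβ1 l]) (div_nonneg (hf0 l) (mul_pos hA' (hF0 l)).le)

theorem wa_Id (hA' : 0 < A') (hF0 : ∀ l, 0 < Id (hf l)) (l : Fin 3) :
    A' * Id (wa hf β A' l) = 1 - β l := by
  have e : wa hf β A' l = fun t => ((1 - β l) / (A' * Id (hf l))) * hf l t := by
    funext t
    unfold wa ash
    ring
  rw [e, Id_const]
  have h1 := hA'.ne'
  have h2 := (hF0 l).ne'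
  field_simp

variable (hN : ∀ k m, 0 ≤ N k m) {c : ℝ} (hc : c < 1) (hcol : ∀ m, nc N m ≤ c)
include hN hc hcol

theorem kp_nonneg {t : ℝ × ℝ} (ht : t ∈ Sim) (p : Fin 3) : 0 ≤ kp N p t :=
  kap_nonneg hN hc hcol (fun k => vv_nonneg ht k) p

theorem wg_meas (l : Fin 3) : Measurable (wg N β A' l) := by
  unfold wg ast
  exact ((kap_meas hN hc hcol l).div_const _).const_mul _

theorem kp_Id (l : Fin 3) : 0 ≤ Id (kp N l) := by
  unfold Pool.Agent.Helper55.Mass.Id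
  refine mul_nonneg (by positivity) (setIntegral_nonneg Sim_meas fun t ht => ?_)
  exact div_nonneg (kp_nonneg hN hc hcol ht l) (by positivity)

theorem wg_nonneg (hA' : 0 < A') (hβ0 : ∀ l, 0 ≤ β l) {t : ℝ × ℝ} (ht : t ∈ Sim) (l : Fin 3) :
    0 ≤ wg N β A' l t := by
  unfold wg ast
  exact mul_nonneg (hβ0 l) (div_nonneg (kp_nonneg hN hc hcol ht l)
    (mul_nonneg hA'.le (kp_Id hN hc hcol l)))

theorem wg_Id (hA' : 0 < A') (hβ0 : ∀ l, 0 ≤ β l) (hρ : ∀ l, 0 < ρm l)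
    (hK : ∀ l, β l * ρm l ≤ A' * Id (kp N l)) (l : Fin 3) : A' * Id (wg N β A' l) = β l := by
  rcases eq_or_lt_of_le (kp_Id hN hc hcol (N := N) l) with e | hpos
  · have hb : β l = 0 := by
      have h1 := hK l
      rw [← e, mul_zero] at h1
      have h2 := mul_nonneg (hβ0 l) (hρ l).le
      rcases mul_eq_zero.1 (le_antisymm h1 h2) with h | h
      · exact h
      · exact absurd h (hρ l).ne'
    have e2 : wg N β A' l = fun t => 0 * kp N l t := by
      funext t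
      unfold wg ast
      rw [hb]
      ring
    rw [e2, Id_const, hb]
    ring
  · have e2 : wg N β A' l = fun t => (β l / (A' * Id (kp N l))) * kp N l t := by
      funext t
      unfold wg ast
      ring
    rw [e2, Id_const]
    have h1 := hA'.ne'
    have h2 := hpos.ne'
    field_simp

omit hN hc hcol in
theorem wa_sum (hA' : 0 < A') (hβ1 : ∀ l, β l ≤ 1) (hF0 : ∀ l, 0 < Id (hf l))
    (hF : ∀ l, (1 - β l) * ρm l ≤ A' * Id (hf l)) (hρ0 : ∀ l, 0 ≤ ρm l)
    (hρm : ∀ l k, k ≠ l → ρ l k ≤ ρm l) {t : ℝ × ℝ} (hf0 : ∀ l, 0 ≤ hf l t) (k : Fin 3) :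
    ∑ l, wa hf β A' l t * (if k = l then 0 else ρ l k) ≤ (hf 0 t + hf 1 t + hf 2 t) - hf k t := by
  have h := ash_sum_le (hf := hf) (F := fun l => Id (hf l)) (β := β) (ρ := ρm) (A' := A')
    (M := fun l k => if k = l then 0 else ρ l k) (t := t) hf0 hA' hF0 hβ1 hF
    (fun l => if_pos rfl) (fun l k => by
      split_ifs with e
      · exact hρ0 l
      · exact hρm l k e) k
  exact h

omit hN hc hcol in
theorem sum_two_le {h : Fin 3 → ℝ} (h0 : ∀ l, 0 ≤ h l) {x : Fin 3 → ℝ}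
    (hx : ∀ k, (h 0 + h 1 + h 2) - h k ≤ x k) {C : ℝ} (hC : ∀ k, x k ≤ C) (l : Fin 3) :
    h l ≤ C := by
  have a0 := h0 0
  have a1 := h0 1
  have a2 := h0 2
  have b0 := hx 0
  have b1 := hx 1
  have b2 := hx 2
  have c0 := hC 0
  have c1 := hC 1
  have c2 := hC 2
  fin_cases l
  · show h 0 ≤ C
    linarith
  · show h 1 ≤ C
    linarith
  · show h 2 ≤ C
    linarith

/-- a common bound of the weights -/
theorem w_bound (hA' : 0 < A') (hβ0 : ∀ l, 0 ≤ β l) (hβ1 : ∀ l, β l ≤ 1)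
    (hF0 : ∀ l, 0 < Id (hf l)) (hf0 : ∀ l, ∀ t ∈ Sim, 0 ≤ hf l t)
    (hfx : ∀ t ∈ Sim, ∀ k, (hf 0 t + hf 1 t + hf 2 t) - hf k t ≤ xx N (vv t) k)
    {ap : ℝ × ℝ → ℝ} {C0 : ℝ} (hapC : ∀ t ∈ Sim, ap t ≤ C0) :
    ∃ Ca, (∀ t ∈ Sim, ap t ≤ Ca) ∧ (∀ l, ∀ t ∈ Sim, wa hf β A' l t ≤ Ca) ∧
      (∀ l, ∀ t ∈ Sim, wg N β A' l t ≤ Ca) := by
  have hx1 : ∀ t ∈ Sim, ∀ k, xx N (vv t) k ≤ 1 := fun t ht k =>
    (Pool.Agent.Helper55.Fill.xx_le hN hc hcol (fun k => vv_nonneg ht k) k).trans (vv_le ht k)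
  have hf1 : ∀ l, ∀ t ∈ Sim, hf l t ≤ 1 := fun l t ht =>
    sum_two_le (h := fun l => hf l t) (fun l => hf0 l t ht) (hfx t ht) (hx1 t ht) l
  have q : ∀ x : ℝ, 0 ≤ x → ∀ y : ℝ, 0 ≤ y → y ≤ 1 → ∀ b : ℝ, b ≤ 1 → 0 ≤ b →
      b * (y / x) ≤ 1 / x := by
    intro x hx y hy hy1 b hb hb0
    have h1 : y / x ≤ 1 / x := div_le_div_of_nonneg_right hy1 hx
    have h2 : 0 ≤ y / x := div_nonneg hy hx
    calc b * (y / x) ≤ 1 * (y / x) := mul_le_mul_of_nonneg_right hb h2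
      _ ≤ 1 / x := by rw [one_mul]; exact h1
  set A1 : Fin 3 → ℝ := fun l => 1 / (A' * Id (hf l)) with hA1
  set A2 : Fin 3 → ℝ := fun l => 1 / (A' * Id (kp N l)) with hA2
  have a1 : ∀ l, 0 ≤ A1 l := fun l => one_div_nonneg.2 (mul_pos hA' (hF0 l)).le
  have a2 : ∀ l, 0 ≤ A2 l := fun l =>
    one_div_nonneg.2 (mul_nonneg hA'.le (kp_Id hN hc hcol l))
  refine ⟨|C0| + (A1 0 + A1 1 + A1 2) + (A2 0 + A2 1 + A2 2), fun t ht => ?_, fun l t ht => ?_,
    fun l t ht => ?_⟩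
  · have := hapC t ht
    have h3 := le_abs_self C0
    have p0 := a1 0
    have p1 := a1 1
    have p2 := a1 2
    have q0 := a2 0
    have q1 := a2 1
    have q2 := a2 2
    linarith
  · have hl : wa hf β A' l t ≤ A1 l := by
      unfold wa ash
      exact q _ (mul_pos hA' (hF0 l)).le _ (hf0 l t ht) (hf1 l t ht) _ (by linarith [hβ0 l])
        (by linarith [hβ1 l])
    have h3 := abs_nonneg C0
    have p0 := a1 0
    have p1 := a1 1
    have p2 := a1 2
    have q0 := a2 0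
    have q1 := a2 1
    have q2 := a2 2
    have hs : A1 l ≤ A1 0 + A1 1 + A1 2 := by
      fin_cases l
      · show A1 0 ≤ _
        linarith
      · show A1 1 ≤ _
        linarith
      · show A1 2 ≤ _
        linarith
    linarith
  · have hl : wg N β A' l t ≤ A2 l := by
      unfold wg ast
      exact q _ (mul_nonneg hA'.le (kp_Id hN hc hcol l)) _ (kp_nonneg hN hc hcol ht l)
        (kap_le_one hN hc hcol ht l) _ (hβ1 l) (hβ0 l)
    have h3 := abs_nonneg C0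
    have p0 := a1 0
    have p1 := a1 1
    have p2 := a1 2
    have q0 := a2 0
    have q1 := a2 1
    have q2 := a2 2
    have hs : A2 l ≤ A2 0 + A2 1 + A2 2 := by
      fin_cases l
      · show A2 0 ≤ _
        linarith
      · show A2 1 ≤ _
        linarith
      · show A2 2 ≤ _
        linarith
    linarith

theorem wg_sum (hA' : 0 < A') (hβ0 : ∀ l, 0 ≤ β l)
    (hK : ∀ l, β l * ρm l ≤ A' * Id (kp N l)) (hρ0 : ∀ l, 0 ≤ ρm l)
    (hρm : ∀ l k, k ≠ l → ρ l k ≤ ρm l) {t : ℝ × ℝ} (ht : t ∈ Sim) (k : Fin 3) :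
    ∑ l, wg N β A' l t * (if k = l then 0 else ρ l k) ≤ rr N (vv t) k := by
  have h := ast_sum_le (κ := kp N) (Kp := fun l => Id (kp N l)) (β := β) (ρ := ρm) (A' := A')
    (M := fun l k => if k = l then 0 else ρ l k) (t := t) (fun l => kp_nonneg hN hc hcol ht l)
    hA' hβ0 (fun l => kp_Id hN hc hcol l) hK (fun l => if_pos rfl) (fun l k => by
      split_ifs with e
      · exact hρ0 l
      · exact hρm l k e) k
  refine h.trans ?_
  have hb : ∀ k, 0 ≤ vv t k := fun k => vv_nonneg ht k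
  unfold kp
  fin_cases k
  · have := kap_add hN hc hcol hb (j := 1) (l := 2) (k := 0) (by decide) (by decide) (by decide)
    show _ ≤ rr N (vv t) 0
    simp only [Fin.zero_eta]
    linarith
  · have := kap_add hN hc hcol hb (j := 0) (l := 2) (k := 1) (by decide) (by decide) (by decide)
    show _ ≤ rr N (vv t) 1
    simp only [Fin.mk_one]
    linarith
  · have := kap_add hN hc hcol hb (j := 0) (l := 1) (k := 2) (by decide) (by decide) (by decide)
    show _ ≤ rr N (vv t) 2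
    simp only [Fin.reduceFinMk]
    linarith

end arcs

end Pool.Agent.Helper52.MEI.Pack
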