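import Pool.Agent.Helper52.MEI.Pack

/-!
# Project MEI (M2): `face_numX` with the arcs on inside functions `hf` and on the strips
-/

set_option autoImplicit false

namespace Pool.Agent.Helper52.MEI.Pack

open Set Metric MeasureTheory Helper80.CW Helper82.CW Helper14.CW Helper93.MEI Helper82.M2
open Helper14.MEI2 Pool.Agent.Helper52.MEI Pool.Agent.Helper73.MEI Helper37.MEI Helper41.MEI
open Helper33.MEI (Wi)
open Pool.Agent.Helper55.Sx (Sim Sim_meas mm mm_pos)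
open Pool.Agent.Helper55.Mass (LN vv vv_nonneg vv_le B0 B0_ge)
open Pool.Agent.Helper55.Apex (nc)
open Pool.Agent.Helper55.ApexP (PN alP mu_bal)
open Pool.Agent.Helper55.Fill (xx rr rr_nonneg xx_nonneg)
open Pool.Agent.Helper31.SR
open Helper78.MEI
open Pool.Agent.Helper73.MEI.ArCor
open Pool.Agent.Helper73.MEI.ZEl
open Helper75.MEI2 (mu vt)
open scoped RealInnerProductSpace ENNReal

variable {a : Fin 4 → E3} {K : Set E3} {S : Fin 4 → ℝ} {σ : Measure (E3 × E3)}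
  {c : Fin 4 → E3} {z : Fin 4 → Fin 4 → E3} {X rm qm nb ρ1 Rb gg ε k1 k12 t2 δ : ℝ}

/-- **the face of the vertex `τ 0`, numbers only**: arcs on the inside functions `hf` (symmetric
filling, capacity for the larger moment `ρm p` of the two ends) and on the strips `kap`; prices with
the moments `ρ p k` of every end -/
theorem face_numH [IsFiniteMeasure σ]
    (P : Rng X rm qm nb ρ1 Rb gg ε k1 k12 t2 δ)
    (h : CN K σ a c) (v : Viol K a S) (hz : CV a K z)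
    (τ : Equiv.Perm (Fin 4)) (hX : S (τ 0) + (S (τ 1) + S (τ 2) + S (τ 3)) ≤ X)
    {A : ℝ} (hA : 7 / 2 ≤ A)
    {l : Fin 3 → Bool → Bool → E3 × E3 → ℝ} (hl : Lok a l)
    {δ3 dE dm : Fin 3 → ℝ} (hδ : ∀ p, MA σ a l τ p p ≤ δ3 p) (hdE : ∀ p, 0 ≤ dE p)
    (hdm : ∀ p, 0 ≤ dm p) (hdd : ∀ p, δ3 p ^ 2 ≤ dE p * dm p)
    {β ρm : Fin 3 → ℝ} {ρ : Fin 3 → Fin 3 → ℝ} (hMρ : ∀ p k, k ≠ p → MA σ a l τ p k ≤ ρ p k)
    (hρ0 : ∀ p, 0 < ρm p) (hρm : ∀ p k, k ≠ p → ρ p k ≤ ρm p)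
    (hβ0 : ∀ p, 0 ≤ β p) (hβ1 : ∀ p, β p ≤ 1)
    {x : E3} (hx : x ∈ K) (hxs : Qv a (τ 0) x = S (τ 0) ∨ S (τ 0) = 0)
    {N : Fin 3 → Fin 3 → ℝ} (hNd : N = NM (fun i => a (τ i)) (fun i j => z (τ i) (τ j)))
    {R : Fin 3 → ℝ} (hRd : R = RM (fun i => a (τ i)) (fun i j => z (τ i) (τ j)))
    {ap : ℝ × ℝ → ℝ} (hapm : Measurable ap) (hap0 : ∀ t ∈ Sim, 0 ≤ ap t)
    {C0 : ℝ} (hapC : ∀ t ∈ Sim, ap t ≤ C0)
    {hf : Fin 3 → ℝ × ℝ → ℝ} (hfm : ∀ l, Measurable (hf l)) (hf0 : ∀ l, ∀ t ∈ Sim, 0 ≤ hf l t)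
    (hfx0 : ∀ t ∈ Sim, ∀ k, (hf 0 t + hf 1 t + hf 2 t) - hf k t ≤ xx N (vv t) k)
    (hfx1 : ∀ t ∈ Sim, ∀ k, ap t * zc (fun i => a (τ i)) N x k +
      ((hf 0 t + hf 1 t + hf 2 t) - hf k t) ≤ xx N (vv t) k)
    (hF0 : ∀ p, 0 < Pool.Agent.Helper55.Mass.Id (hf p))
    (hF : ∀ p, (1 - β p) * ρm p ≤ (A / 2 + 1 / 8) * Pool.Agent.Helper55.Mass.Id (hf p))
    (hK : ∀ p, β p * ρm p ≤ (A / 2 + 1 / 8) * Pool.Agent.Helper55.Mass.Id (kp N p))
    {r : Fin 3 → ℝ} (hr : ∀ k, Pool.Agent.Helper55.Mass.Id (fun t => rr N (vv t) k) ≤ r k)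
    {prow : ℝ} (hprow : prow < 1) (hrow : ∀ k, rowN N k ≤ prow)
    (hrB : ∀ k, B0 * rowN N k + r k ≤ B0) :
    ∃ i j : Fin 3, i ≠ j ∧ ∀ G, 0 ≤ G →
      G ≤ (A / 2 + 1 / 8) * Pool.Agent.Helper55.Mass.Id ap →
      ∀ cst, (∀ lam, 0 ≤ lam → lam ≤ 1 → WCost a K τ (A / 2 + 1 / 8)
        (GX N (fun (_ : Unit) t => lam * ap t) (fun _ => zc (fun i => a (τ i)) N x)
          (fun _ => Qv a (τ 0) x) (wa hf β (A / 2 + 1 / 8)) (wg N β (A / 2 + 1 / 8)) (MB σ a l τ)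
          (fun p => aE σ a l (τ 0) (τ p.succ) - dE p) R (fun k => S (τ k.succ))
          (fun (_ : Empty) _ => 0) (fun _ _ => 0) (fun _ => 0))
        (DX N (fun (_ : Unit) t => lam * ap t) (fun _ => zc (fun i => a (τ i)) N x)
          (fun j => 1 / qM (fun i => a (τ i)) (fun i j => z (τ i) (τ j)) j)
          (fun _ => 1) (wa hf β (A / 2 + 1 / 8)) (wg N β (A / 2 + 1 / 8)) (MB σ a l τ)
          (fun p => Pool.Agent.Helper31.SR.am σ a l (τ 0) (τ p.succ) - dm p)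
          (fun (_ : Empty) _ => 0) (fun _ _ => 0) (fun _ => 1)) cst) →
      LLs σ a l (τ 0) - (dE 0 + dE 1 + dE 2)
        + corX (A / 2 + 1 / 8) N r R (fun k => S (τ k.succ))
        + G * ((1 - ε) * S (τ 0) - k1 * R i - (k12 - k1) * R j)
        - arcX ρ β R (fun k => S (τ k.succ)) - cst ≤ Wi a (τ 0) K σ A := by
  have h' := h.perm τ
  have v' := viol_perm v τ
  have hz' := hz.perm τ
  have hA' : 0 < A / 2 + 1 / 8 := by linarith
  have hN : ∀ k m, 0 ≤ N k m := fun k m => by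
    rw [hNd]
    exact NM_nonneg h' v' hz' k m
  have hcol : ∀ m, nc N m ≤ 9 / 10 := fun m => by
    rw [hNd]
    exact nc_le h' v' hz' m
  have hc : (9 / 10 : ℝ) < 1 := by norm_num
  obtain ⟨Ca, q1, q2, q3⟩ := w_bound hN hc hcol (β := β) hA' hβ0 hβ1 hF0 hf0 hfx0 hapC
  have hr0 : ∀ k, 0 ≤ r k := fun k => by
    refine le_trans ?_ (hr k)
    unfold Pool.Agent.Helper55.Mass.Id
    refine mul_nonneg (by positivity) (setIntegral_nonneg Sim_meas fun t ht => ?_)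
    exact div_nonneg (rr_nonneg hN hc hcol (fun k => vv_nonneg ht k) k) (by positivity)
  have ws : ∀ t ∈ Sim, ∀ k, ∑ l', wa hf β (A / 2 + 1 / 8) l' t * (if k = l' then 0 else ρ l' k) ≤
      (hf 0 t + hf 1 t + hf 2 t) - hf k t := fun t ht k =>
    wa_sum hA' hβ1 hF0 hF (fun p => (hρ0 p).le) hρm (fun p => hf0 p t ht) k
  exact face_numX P h v hz τ hX hA hl hδ hdE hdm hdd (β := β) (ρ := ρ) hMρ hx hxs hNd hRd hapm
    hap0 (wa_meas hfm) (fun p t ht => wa_nonneg hA' hβ1 hF0 (fun p => hf0 p t ht) p)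
    (wg_meas hN hc hcol) (fun p t ht => wg_nonneg hN hc hcol hA' hβ0 ht p) q1 q2 q3
    (fun t ht k => (ws t ht k).trans (hfx0 t ht k))
    (fun t ht k => (add_le_add_right (ws t ht k) _).trans (hfx1 t ht k))
    (fun t ht k => wg_sum hN hc hcol hA' hβ0 hK (fun p => (hρ0 p).le) hρm ht k)
    (wa_Id hA' hF0) (wg_Id hN hc hcol hA' hβ0 hρ0 hK) hr0 hr hprow hrow hrB

end Pool.Agent.Helper52.MEI.Pack
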