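import Pool.Agent.Helper78.MEI.TC4

/-!
# Arcs left unpaid

Project MEI. In the face of the vertex `τ 0` any part of the arcs may be left unpaid: the weights are
scaled by `θ p ∈ [0, 1]` on the arc with the other end `τ p.succ` (`thm τ θ`), every face theorem
holds for the scaled weights, the levels of the unpaid parts are at most the violation of the vertex
times the mass.
-/

set_option autoImplicit false

namespace Pool.Agent.Helper52.MEI.Pay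

open Set Metric MeasureTheory Helper80.CW Helper82.CW Helper14.CW Helper93.MEI
open Helper14.MEI2 Pool.Agent.Helper52.MEI Pool.Agent.Helper73.MEI Helper37.MEI Helper41.MEI
open Pool.Agent.Helper31.SR Helper78.MEI
open Helper33.MEI (Wi)

/-- the weights of the edges, `θ p` on the edge between `τ 0` and `τ p.succ` -/
noncomputable def thm (τ : Equiv.Perm (Fin 4)) (θ : Fin 3 → ℝ) (m : Fin 3) (e : Bool) : ℝ :=
  if (idx (τ 0) (τ 1)).1 = m ∧ (idx (τ 0) (τ 1)).2.1 = e then θ 0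
  else if (idx (τ 0) (τ 2)).1 = m ∧ (idx (τ 0) (τ 2)).2.1 = e then θ 1
  else if (idx (τ 0) (τ 3)).1 = m ∧ (idx (τ 0) (τ 3)).2.1 = e then θ 2
  else 1

/-- different arcs of a vertex lie on different edges -/
theorem idx_ne : ∀ i p q : Fin 4, i ≠ p → i ≠ q → p ≠ q →
    ¬((idx i p).1 = (idx i q).1 ∧ (idx i p).2.1 = (idx i q).2.1) := by decide

theorem thm_0 (τ : Equiv.Perm (Fin 4)) (θ : Fin 3 → ℝ) : ath (thm τ θ) (τ 0) (τ 1) = θ 0 := by
  unfold ath thm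
  rw [if_pos ⟨rfl, rfl⟩]

theorem thm_1 (τ : Equiv.Perm (Fin 4)) (θ : Fin 3 → ℝ) : ath (thm τ θ) (τ 0) (τ 2) = θ 1 := by
  have h1 := idx_ne (τ 0) (τ 1) (τ 2) (fun h => absurd (τ.injective h) (by decide))
    (fun h => absurd (τ.injective h) (by decide)) (fun h => absurd (τ.injective h) (by decide))
  unfold ath thm
  rw [if_neg h1, if_pos ⟨rfl, rfl⟩]

theorem thm_2 (τ : Equiv.Perm (Fin 4)) (θ : Fin 3 → ℝ) : ath (thm τ θ) (τ 0) (τ 3) = θ 2 := by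
  have h1 := idx_ne (τ 0) (τ 1) (τ 3) (fun h => absurd (τ.injective h) (by decide))
    (fun h => absurd (τ.injective h) (by decide)) (fun h => absurd (τ.injective h) (by decide))
  have h2 := idx_ne (τ 0) (τ 2) (τ 3) (fun h => absurd (τ.injective h) (by decide))
    (fun h => absurd (τ.injective h) (by decide)) (fun h => absurd (τ.injective h) (by decide))
  unfold ath thm
  rw [if_neg h1, if_neg h2, if_pos ⟨rfl, rfl⟩]

/-- **the weight of the arc with the other end `τ p.succ` is `θ p`** -/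
theorem ath_thm (τ : Equiv.Perm (Fin 4)) (θ : Fin 3 → ℝ) (p : Fin 3) :
    ath (thm τ θ) (τ 0) (τ p.succ) = θ p := by
  fin_cases p
  · exact thm_0 τ θ
  · exact thm_1 τ θ
  · exact thm_2 τ θ

theorem thm_nonneg (τ : Equiv.Perm (Fin 4)) {θ : Fin 3 → ℝ} (h : ∀ p, 0 ≤ θ p) (m : Fin 3)
    (e : Bool) : 0 ≤ thm τ θ m e := by
  unfold thm
  split_ifs
  · exact h 0
  · exact h 1
  · exact h 2
  · exact zero_le_one

theorem thm_le (τ : Equiv.Perm (Fin 4)) {θ : Fin 3 → ℝ} (h : ∀ p, θ p ≤ 1) (m : Fin 3)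
    (e : Bool) : thm τ θ m e ≤ 1 := by
  unfold thm
  split_ifs
  · exact h 0
  · exact h 1
  · exact h 2
  · exact le_rfl

section
variable {a : Fin 4 → E3} {K : Set E3} {σ : Measure (E3 × E3)}
  {l : Fin 3 → Bool → Bool → E3 × E3 → ℝ}

/-- the weights with unpaid parts -/
noncomputable def lp (τ : Equiv.Perm (Fin 4)) (θ : Fin 3 → ℝ)
    (l : Fin 3 → Bool → Bool → E3 × E3 → ℝ) : Fin 3 → Bool → Bool → E3 × E3 → ℝ :=
  scl (thm τ θ) l

theorem Lok_lp (hl : Lok a l) (τ : Equiv.Perm (Fin 4)) {θ : Fin 3 → ℝ} (h0 : ∀ p, 0 ≤ θ p)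
    (h1 : ∀ p, θ p ≤ 1) : Lok a (lp τ θ l) :=
  Lok_scl hl (thm_nonneg τ h0) (thm_le τ h1)

theorem aE_lp (τ : Equiv.Perm (Fin 4)) (θ : Fin 3 → ℝ) (p : Fin 3) :
    aE σ a (lp τ θ l) (τ 0) (τ p.succ) = θ p * aE σ a l (τ 0) (τ p.succ) := by
  unfold lp
  rw [aE_scl, ath_thm]

theorem am_lp (τ : Equiv.Perm (Fin 4)) (θ : Fin 3 → ℝ) (p : Fin 3) :
    Pool.Agent.Helper31.SR.am σ a (lp τ θ l) (τ 0) (τ p.succ) =
      θ p * Pool.Agent.Helper31.SR.am σ a l (τ 0) (τ p.succ) := by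
  unfold lp
  rw [am_scl, ath_thm]

/-- **the moments of the arcs** -/
theorem MA_lp (τ : Equiv.Perm (Fin 4)) {θ : Fin 3 → ℝ} (h0 : ∀ p, 0 ≤ θ p) (p k : Fin 3) :
    MA σ a (lp τ θ l) τ p k = θ p * MA σ a l τ p k := by
  unfold lp
  rw [MA_scl (thm_nonneg τ h0), ath_thm]

theorem MA_lp_le (τ : Equiv.Perm (Fin 4)) {θ : Fin 3 → ℝ} (h0 : ∀ p, 0 ≤ θ p) {p k : Fin 3}
    {r : ℝ} (h : MA σ a l τ p k ≤ r) : MA σ a (lp τ θ l) τ p k ≤ θ p * r := by
  rw [MA_lp τ h0]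
  exact mul_le_mul_of_nonneg_left h (h0 p)

/-- the loss of the face with all arcs and with the scaled arcs -/
theorem LLs_lp (τ : Equiv.Perm (Fin 4)) (θ : Fin 3 → ℝ) :
    LLs σ a l (τ 0) = LLs σ a (lp τ θ l) (τ 0) +
      ∑ p : Fin 3, (1 - θ p) * aE σ a l (τ 0) (τ p.succ) := by
  have h1 := aE_lp (σ := σ) (a := a) (l := l) τ θ
  have h10 := h1 0
  have h11 := h1 1
  have h12 := h1 2
  rw [LLs_perm, LLs_perm, Fin.sum_univ_three]
  change aE σ a (lp τ θ l) (τ 0) (τ 1) = θ 0 * aE σ a l (τ 0) (τ 1) at h10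
  change aE σ a (lp τ θ l) (τ 0) (τ 2) = θ 1 * aE σ a l (τ 0) (τ 2) at h11
  change aE σ a (lp τ θ l) (τ 0) (τ 3) = θ 2 * aE σ a l (τ 0) (τ 3) at h12
  change aE σ a l (τ 0) (τ 1) + aE σ a l (τ 0) (τ 2) + aE σ a l (τ 0) (τ 3) =
    aE σ a (lp τ θ l) (τ 0) (τ 1) + aE σ a (lp τ θ l) (τ 0) (τ 2) +
      aE σ a (lp τ θ l) (τ 0) (τ 3) + ((1 - θ 0) * aE σ a l (τ 0) (τ 1) +
      (1 - θ 1) * aE σ a l (τ 0) (τ 2) + (1 - θ 2) * aE σ a l (τ 0) (τ 3))
  rw [h10, h11, h12]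
  ring

/-- **unpaid arcs**: a face inequality for the scaled weights gives the face inequality, the unpaid
parts being paid by the masses -/
theorem pay [IsFiniteMeasure σ] (ha : ∀ i j, i ≠ j → dist (a i) (a j) = 1) (hl : Lok a l)
    (hK : IsCompact K) (hσ : ∀ᵐ z ∂σ, z.1 ∈ K ∧ z.2 ∈ K) (hp : ∀ x ∈ K, Pl a x)
    (τ : Equiv.Perm (Fin 4)) {θ : Fin 3 → ℝ} (h1 : ∀ p, θ p ≤ 1) {S : ℝ} (hS : 0 ≤ S)
    (hQ : ∀ x ∈ K, Qv a (τ 0) x ≤ S) {m : Fin 3 → ℝ}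
    (hm : ∀ p, θ p < 1 → Pool.Agent.Helper31.SR.am σ a l (τ 0) (τ p.succ) ≤ m p) {F W : ℝ}
    (h : LLs σ a (lp τ θ l) (τ 0) + F ≤ W) :
    LLs σ a l (τ 0) + (F - S * ∑ p, (1 - θ p) * m p) ≤ W := by
  have h2 : ∀ p : Fin 3, (1 - θ p) * aE σ a l (τ 0) (τ p.succ) ≤ (1 - θ p) * (S * m p) := by
    intro p
    have hne : τ 0 ≠ τ p.succ := fun h => (Fin.succ_ne_zero p) (τ.injective h).symm
    rcases (h1 p).lt_or_eq with h3 | h3
    · have h4 := aE_le ha hl hK hσ hp hne hQ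
      have h5 := mul_le_mul_of_nonneg_left (hm p h3) hS
      exact mul_le_mul_of_nonneg_left (h4.trans h5) (by linarith)
    · rw [h3, sub_self, zero_mul, zero_mul]
  have h3 := Finset.sum_le_sum fun p (_ : p ∈ Finset.univ) => h2 p
  have h4 : ∑ p : Fin 3, (1 - θ p) * (S * m p) = S * ∑ p, (1 - θ p) * m p := by
    rw [Finset.mul_sum]
    exact Finset.sum_congr rfl fun p _ => by ring
  have h5 := LLs_lp (σ := σ) (a := a) (l := l) τ θ
  linarith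

end

end Pool.Agent.Helper52.MEI.Pay
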