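import Mathlib

/-!
# The strip bound

`y j = ⟪a i - q, a i - a j⟫ ≥ 0`, `w = |a i - q|² = (3/2) Σ y² - Σ y y`, `2 y j = w - Q j q`.
Upper bounds for `E w - 2 A Σ c j y j` when `Q j q ≤ v j`.
-/

set_option autoImplicit false

namespace Pool.Agent.Helper52.MEI

/-- `w ≤ (3/2) (Σ y)²` -/
theorem w_le_sum {y1 y2 y3 : ℝ} (h1 : 0 ≤ y1) (h2 : 0 ≤ y2) (h3 : 0 ≤ y3) :
    3 / 2 * (y1 ^ 2 + y2 ^ 2 + y3 ^ 2) - (y1 * y2 + y1 * y3 + y2 * y3) ≤
      3 / 2 * (y1 + y2 + y3) ^ 2 := by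
  nlinarith [mul_nonneg h1 h2, mul_nonneg h1 h3, mul_nonneg h2 h3]

/-- from squares: `3 k² = 2`, `w = x²`, `w ≤ (3/2) S²` give `k x ≤ S` -/
theorem kx_le {k x S w : ℝ} (hk : 3 * k ^ 2 = 2) (hS : 0 ≤ S)
    (hw : w = x ^ 2) (h : w ≤ 3 / 2 * S ^ 2) : k * x ≤ S := by
  apply le_of_sq_le_sq _ hS
  rw [mul_pow]
  nlinarith

/-- `E x² - m x` on `[0, r]` is at most `max 0 (E r² - m r)` -/
theorem quad_le {E m x r : ℝ} (hE : 0 ≤ E) (hx : 0 ≤ x) (hxr : x ≤ r) :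
    E * x ^ 2 - m * x ≤ max 0 (E * r ^ 2 - m * r) := by
  rcases le_total (E * x - m) 0 with h | h
  · refine le_trans ?_ (le_max_left _ _)
    nlinarith
  · refine le_trans ?_ (le_max_right _ _)
    have h1 : E * x - m ≤ E * r - m := by nlinarith
    have h2 : x * (E * x - m) ≤ r * (E * r - m) :=
      mul_le_mul hxr h1 h (hx.trans hxr)
    nlinarith

/-- the remaining sum after subtracting the common part -/
theorem rest_ge {k r v w m y1 y2 y3 : ℝ} (hk : 3 * k ^ 2 = 2) (hk0 : 0 ≤ k) (hr : 0 ≤ r)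
    (hv : v = r ^ 2) (hm : w = v + 2 * m) (hm0 : 0 ≤ m) (hm1 : 3 / 2 * m + k * r ≤ 2)
    (h1 : m ≤ y1) (h2 : m ≤ y2) (h3 : m ≤ y3)
    (hw : w = 3 / 2 * (y1 ^ 2 + y2 ^ 2 + y3 ^ 2) - (y1 * y2 + y1 * y3 + y2 * y3)) :
    k * r ≤ (y1 - m) + (y2 - m) + (y3 - m) := by
  by_contra hc
  have hc := not_le.1 hc
  obtain ⟨z1, rfl⟩ : ∃ z, y1 = m + z := ⟨y1 - m, by ring⟩
  obtain ⟨z2, rfl⟩ : ∃ z, y2 = m + z := ⟨y2 - m, by ring⟩
  obtain ⟨z3, rfl⟩ : ∃ z, y3 = m + z := ⟨y3 - m, by ring⟩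
  have e1 : 0 ≤ z1 := by linarith
  have e2 : 0 ≤ z2 := by linarith
  have e3 : 0 ≤ z3 := by linarith
  have hS : z1 + z2 + z3 < k * r := by linarith
  have h4 := w_le_sum e1 e2 e3
  have h5 : v + 2 * m = 3 / 2 * m ^ 2 + m * (z1 + z2 + z3) +
      (3 / 2 * (z1 ^ 2 + z2 ^ 2 + z3 ^ 2) - (z1 * z2 + z1 * z3 + z2 * z3)) := by
    rw [← hm, hw]
    ring
  have h6 : 3 / 2 * (z1 + z2 + z3) ^ 2 < v := by
    have h7 : (z1 + z2 + z3) ^ 2 < (k * r) ^ 2 := by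
      apply pow_lt_pow_left₀ hS (by linarith) (by norm_num)
    rw [mul_pow] at h7
    rw [hv]
    nlinarith
  have h8 : m * (z1 + z2 + z3) ≤ m * (k * r) := mul_le_mul_of_nonneg_left hS.le hm0
  have h9 : m * (3 / 2 * m + k * r) ≤ m * 2 := mul_le_mul_of_nonneg_left hm1 hm0
  nlinarith

/-- **strip bound, one level**: all `Q j q ≤ v` -/
theorem strip {E A k r v w c c1 c2 c3 y1 y2 y3 : ℝ} (hE : 0 ≤ E) (hA : 0 ≤ A)
    (hk : 3 * k ^ 2 = 2) (hk0 : 0 ≤ k) (hr : 0 ≤ r) (hv : v = r ^ 2)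
    (hsm : 3 / 4 * (w - v) + k * r ≤ 2) (hc : 0 ≤ c) (h1c : c ≤ c1) (h2c : c ≤ c2) (h3c : c ≤ c3)
    (h1 : 0 ≤ y1) (h2 : 0 ≤ y2) (h3 : 0 ≤ y3)
    (g1 : (w - v) / 2 ≤ y1) (g2 : (w - v) / 2 ≤ y2) (g3 : (w - v) / 2 ≤ y3)
    (hw : w = 3 / 2 * (y1 ^ 2 + y2 ^ 2 + y3 ^ 2) - (y1 * y2 + y1 * y3 + y2 * y3)) :
    E * w - 2 * A * (c1 * y1 + c2 * y2 + c3 * y3) ≤
      max 0 (E * v - 2 * A * k * c * r) + max 0 (E - A * (c1 + c2 + c3)) * max 0 (w - v) := by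
  have hw0 : 0 ≤ w := by
    rw [hw]
    nlinarith [sq_nonneg (y1 - y2), sq_nonneg (y1 - y3), sq_nonneg (y2 - y3), sq_nonneg y1,
      sq_nonneg y2, sq_nonneg y3]
  have hAc : 0 ≤ A * c := mul_nonneg hA hc
  rcases le_total w v with h | h
  · -- small `w`
    have e1 : w = Real.sqrt w ^ 2 := (Real.sq_sqrt hw0).symm
    have e2 : w ≤ 3 / 2 * (y1 + y2 + y3) ^ 2 := by
      rw [hw]
      exact w_le_sum h1 h2 h3
    have e3 := kx_le hk (by linarith : 0 ≤ y1 + y2 + y3) e1 e2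
    have e4 : c * (y1 + y2 + y3) ≤ c1 * y1 + c2 * y2 + c3 * y3 := by nlinarith
    have e5 : c * (k * Real.sqrt w) ≤ c * (y1 + y2 + y3) := mul_le_mul_of_nonneg_left e3 hc
    have e6 : A * (c * (k * Real.sqrt w)) ≤ A * (c1 * y1 + c2 * y2 + c3 * y3) :=
      mul_le_mul_of_nonneg_left (e5.trans e4) hA
    have e7 : Real.sqrt w ≤ r := by
      apply Real.sqrt_le_iff.2
      exact ⟨hr, by rw [← hv]; exact h⟩
    have e8 := quad_le (E := E) (m := 2 * A * k * c) hE (Real.sqrt_nonneg w) e7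
    rw [← e1, ← hv] at e8
    have e9 : 0 ≤ max 0 (E - A * (c1 + c2 + c3)) * max 0 (w - v) :=
      mul_nonneg (le_max_left _ _) (le_max_left _ _)
    nlinarith
  · -- large `w`
    have hm0 : 0 ≤ (w - v) / 2 := by linarith
    have e1 := rest_ge (m := (w - v) / 2) hk hk0 hr hv (by ring) hm0 (by linarith) g1 g2 g3 hw
    set m := (w - v) / 2 with hm
    have e2 : c * (k * r) ≤ c1 * (y1 - m) + c2 * (y2 - m) + c3 * (y3 - m) := by
      have f1 : c * (k * r) ≤ c * ((y1 - m) + (y2 - m) + (y3 - m)) :=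
        mul_le_mul_of_nonneg_left e1 hc
      nlinarith [mul_nonneg (sub_nonneg.2 h1c) (sub_nonneg.2 g1),
        mul_nonneg (sub_nonneg.2 h2c) (sub_nonneg.2 g2),
        mul_nonneg (sub_nonneg.2 h3c) (sub_nonneg.2 g3)]
    have e3 : A * (c * (k * r)) ≤ A * (c1 * (y1 - m) + c2 * (y2 - m) + c3 * (y3 - m)) :=
      mul_le_mul_of_nonneg_left e2 hA
    have e4 : E * w - 2 * A * (c1 * y1 + c2 * y2 + c3 * y3) ≤
        (E * v - 2 * A * k * c * r) + (E - A * (c1 + c2 + c3)) * (w - v) := by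
      have f1 : w = v + 2 * m := by rw [hm]; ring
      have f2 : w - v = 2 * m := by rw [hm]; ring
      rw [f2]
      have f3 : E * w = E * v + E * (2 * m) := by rw [f1]; ring
      nlinarith
    have e5 : (E - A * (c1 + c2 + c3)) * (w - v) ≤
        max 0 (E - A * (c1 + c2 + c3)) * max 0 (w - v) := by
      rw [max_eq_right (sub_nonneg.2 h)]
      exact mul_le_mul_of_nonneg_right (le_max_right _ _) (sub_nonneg.2 h)
    have e6 := le_max_right 0 (E * v - 2 * A * k * c * r)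
    linarith

end Pool.Agent.Helper52.MEI
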