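import Pool.Agent.Helper14.MEI2.TetVol
import Pool.Agent.Helper14.MEI2.Place

/-!
# The part of the tetrahedron which is missing in the body

If `Q_i ≤ s_i` on `K` then `T \ K` lies in the four corners `1 - b_i ≤ c s_i`.
-/

set_option autoImplicit false

namespace Pool.Agent.Helper52.MEI

open Set MeasureTheory Helper80.CW Helper14.CW Helper14.MEI2 Helper93.MEI
open scoped RealInnerProductSpace ENNReal

variable {a : Fin 4 → E3} {K : Set E3}

/-- second elementary symmetric function of the barycentric coordinates -/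
noncomputable def se (a : Fin 4 → E3) (x : E3) : ℝ :=
  bar a 0 x * bar a 1 x + bar a 0 x * bar a 2 x + bar a 0 x * bar a 3 x +
    bar a 1 x * bar a 2 x + bar a 1 x * bar a 3 x + bar a 2 x * bar a 3 x

/-- the distance of two points through the weights of the first -/
theorem dist_weights (g : Gram4 (al a)) (x q : E3) : ‖x - q‖ ^ 2 - 1 =
    bar a 0 x * Qv a 0 q + bar a 1 x * Qv a 1 q + bar a 2 x * Qv a 2 q + bar a 3 x * Qv a 3 q
      - se a x := by
  have h1 := bar_sum g x
  have h2 := bar_sum g q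
  rw [norm_sub_sq_bar g, Qv_eq g, Qv_eq g, Qv_eq g, Qv_eq g]
  unfold se
  set b0 := bar a 0 x
  set b1 := bar a 1 x
  set b2 := bar a 2 x
  set b3 := bar a 3 x
  set c0 := bar a 0 q
  set c1 := bar a 1 q
  set c2 := bar a 2 q
  set c3 := bar a 3 q
  have e0 : b0 = 1 - b1 - b2 - b3 := by linarith
  rw [e0]
  ring

/-- the elementary argument: four weights -/
theorem corner_arith {b s S m0 c : ℝ} {e : ℝ} (hm0 : m0 ≤ 1 / 2) (hS : S ≤ m0 * (1 - m0))
    (hc : 1 - m0 ≤ c * (1 - m0 - S)) (hc0 : 0 ≤ c) (hs0 : 0 ≤ s) (hb1 : b ≤ 1)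
    (he1 : (1 - b) * b ≤ e) (he2 : (1 - b) / 2 ≤ e) (heS : e < S)
    (hes : e < b * s + (1 - b) * S) : 1 - b ≤ c * s := by
  obtain ⟨m, rfl⟩ : ∃ m, b = 1 - m := ⟨1 - b, by ring⟩
  have hm : 0 ≤ m := by linarith
  have hS0 : 0 < S := by linarith
  have h1 : m ≤ m0 := by
    by_contra h
    have h := not_le.1 h
    have h2 : (m - m0) * (1 - m - m0) < 0 := by nlinarith
    have h3 : 1 - m - m0 < 0 := by
      by_contra h4
      have := mul_nonneg (sub_nonneg.2 h.le) (not_lt.1 h4)
      linarith
    nlinarith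
  have hq : m * (1 - m - S) ≤ (1 - m) * s := by nlinarith
  have h5 : 0 < 1 - m0 - S := by nlinarith
  have h6 : 0 < 1 - m := by linarith
  -- `m (1 - m0 - S) (1 - m) ≤ m (1 - m - S) (1 - m0)`
  have h7 : m * ((1 - m0 - S) * (1 - m)) ≤ m * ((1 - m - S) * (1 - m0)) := by
    apply mul_le_mul_of_nonneg_left _ hm
    nlinarith
  have h8 : m * ((1 - m0 - S) * (1 - m)) ≤ (1 - m) * s * (1 - m0) := by
    have := mul_le_mul_of_nonneg_right hq (by linarith : 0 ≤ 1 - m0)
    linarith
  have h9 : m * (1 - m0 - S) ≤ s * (1 - m0) := by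
    have h10 : (m * (1 - m0 - S)) * (1 - m) ≤ (s * (1 - m0)) * (1 - m) := by linarith
    exact le_of_mul_le_mul_right h10 h6
  have h11 : s * (1 - m0) ≤ s * (c * (1 - m0 - S)) := mul_le_mul_of_nonneg_left hc hs0
  have h12 : m * (1 - m0 - S) ≤ (c * s) * (1 - m0 - S) := by linarith
  have := le_of_mul_le_mul_right h12 h5
  linarith

/-- a point of the tetrahedron outside the body lies in a corner -/
theorem corner_of_notMem (g : Gram4 (al a)) (hull : ∀ p, (∀ q ∈ K, ‖p - q‖ ≤ 1) → p ∈ K)
    {s : Fin 4 → ℝ} {S m0 c : ℝ} (hm0 : m0 ≤ 1 / 2) (hS : S ≤ m0 * (1 - m0))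
    (hc : 1 - m0 ≤ c * (1 - m0 - S)) (hc0 : 0 ≤ c) (hs0 : ∀ i, 0 ≤ s i) (hsS : ∀ i, s i ≤ S)
    (hQ : ∀ i, ∀ q ∈ K, Qv a i q ≤ s i) {x : E3} (hx : ∀ k, 0 ≤ bar a k x) (hxK : x ∉ K) :
    ∃ i, 1 - bar a i x ≤ c * s i := by
  obtain ⟨q, hq, hxq⟩ : ∃ q ∈ K, 1 < ‖x - q‖ := by
    by_contra h
    push Not at h
    exact hxK (hull x h)
  have h1 := dist_weights g x q
  have h2 : 1 < ‖x - q‖ ^ 2 := by nlinarith
  have b0 := hx 0
  have b1 := hx 1
  have b2 := hx 2
  have b3 := hx 3
  have hb := bar_sum g x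
  have hes : se a x < bar a 0 x * s 0 + bar a 1 x * s 1 + bar a 2 x * s 2 + bar a 3 x * s 3 := by
    have k0 := mul_le_mul_of_nonneg_left (hQ 0 q hq) b0
    have k1 := mul_le_mul_of_nonneg_left (hQ 1 q hq) b1
    have k2 := mul_le_mul_of_nonneg_left (hQ 2 q hq) b2
    have k3 := mul_le_mul_of_nonneg_left (hQ 3 q hq) b3
    linarith
  have heS : se a x < S := by
    have k0 := mul_le_mul_of_nonneg_left (hsS 0) b0
    have k1 := mul_le_mul_of_nonneg_left (hsS 1) b1
    have k2 := mul_le_mul_of_nonneg_left (hsS 2) b2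
    have k3 := mul_le_mul_of_nonneg_left (hsS 3) b3
    have : bar a 0 x * S + bar a 1 x * S + bar a 2 x * S + bar a 3 x * S = S := by
      rw [← add_mul, ← add_mul, ← add_mul, hb, one_mul]
    linarith
  -- the argument for the largest coordinate
  have t0 := hsS 0
  have t1 := hsS 1
  have t2 := hsS 2
  have t3 := hsS 3
  have r0 := hs0 0
  have r1 := hs0 1
  have r2 := hs0 2
  have r3 := hs0 3
  unfold se at hes heS
  set w := bar a 0 x
  set y := bar a 1 x
  set z := bar a 2 x
  set u := bar a 3 x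
  have gen : ∀ (i : Fin 4) (A B C D : ℝ), bar a i x = A → 0 ≤ A → 0 ≤ B → 0 ≤ C → 0 ≤ D →
      A + B + C + D = 1 → B ≤ A → C ≤ A → D ≤ A → 
      A * B + A * C + A * D + B * C + B * D + C * D < S →
      A * B + A * C + A * D + B * C + B * D + C * D < A * s i + (B + C + D) * S →
      1 - bar a i x ≤ c * s i := by
    intro i A B C D hi hA hB hC hD hsum hBA hCA hDA e1 e2
    rw [hi]
    refine corner_arith (e := A * B + A * C + A * D + B * C + B * D + C * D) hm0 hS hc hc0
      (hs0 i) (by linarith) ?_ ?_ e1 ?_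
    · have : 1 - A = B + C + D := by linarith
      rw [this]
      nlinarith [mul_nonneg hB hC, mul_nonneg hB hD, mul_nonneg hC hD]
    · have h3 : A * B + A * C + A * D + B * C + B * D + C * D =
          (1 - (A ^ 2 + B ^ 2 + C ^ 2 + D ^ 2)) / 2 := by
        have : (A + B + C + D) ^ 2 = 1 := by rw [hsum]; norm_num
        linarith [this, (by ring : (A + B + C + D) ^ 2 = A ^ 2 + B ^ 2 + C ^ 2 + D ^ 2 +
          2 * (A * B + A * C + A * D + B * C + B * D + C * D))]
      have h4 : A ^ 2 + B ^ 2 + C ^ 2 + D ^ 2 ≤ A := by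
        have e3 : A ^ 2 + A * B + A * C + A * D = A := by
          have : A * (A + B + C + D) = A := by rw [hsum, mul_one]
          linarith [this, (by ring : A * (A + B + C + D) = A ^ 2 + A * B + A * C + A * D)]
        nlinarith [mul_nonneg hB (sub_nonneg.2 hBA), mul_nonneg hC (sub_nonneg.2 hCA),
          mul_nonneg hD (sub_nonneg.2 hDA)]
      rw [h3]
      linarith
    · have : 1 - A = B + C + D := by linarith
      rw [this]
      exact e2
  rcases le_total w y with h | h
  · rcases le_total y z with h' | h'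
    · rcases le_total z u with h'' | h''
      · refine ⟨3, gen 3 u w y z rfl b3 b0 b1 b2 (by linarith) (by linarith) (by linarith)
          (by linarith) (by linarith) ?_⟩
        nlinarith
      · refine ⟨2, gen 2 z w y u rfl b2 b0 b1 b3 (by linarith) (by linarith) (by linarith)
          (by linarith) (by linarith) ?_⟩
        nlinarith
    · rcases le_total y u with h'' | h''
      · refine ⟨3, gen 3 u w y z rfl b3 b0 b1 b2 (by linarith) (by linarith) (by linarith)
          (by linarith) (by linarith) ?_⟩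
        nlinarith
      · refine ⟨1, gen 1 y w z u rfl b1 b0 b2 b3 (by linarith) (by linarith) (by linarith)
          (by linarith) (by linarith) ?_⟩
        nlinarith
  · rcases le_total w z with h' | h'
    · rcases le_total z u with h'' | h''
      · refine ⟨3, gen 3 u w y z rfl b3 b0 b1 b2 (by linarith) (by linarith) (by linarith)
          (by linarith) (by linarith) ?_⟩
        nlinarith
      · refine ⟨2, gen 2 z w y u rfl b2 b0 b1 b3 (by linarith) (by linarith) (by linarith)
          (by linarith) (by linarith) ?_⟩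
        nlinarith
    · rcases le_total w u with h'' | h''
      · refine ⟨3, gen 3 u w y z rfl b3 b0 b1 b2 (by linarith) (by linarith) (by linarith)
          (by linarith) (by linarith) ?_⟩
        nlinarith
      · refine ⟨0, gen 0 w y z u rfl b0 b1 b2 b3 (by linarith) (by linarith) (by linarith)
          (by linarith) (by linarith) ?_⟩
        nlinarith

end Pool.Agent.Helper52.MEI
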